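import Pool.Agent.Helper24.AN.QRun

/-!
Q08 Bij: partitions of `p w + r` with a core of size `r` and labels.

PROOF. Forward: `M ↦ (core p M, j ↦ norm (run j M))`; charge `0` by `charge_core`, `charge_norm`; `∑ size (norm (run j M)) = w` by `size_core`,
`size_norm` and `p > 0`. Backward: `q ↦ M = glue (fun j => shift (charge (run j q.1.1.1)) (q.1.2 j).1)`: `run j M = shift ..` (`run_glue`), charge
`∑_j charge (run j q.1.1.1) = charge q.1.1.1 = 0` (`charge_run_sum`, `charge_shift`), so `core p M = glue (vac (charge (run j q.1.1.1))) =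
core p q.1.1.1 = q.1.1.1` (`core_of_small`, `r < p`), size `r + p w` (`size_core`, `size_shift`). Inverse to each other:
`norm_shift` and `run_ext` with `run_glue`; `shift_norm` with `charge (run j (core p M)) = charge (vac ..) = charge (run j M)` (`charge_vac`).
Twist: `core_conj`, `run_conj`, `norm_conj`.
-/

set_option autoImplicit false

namespace Pool.Agent.Helper24.AN

open Finset
open Pool.Agent.Helper81.AN

private theorem p0_ext {a b : P0} (h : a.1 = b.1) : a = b := Subtype.ext h

private theorem lab_ext {p w r : ℕ} {a b : LabL p w r} (h1 : a.1.1.1 = b.1.1.1)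
    (h2 : ∀ j, (a.1.2 j).1 = (b.1.2 j).1) : a = b := by
  apply Subtype.ext
  apply Prod.ext
  · exact p0_ext h1
  · funext j
    exact p0_ext (h2 j)

section

variable {p : ℕ} [NeZero p]

private theorem run_core (j : Fin p) (M : Maya) : run j (core p M) = vac (run j M).charge := by
  unfold core
  rw [run_glue]

/-- the Maya diagram of a label -/
private noncomputable def back (q0 : Maya) (q : Fin p → Maya) : Maya :=
  glue fun j => shift (run j q0).charge (q j)

private theorem charge_back (q0 : Maya) (q : Fin p → Maya) (hq : ∀ j, (q j).charge = 0) :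
    (back q0 q).charge = q0.charge := by
  rw [charge_run_sum (p := p) (back q0 q), charge_run_sum (p := p) q0]
  apply Finset.sum_congr rfl
  intro j _
  unfold back
  rw [run_glue, charge_shift, hq j, zero_add]

private theorem core_back (q0 : Maya) (q : Fin p → Maya) (hq : ∀ j, (q j).charge = 0)
    (h : q0.size < p) : core p (back q0 q) = q0 := by
  conv_rhs => rw [← core_of_small q0 h]
  unfold core
  congr 1
  funext j
  unfold back
  rw [run_glue, charge_shift, hq j, zero_add]

private theorem size_back (q0 : Maya) (q : Fin p → Maya) (hq : ∀ j, (q j).charge = 0)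
    (h : q0.size < p) : (back q0 q).size = q0.size + p * ∑ j, (q j).size := by
  rw [size_core (p := p) (back q0 q), core_back q0 q hq h]
  congr 2
  apply Finset.sum_congr rfl
  intro j _
  unfold back
  rw [run_glue, size_shift]

end

theorem exists_lab_equiv (p : ℕ) [NeZero p] (w r : ℕ) (hr : r < p) :
    ∃ e : {l : Par (p * w + r) // (core p l.1.1).size = r} ≃ LabL p w r,
      (∀ l, (e l).1.1.1 = core p l.1.1.1) ∧ (∀ l j, ((e l).1.2 j).1 = norm (run j l.1.1.1)) ∧
      ∀ l l' : {l : Par (p * w + r) // (core p l.1.1).size = r}, l'.1 = l.1.tw → e l' = (e l).tw := by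
  have hp : 0 < p := NeZero.pos p
  let f : {l : Par (p * w + r) // (core p l.1.1).size = r} → LabL p w r := fun l =>
    ⟨(⟨core p l.1.1.1, by rw [charge_core]; exact l.1.1.2⟩,
      fun j => ⟨norm (run j l.1.1.1), charge_norm _⟩), l.2, by
      have h1 := size_core (p := p) l.1.1.1
      have h2 : l.1.1.1.size = p * w + r := l.1.2
      have h3 := l.2
      rw [h2, h3] at h1
      have h4 : p * ∑ j : Fin p, (run j l.1.1.1).size = p * w := by omega
      have h5 : ∑ j : Fin p, (run j l.1.1.1).size = w := Nat.eq_of_mul_eq_mul_left hp h4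
      have h6 : ∀ j : Fin p, (norm (run j l.1.1.1)).size = (run j l.1.1.1).size :=
        fun j => size_norm _
      change ∑ j : Fin p, (norm (run j l.1.1.1)).size = w
      rw [Finset.sum_congr rfl (fun j _ => h6 j)]
      exact h5⟩
  let g : LabL p w r → {l : Par (p * w + r) // (core p l.1.1).size = r} := fun q =>
    ⟨⟨⟨back q.1.1.1 (fun j => (q.1.2 j).1), by
      rw [charge_back _ _ (fun j => (q.1.2 j).2)]
      exact q.1.1.2⟩, by
      have h1 : q.1.1.1.size = r := q.2.1
      have h2 : ∑ j, (q.1.2 j).1.size = w := q.2.2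
      change (back q.1.1.1 (fun j => (q.1.2 j).1)).size = p * w + r
      rw [size_back _ _ (fun j => (q.1.2 j).2) (by rw [h1]; exact hr), h1, h2]
      ring⟩, by
      have h1 : q.1.1.1.size = r := q.2.1
      change (core p (back q.1.1.1 (fun j => (q.1.2 j).1))).size = r
      rw [core_back _ _ (fun j => (q.1.2 j).2) (by rw [h1]; exact hr), h1]⟩
  have hgf : ∀ l, g (f l) = l := by
    intro l
    apply Subtype.ext
    apply Subtype.ext
    apply p0_ext
    change back (core p l.1.1.1) (fun j => norm (run j l.1.1.1)) = l.1.1.1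
    unfold back
    have h1 : (fun j : Fin p => shift (run j (core p l.1.1.1)).charge (norm (run j l.1.1.1))) =
        fun j : Fin p => run j l.1.1.1 := by
      funext j
      rw [run_core, charge_vac, shift_norm]
    rw [h1, glue_run]
  have hfg : ∀ q, f (g q) = q := by
    intro q
    have h1 : q.1.1.1.size = r := q.2.1
    apply lab_ext
    · change core p (back q.1.1.1 (fun j => (q.1.2 j).1)) = q.1.1.1
      exact core_back _ _ (fun j => (q.1.2 j).2) (by rw [h1]; exact hr)
    · intro j
      change norm (run j (back q.1.1.1 (fun j => (q.1.2 j).1))) = (q.1.2 j).1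
      unfold back
      rw [run_glue]
      exact norm_shift _ _ (q.1.2 j).2
  refine ⟨⟨f, g, hgf, hfg⟩, fun l => rfl, fun l j => rfl, ?_⟩
  intro l l' h
  have h1 : l'.1.1.1 = l.1.1.1.conj := by rw [h]; rfl
  apply lab_ext
  · change core p l'.1.1.1 = (core p l.1.1.1).conj
    rw [h1, core_conj]
  · intro j
    change norm (run j l'.1.1.1) = (norm (run j.rev l.1.1.1)).conj
    rw [h1, run_conj, norm_conj]

end Pool.Agent.Helper24.AN
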