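import Pool.Agent.Helper24.AN.QMod
import Pool.Agent.Helper24.AN.QBij

/-!
Q09 LinC: cores and quotients.

PROOF. `haveI : Fact p.Prime := ⟨hp⟩`, `NeZero p`. Let `e0` be the equivalence of `exists_lab_equiv`. If `¬ p ∣ l.dg` then the core of `l` has
size `r` (`f_mod_zero`). By `f_mod` and `f_norm`, `size_norm`: `l.dg = ± multinomial * ∏ f * f core` in `ZMod p`, and
`LabL.dg mid (e0 l) = (p - 1) ^ _ * multinomial * ∏ f * f core` with `(p - 1 : ℕ) = -1` in `ZMod p`. So the squares of `l.dg` and of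
`LabL.dg mid (e0 l)` in `ZMod p` are equal, and `p` divides one iff it divides the other (`ZMod.natCast_eq_zero_iff`, `pow_eq_zero_iff`). So `e0`
restricts (`Equiv.ofBijective`, or `Equiv.subtypeEquiv` composed with `Equiv.subtypeSubtypeEquivSubtype`).
-/

set_option autoImplicit false

namespace Pool.Agent.Helper24.AN

open Finset
open Pool.Agent.Helper81.AN

theorem lin_C (p : ℕ) (hp : p.Prime) (mid : Fin p) (hmid : 2 * (mid : ℕ) + 1 = p) (w r : ℕ)
    (hr : r < p) :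
    ∃ e : {l : Par (p * w + r) // ¬ p ∣ l.dg} ≃ {q : LabL p w r // ¬ p ∣ q.dg mid},
      (∀ l l', l'.1 = l.1.tw → (e l').1 = (e l).1.tw) ∧
      ∀ l, (((e l).1.dg mid : ℕ) : ZMod p) ^ 2 = (l.1.dg : ZMod p) ^ 2 := by
  haveI : Fact p.Prime := ⟨hp⟩
  haveI : NeZero p := ⟨hp.ne_zero⟩
  obtain ⟨e0, h1, h2, h3⟩ := exists_lab_equiv p w r hr
  have hc : ∀ l : Par (p * w + r), ¬ p ∣ l.dg → (core p l.1.1).size = r := by
    intro l hl
    by_contra h
    exact hl (f_mod_zero p l.1.1 w r hr l.2 h)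
  have key : ∀ l : {l : Par (p * w + r) // (core p l.1.1).size = r},
      (((e0 l).dg mid : ℕ) : ZMod p) ^ 2 = ((l.1.dg : ℕ) : ZMod p) ^ 2 := by
    intro l
    obtain ⟨u, hu⟩ := f_mod p l.1.1.1 w r hr l.1.2 l.2
    have hs : ∀ j, ((e0 l).1.2 j).size = (run j l.1.1.1).size := by
      intro j
      show ((e0 l).1.2 j).1.size = _
      rw [h2, size_norm]
    have hf : ∀ j, ((e0 l).1.2 j).f = (run j l.1.1.1).f := by
      intro j
      show ((e0 l).1.2 j).1.f = _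
      rw [h2, f_norm]
    have hcf : (e0 l).1.1.f = (core p l.1.1.1).f := by
      show (e0 l).1.1.1.f = _
      rw [h1]
    have hdg : (e0 l).dg mid = (p - 1) ^ (run mid l.1.1.1).size *
        (Nat.multinomial univ (fun j : Fin p => (run j l.1.1.1).size) *
          (∏ j : Fin p, (run j l.1.1.1).f) * (core p l.1.1.1).f) := by
      unfold LabL.dg
      rw [hcf, hs mid, Finset.prod_congr rfl fun j _ => hf j]
      have hs' : (fun i => ((e0 l).1.2 i).size) = fun i => (run i l.1.1.1).size := funext hs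
      rw [hs']
      ring
    have hm1 : ((p - 1 : ℕ) : ZMod p) = -1 := by
      rw [Nat.cast_sub hp.one_le, Nat.cast_one, ZMod.natCast_self, zero_sub]
    have hu2 : ((u : ℤ) : ZMod p) ^ 2 = 1 := by
      rcases Int.units_eq_one_or u with h | h <;> rw [h] <;> simp
    have hl : ((l.1.dg : ℕ) : ZMod p) = ((l.1.1.1.f : ℕ) : ZMod p) := rfl
    rw [hl, hu, hdg, Nat.cast_mul, Nat.cast_pow, hm1, mul_pow, mul_pow, hu2, ← pow_mul,
      mul_comm _ 2, pow_mul, neg_one_sq, one_pow]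
  have hdvd : ∀ l : {l : Par (p * w + r) // (core p l.1.1).size = r},
      p ∣ l.1.dg ↔ p ∣ (e0 l).dg mid := by
    intro l
    have h := key l
    rw [← ZMod.natCast_eq_zero_iff, ← ZMod.natCast_eq_zero_iff,
      ← pow_eq_zero_iff (two_ne_zero) (a := ((l.1.dg : ℕ) : ZMod p)), ← h,
      pow_eq_zero_iff two_ne_zero]
  refine ⟨⟨fun l => ⟨e0 ⟨l.1, hc l.1 l.2⟩, fun h => l.2 ((hdvd ⟨l.1, hc l.1 l.2⟩).2 h)⟩,
    fun q => ⟨(e0.symm q.1).1, fun h => q.2 (by
      have h4 := (hdvd (e0.symm q.1)).1 h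
      rwa [Equiv.apply_symm_apply] at h4)⟩, ?_, ?_⟩, ?_, ?_⟩
  · intro l
    apply Subtype.ext
    show (e0.symm (e0 ⟨l.1, hc l.1 l.2⟩)).1 = l.1
    rw [Equiv.symm_apply_apply]
  · intro q
    apply Subtype.ext
    show e0 (e0.symm q.1) = q.1
    rw [Equiv.apply_symm_apply]
  · intro l l' h
    exact h3 ⟨l.1, hc l.1 l.2⟩ ⟨l'.1, hc l'.1 l'.2⟩ h
  · intro l
    exact key ⟨l.1, hc l.1 l.2⟩

end Pool.Agent.Helper24.AN
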