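import Pool.Agent.Helper24.AN.LDefs

/-!
L01 Phi: elementary properties of `phi` and `CL`.

PROOFS. `phi_perm`: `Matrix.det_permute` (rows permuted). `phi_eq_zero_of_eq`: two equal rows
(`Matrix.det_zero_of_row_eq`). `phi_eq_zero_of_neg`: a zero row (`Matrix.det_eq_zero_of_row_eq_zero`), the same if
`N ≤ l i`. `phi_id`: identity matrix. `exists_perm`: if `phi l ≠ 0` then all `l i ∈ [0, N)` and `l` is injective, so `l`
comes from an injective, hence bijective, map `Fin N → Fin N`; then `phi l = sign` by `phi_perm`, `phi_id`.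
`phi_mono`: a strictly monotone bijection of `Fin N` is the identity.
`CL_perm`, `CL_eq_zero_of_eq`, `CL_eq_zero_of_neg`, `CL_sum`: induction on the list (for `_of_eq`: `CL_perm` with the
transposition of `i` and `j`, which fixes `l`, gives `2 CL L l = 0`; for `_of_neg`: `low` keeps the entry negative;
for `CL_sum`: `∑_j low l i m j = ∑_j l j - m`; the conclusion is stated contrapositively).
`CL_replicate`: induction on `n`: `FF (n+1) l = ∑_i FF n (low l i 1)`, by `Fin.consEquiv` / `Fin.consFunEquiv`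
(`Fintype.sum_equiv`, a function on `Fin (n+1)` is its value at `0` and its restriction; `cont` of `Fin.cons i f` is
`cont f` plus one at `i`). `CL_append`: induction on the first list.
-/

set_option autoImplicit false

namespace Pool.Agent.Helper24.AN

open Finset

theorem phi_perm {N : ℕ} (l : Fin N → ℤ) (σ : Equiv.Perm (Fin N)) :
    phi (fun i => l (σ i)) = ((Equiv.Perm.sign σ : ℤˣ) : ℤ) * phi l := by
  unfold phi
  have h := Matrix.det_permute σ (Matrix.of fun i j : Fin N => if l i = (j : ℤ) then (1 : ℤ) else 0)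
  exact h

theorem phi_eq_zero_of_eq {N : ℕ} (l : Fin N → ℤ) {i j : Fin N} (hij : i ≠ j) (h : l i = l j) : phi l = 0 := by
  unfold phi
  refine Matrix.det_zero_of_row_eq hij ?_
  funext k
  simp only [Matrix.of_apply, h]

theorem phi_eq_zero_of_neg {N : ℕ} (l : Fin N → ℤ) {i : Fin N} (h : l i < 0) : phi l = 0 := by
  unfold phi
  refine Matrix.det_eq_zero_of_row_eq_zero i fun j => ?_
  rw [Matrix.of_apply, if_neg]
  intro h1
  omega

private theorem phi_eq_zero_of_ge {N : ℕ} (l : Fin N → ℤ) {i : Fin N} (h : (N : ℤ) ≤ l i) :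
    phi l = 0 := by
  unfold phi
  refine Matrix.det_eq_zero_of_row_eq_zero i fun j => ?_
  rw [Matrix.of_apply, if_neg]
  intro h1
  have := j.2
  omega

theorem phi_id (N : ℕ) : phi (fun i : Fin N => (i : ℤ)) = 1 := by
  unfold phi
  have h : (Matrix.of fun i j : Fin N => if ((i : ℕ) : ℤ) = ((j : ℕ) : ℤ) then (1 : ℤ) else 0) = 1 := by
    ext i j
    rw [Matrix.of_apply, Matrix.one_apply]
    by_cases hij : i = j
    · rw [if_pos hij, if_pos (by rw [hij])]
    · rw [if_neg hij, if_neg]
      intro h1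
      exact hij (Fin.ext (by exact_mod_cast h1))
  rw [h, Matrix.det_one]

theorem exists_perm {N : ℕ} (l : Fin N → ℤ) (h : phi l ≠ 0) :
    ∃ σ : Equiv.Perm (Fin N), (∀ i, l i = ((σ i : Fin N) : ℤ)) ∧ phi l = ((Equiv.Perm.sign σ : ℤˣ) : ℤ) := by
  have h0 : ∀ i, 0 ≤ l i := fun i => by
    by_contra h1
    exact h (phi_eq_zero_of_neg l (not_le.1 h1))
  have hN : ∀ i, l i < N := fun i => by
    by_contra h1
    exact h (phi_eq_zero_of_ge l (not_lt.1 h1))
  let f : Fin N → Fin N := fun i => ⟨(l i).toNat, by have := h0 i; have := hN i; omega⟩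
  have hf : ∀ i, l i = ((f i : Fin N) : ℤ) := fun i => by
    change l i = (((l i).toNat : ℕ) : ℤ)
    have := h0 i
    omega
  have hinj : Function.Injective f := by
    intro i j hij
    by_contra hne
    exact h (phi_eq_zero_of_eq l hne (by rw [hf i, hf j, hij]))
  have hbij : Function.Bijective f := (Finite.injective_iff_bijective).1 hinj
  refine ⟨Equiv.ofBijective f hbij, hf, ?_⟩
  have h1 : l = fun i => (fun j : Fin N => ((j : ℕ) : ℤ)) (Equiv.ofBijective f hbij i) := by
    funext i
    exact hf i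
  conv_lhs => rw [h1]
  rw [phi_perm (fun j : Fin N => ((j : ℕ) : ℤ)) (Equiv.ofBijective f hbij), phi_id, mul_one]

theorem phi_mono {N : ℕ} (l : Fin N → ℤ) (hl : StrictMono l) (h : phi l ≠ 0) : ∀ i, l i = (i : ℤ) := by
  obtain ⟨σ, hσ, -⟩ := exists_perm l h
  have h1 : StrictMono (σ : Fin N → Fin N) := by
    intro i j hij
    have h2 := hl hij
    rw [hσ i, hσ j] at h2
    exact_mod_cast h2
  have h3 : (σ : Fin N → Fin N) = id :=
    (StrictMono.range_inj h1 strictMono_id).1 (by rw [σ.surjective.range_eq, Set.range_id])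
  intro i
  rw [hσ i, h3]
  rfl

private theorem low_perm {N : ℕ} (l : Fin N → ℤ) (σ : Equiv.Perm (Fin N)) (i : Fin N) (m : ℕ) :
    low (fun j => l (σ j)) i m = fun j => low l (σ i) m (σ j) := by
  funext j
  unfold low
  by_cases h : j = i
  · rw [if_pos h, if_pos (by rw [h])]
  · rw [if_neg h, if_neg (fun h1 => h (σ.injective h1))]

theorem CL_perm {N : ℕ} (L : List ℕ) (l : Fin N → ℤ) (σ : Equiv.Perm (Fin N)) :
    CL L (fun i => l (σ i)) = ((Equiv.Perm.sign σ : ℤˣ) : ℤ) * CL L l := by
  induction L generalizing l with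
  | nil => exact phi_perm l σ
  | cons m L ih =>
    change ∑ i, CL L (low (fun j => l (σ j)) i m) = _ * ∑ i, CL L (low l i m)
    rw [Finset.mul_sum, ← Equiv.sum_comp σ (fun i => ((Equiv.Perm.sign σ : ℤˣ) : ℤ) * CL L (low l i m))]
    refine Finset.sum_congr rfl fun i _ => ?_
    rw [low_perm, ih (low l (σ i) m)]

theorem CL_eq_zero_of_eq {N : ℕ} (L : List ℕ) (l : Fin N → ℤ) {i j : Fin N} (hij : i ≠ j) (h : l i = l j) :
    CL L l = 0 := by
  have h1 := CL_perm L l (Equiv.swap i j)
  have h2 : (fun k => l (Equiv.swap i j k)) = l := by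
    funext k
    by_cases hk : k = i
    · rw [hk, Equiv.swap_apply_left, h]
    · by_cases hk' : k = j
      · rw [hk', Equiv.swap_apply_right, h]
      · rw [Equiv.swap_apply_of_ne_of_ne hk hk']
  rw [h2, Equiv.Perm.sign_swap hij] at h1
  simp only [Units.val_neg, Units.val_one, neg_mul, one_mul] at h1
  omega

theorem CL_eq_zero_of_neg {N : ℕ} (L : List ℕ) (l : Fin N → ℤ) {i : Fin N} (h : l i < 0) : CL L l = 0 := by
  induction L generalizing l with
  | nil => exact phi_eq_zero_of_neg l h
  | cons m L ih =>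
    change ∑ k, CL L (low l k m) = 0
    refine Finset.sum_eq_zero fun k _ => ih (low l k m) ?_
    unfold low
    split_ifs
    · omega
    · omega

private theorem sum_low {N : ℕ} (l : Fin N → ℤ) (i : Fin N) (m : ℕ) :
    ∑ j, low l i m j = ∑ j, l j - m := by
  unfold low
  rw [Finset.sum_sub_distrib]
  simp

theorem CL_sum {N : ℕ} (L : List ℕ) (l : Fin N → ℤ) (h : CL L l ≠ 0) :
    ∑ i, l i = (L.sum : ℤ) + ∑ i : Fin N, (i : ℤ) := by
  induction L generalizing l with
  | nil =>
    obtain ⟨σ, hσ, -⟩ := exists_perm l h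
    rw [Finset.sum_congr rfl fun i _ => hσ i, Equiv.sum_comp σ (fun i : Fin N => ((i : ℕ) : ℤ))]
    simp
  | cons m L ih =>
    change ∑ k, CL L (low l k m) ≠ 0 at h
    obtain ⟨k, -, hk⟩ := Finset.exists_ne_zero_of_sum_ne_zero h
    have h1 := ih (low l k m) hk
    rw [sum_low] at h1
    rw [List.sum_cons]
    push_cast at h1 ⊢
    linarith

private theorem cont_cons {N n : ℕ} (i : Fin N) (f : Fin n → Fin N) (j : Fin N) :
    cont (Fin.cons i f : Fin (n + 1) → Fin N) j = (if j = i then 1 else 0) + cont f j := by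
  unfold cont
  rw [Finset.card_filter, Finset.card_filter]
  push_cast
  rw [Fin.sum_univ_succ]
  simp only [Fin.cons_zero, Fin.cons_succ]
  congr 1
  simp only [eq_comm]

private theorem sum_cont_zero {N : ℕ} (F : (Fin N → ℤ) → ℤ) (l : Fin N → ℤ) :
    ∑ f : Fin 0 → Fin N, F (fun j => l j - cont f j) = F l := by
  rw [Fintype.sum_unique]
  congr 1
  funext j
  unfold cont
  simp

private theorem sum_cont_succ {N n : ℕ} (F : (Fin N → ℤ) → ℤ) (l : Fin N → ℤ) :
    ∑ f : Fin (n + 1) → Fin N, F (fun j => l j - cont f j) =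
      ∑ i, ∑ f : Fin n → Fin N, F (fun j => low l i 1 j - cont f j) := by
  rw [← (Fin.consEquiv (fun _ : Fin (n + 1) => Fin N)).sum_comp, Fintype.sum_prod_type]
  refine Finset.sum_congr rfl fun i _ => Finset.sum_congr rfl fun f _ => ?_
  congr 1
  funext j
  have h := cont_cons i f j
  change l j - cont (Fin.cons i f : Fin (n + 1) → Fin N) j = _
  rw [h]
  unfold low
  push_cast
  ring

theorem FF_succ {N : ℕ} (n : ℕ) (l : Fin N → ℤ) : FF (n + 1) l = ∑ i, FF n (low l i 1) :=
  sum_cont_succ phi l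

theorem FF_zero {N : ℕ} (l : Fin N → ℤ) : FF 0 l = phi l := sum_cont_zero phi l

theorem CL_replicate {N : ℕ} (n : ℕ) (l : Fin N → ℤ) : CL (List.replicate n 1) l = FF n l := by
  induction n generalizing l with
  | zero => exact (FF_zero l).symm
  | succ n ih =>
    rw [List.replicate_succ, FF_succ]
    change ∑ i, CL (List.replicate n 1) (low l i 1) = _
    exact Finset.sum_congr rfl fun i _ => ih (low l i 1)

theorem CL_append {N : ℕ} (L : List ℕ) (n : ℕ) (l : Fin N → ℤ) :
    CL (List.replicate n 1 ++ L) l = ∑ f : Fin n → Fin N, CL L (fun i => l i - cont f i) := by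
  induction n generalizing l with
  | zero =>
    rw [sum_cont_zero (CL L) l]
    rfl
  | succ n ih =>
    rw [sum_cont_succ (CL L) l, List.replicate_succ, List.cons_append]
    change ∑ i, CL (List.replicate n 1 ++ L) (low l i 1) = _
    exact Finset.sum_congr rfl fun i _ => ih (low l i 1)

end Pool.Agent.Helper24.AN
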