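import Pool.Agent.Helper24.AN.LCyc
import Pool.Agent.Helper24.AN.LPhi

/-!
L18 Orb: the character value as an iterated sum over the cycles.

PROOFS. `chi_eq_sum`: a colouring `f` with `f (σ a) = f a` for all `a` is constant on cycles (`f (σ ^ z a) = f a` for `z : ℤ`), so it is
`g ∘ q` for a unique `g : Fin k → Fin N` (`q` surjective); and `g ∘ q` is invariant. So `g ↦ g ∘ q` is a bijection from all `g` onto the
invariant `f` (`Finset.sum_filter`, `Finset.sum_bij`/`Finset.sum_nbij'` or `Finset.sum_equiv`), and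
`cont (g ∘ q) i = ∑_j if g j = i then #(fibre of j) else 0` (`Finset.card_eq_sum_card_fiberwise`).
`CL_ofFn`: induction on `k` (`List.ofFn_succ`, `Fin.consEquiv`/`Fin.consFunEquiv`, `Fin.sum_univ_succ`), as for
`CL_replicate`: `CL (m 0 :: L) l = ∑_i CL L (low l i (m 0))`, and the induction hypothesis for `low l i (m 0)`; the functions
`g = Fin.cons i g'`.
`exists_cycles`: combine, `L = List.ofFn (fun j => #(fibre of j))`; the fibres are not empty; `List.map_ofFn`,
`List.prod_ofFn`.
-/

set_option autoImplicit false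

namespace Pool.Agent.Helper24.AN

open Finset

private theorem inv_zpow {N n : ℕ} (f : Fin n → Fin N) (σ : Equiv.Perm (Fin n))
    (hf : ∀ a, f (σ a) = f a) (z : ℤ) (a : Fin n) : f ((σ ^ z) a) = f a := by
  have hnat : ∀ (m : ℕ) (a : Fin n), f ((σ ^ m) a) = f a := by
    intro m
    induction m with
    | zero => intro a; rfl
    | succ m ih =>
      intro a
      rw [pow_succ', Equiv.Perm.mul_apply, hf, ih]
  obtain ⟨m, rfl | rfl⟩ := Int.eq_nat_or_neg z
  · rw [zpow_natCast]
    exact hnat m a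
  · rw [zpow_neg, zpow_natCast]
    have h := hnat m ((σ ^ m)⁻¹ a)
    have h2 : (σ ^ m) ((σ ^ m)⁻¹ a) = a := by
      rw [← Equiv.Perm.mul_apply, mul_inv_cancel, Equiv.Perm.one_apply]
    rw [h2] at h
    exact h.symm

private theorem cont_comp {N n k : ℕ} (q : Fin n → Fin k) (g : Fin k → Fin N) (i : Fin N) :
    cont (g ∘ q) i =
      ∑ j, if g j = i then ((univ.filter fun a => q a = j).card : ℤ) else 0 := by
  unfold cont
  rw [Finset.card_eq_sum_card_fiberwise (f := q) (t := (univ : Finset (Fin k)))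
    (fun a _ => by simp)]
  push_cast
  refine Finset.sum_congr rfl fun j _ => ?_
  by_cases h : g j = i
  · rw [if_pos h]
    congr 2
    ext a
    simp only [Finset.mem_filter, Finset.mem_univ, true_and, Function.comp_apply]
    constructor
    · intro h1
      exact h1.2
    · intro h1
      exact ⟨by rw [h1, h], h1⟩
  · rw [if_neg h, Finset.card_eq_zero.2, Nat.cast_zero]
    ext a
    simp only [Finset.mem_filter, Finset.mem_univ, true_and, Function.comp_apply,
      Finset.notMem_empty, iff_false]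
    rintro ⟨h1, h2⟩
    exact h (by rw [← h2, h1])

theorem chi_eq_sum {N n k : ℕ} (l : Fin N → ℤ) (σ : Equiv.Perm (Fin n)) (q : Fin n → Fin k)
    (hq : Function.Surjective q) (hs : ∀ a b, q a = q b ↔ σ.SameCycle a b) :
    chi l σ = ∑ g : Fin k → Fin N,
      phi fun i => l i - ∑ j, if g j = i then ((univ.filter fun a => q a = j).card : ℤ) else 0 := by
  unfold chi
  rw [← Finset.sum_filter]
  symm
  refine Finset.sum_bij (fun g _ => g ∘ q) ?_ ?_ ?_ ?_
  · intro g _
    rw [Finset.mem_filter]
    refine ⟨Finset.mem_univ _, fun a => ?_⟩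
    show g (q (σ a)) = g (q a)
    congr 1
    exact (hs _ _).2 (Equiv.Perm.SameCycle.symm ⟨1, by rw [zpow_one]⟩)
  · intro g _ g' _ h
    funext j
    obtain ⟨a, rfl⟩ := hq j
    exact congrFun h a
  · intro f hf
    rw [Finset.mem_filter] at hf
    refine ⟨fun j => f (Function.surjInv hq j), Finset.mem_univ _, ?_⟩
    funext a
    show f (Function.surjInv hq (q a)) = f a
    have h1 : q (Function.surjInv hq (q a)) = q a := Function.surjInv_eq hq (q a)
    obtain ⟨z, hz⟩ := (hs _ _).1 h1
    exact (inv_zpow f σ hf.2 z _).symm.trans (congrArg f hz)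
  · intro g _
    congr 1
    funext i
    rw [cont_comp]

theorem CL_ofFn {N k : ℕ} (m : Fin k → ℕ) (l : Fin N → ℤ) :
    CL (List.ofFn m) l = ∑ g : Fin k → Fin N, phi fun i => l i - ∑ j, if g j = i then (m j : ℤ) else 0 := by
  induction k generalizing l with
  | zero =>
    rw [List.ofFn_zero, Fintype.sum_unique]
    change phi l = _
    congr 1
    funext i
    simp
  | succ k ih =>
    rw [List.ofFn_succ]
    change ∑ i, CL (List.ofFn fun j => m j.succ) (low l i (m 0)) = _
    rw [← (Fin.consEquiv (fun _ : Fin (k + 1) => Fin N)).sum_comp, Fintype.sum_prod_type]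
    refine Finset.sum_congr rfl fun i _ => ?_
    rw [ih]
    refine Finset.sum_congr rfl fun g _ => ?_
    congr 1
    funext i'
    change low l i (m 0) i' - _ = l i' - ∑ j, if (Fin.cons i g : Fin (k + 1) → Fin N) j = i' then
      (m j : ℤ) else 0
    rw [Fin.sum_univ_succ]
    simp only [Fin.cons_zero, Fin.cons_succ]
    unfold low
    have h : (if i' = i then (m 0 : ℤ) else 0) = if i = i' then (m 0 : ℤ) else 0 := by
      simp only [eq_comm]
    rw [h]
    ring

theorem exists_cycles {n : ℕ} (σ : Equiv.Perm (Fin n)) :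
    ∃ L : List ℕ, (∀ m ∈ L, 1 ≤ m) ∧
      (L.map fun m => (-1 : ℤ) ^ (m + 1)).prod = ((Equiv.Perm.sign σ : ℤˣ) : ℤ) ∧
      ∀ (N : ℕ) (l : Fin N → ℤ), chi l σ = CL L l := by
  obtain ⟨k, q, hq, hs, hsgn⟩ := exists_orbits σ
  refine ⟨List.ofFn fun j => (univ.filter fun a => q a = j).card, ?_, ?_, ?_⟩
  · intro m hm
    rw [List.mem_ofFn] at hm
    obtain ⟨j, rfl⟩ := hm
    obtain ⟨a, ha⟩ := hq j
    exact Finset.card_pos.2 ⟨a, Finset.mem_filter.2 ⟨Finset.mem_univ _, ha⟩⟩
  · rw [List.map_ofFn, List.prod_ofFn, ← hsgn]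
    rfl
  · intro N l
    rw [chi_eq_sum l σ q hq hs, CL_ofFn]

end Pool.Agent.Helper24.AN
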