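import Pool.Agent.Helper24.AN.MDefs

/-!
M06 Conj: the Murnaghan-Nakayama sum of the conjugate.

PROOF. Induction on `L`. `[]`: `Maya.size_conj`. `m :: L`: `x' = m - 1 - x` is a bijection between
`{x | x ∈ M.s, x - m ∉ M.s}` and `{x' | x' ∈ M.conj.s, x' - m ∉ M.conj.s}` (`x' ∈ M.conj.s` iff `-1 - x' = x - m ∉ M.s`;
`x' - m ∈ M.conj.s` iff `-1 - x' + m = x ∉ M.s`). `move M.conj x' m = (move M x m).conj` (`maya_ext`; membership of `y` in the left
side: `(-1 - y ∉ M.s and y ≠ x')` or `y = x' - m`; in the right side: not `((-1 - y ∈ M.s and -1 - y ≠ x) or -1 - y = x - m)`;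
note `-1 - y = x - m` iff `y = x'`, and `-1 - y = x` iff `y = x' - m`). The number of beads of `M.conj` strictly between
`x' - m` and `x'` is the number of holes of `M` strictly between `x - m` and `x` (`y' ↦ -1 - y'`), i.e. `m - 1` minus the number of
beads of `M` there. So the signs differ by `(-1) ^ (m - 1) = (-1) ^ (m + 1)`. Change of variables in the finsum:
`finsum_mem_eq_of_bijOn` or `finsum_mem_image`; factor out with `mul_finsum_mem` (the sets are finite: `x < N`, `x ≥ ...`), or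
prove finiteness and use finset sums.
-/

set_option autoImplicit false

namespace Pool.Agent.Helper24.AN

open Finset
open Pool.Agent.Helper81.AN

private theorem mem_conj (M : Maya) (x : ℤ) : x ∈ M.conj.s ↔ -1 - x ∉ M.s := Iff.rfl

private theorem move_conj (M : Maya) (x : ℤ) (m : ℕ) (h1 : x ∈ M.s) (h2 : x - (m : ℤ) ∉ M.s) :
    (move M x m).conj = move M.conj ((m : ℤ) - 1 - x) m := by
  refine maya_ext fun y => ?_
  rw [mem_conj]
  change ¬ ((-1 - y ∈ M.s ∧ -1 - y ≠ x) ∨ -1 - y = x - (m : ℤ)) ↔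
    ((-1 - y ∉ M.s ∧ y ≠ (m : ℤ) - 1 - x) ∨ y = (m : ℤ) - 1 - x - (m : ℤ))
  constructor
  · intro h
    push Not at h
    by_cases hy : -1 - y ∈ M.s
    · right
      have h3 := h.1 hy
      omega
    · left
      refine ⟨hy, fun h4 => h.2 (by omega)⟩
  · rintro (⟨h3, h4⟩ | h3)
    · rintro (⟨h5, -⟩ | h5)
      · exact h3 h5
      · exact h4 (by omega)
    · have h4 : -1 - y = x := by omega
      rintro (⟨-, h5⟩ | h5)
      · exact h5 h4
      · have h6 : x - (m : ℤ) = x := by omega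
        rw [h6] at h2
        exact h2 h1

private theorem sign_conj (M : Maya) (x : ℤ) (m : ℕ) (hm : 1 ≤ m) :
    ((-1 : ℤ)) ^ (Set.ncard {y : ℤ | y ∈ M.conj.s ∧ ((m : ℤ) - 1 - x) - (m : ℤ) < y ∧
      y < (m : ℤ) - 1 - x}) =
      (-1 : ℤ) ^ (m + 1) * (-1) ^ (Set.ncard {y : ℤ | y ∈ M.s ∧ x - (m : ℤ) < y ∧ y < x}) := by
  have h1 : Set.ncard {y : ℤ | y ∈ M.conj.s ∧ ((m : ℤ) - 1 - x) - (m : ℤ) < y ∧
      y < (m : ℤ) - 1 - x} = Set.ncard {y : ℤ | y ∉ M.s ∧ x - (m : ℤ) < y ∧ y < x} := by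
    refine Set.ncard_congr (fun y _ => -1 - y) ?_ ?_ ?_
    · rintro y ⟨h3, h4, h5⟩
      exact ⟨h3, by omega, by omega⟩
    · intro y y' _ _ h
      omega
    · rintro y ⟨h3, h4, h5⟩
      refine ⟨-1 - y, ⟨?_, by omega, by omega⟩, by omega⟩
      rw [mem_conj, sub_sub_cancel]
      exact h3
  have hfin : (Set.Ioo (x - (m : ℤ)) x).Finite := Set.finite_Ioo _ _
  have h2 : Set.ncard {y : ℤ | y ∈ M.s ∧ x - (m : ℤ) < y ∧ y < x} +
      Set.ncard {y : ℤ | y ∉ M.s ∧ x - (m : ℤ) < y ∧ y < x} = m - 1 := by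
    rw [← Set.ncard_union_eq (by
      rw [Set.disjoint_left]
      rintro y ⟨h3, -⟩ ⟨h4, -⟩
      exact h4 h3) (hfin.subset fun y hy => hy.2) (hfin.subset fun y hy => hy.2)]
    · have h3 : {y : ℤ | y ∈ M.s ∧ x - (m : ℤ) < y ∧ y < x} ∪
          {y : ℤ | y ∉ M.s ∧ x - (m : ℤ) < y ∧ y < x} = Set.Ioo (x - (m : ℤ)) x := by
        ext y
        simp only [Set.mem_union, Set.mem_ofPred_eq, Set.mem_Ioo]
        tauto
      rw [h3, ← Finset.coe_Ioo, Set.ncard_coe_finset, Int.card_Ioo]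
      omega
  rw [h1]
  set a := Set.ncard {y : ℤ | y ∈ M.s ∧ x - (m : ℤ) < y ∧ y < x}
  set b := Set.ncard {y : ℤ | y ∉ M.s ∧ x - (m : ℤ) < y ∧ y < x}
  have h3 : m + 1 + a = b + 2 * (a + 1) := by omega
  rw [← pow_add, h3, pow_add, pow_mul]
  norm_num

theorem mn_conj (L : List ℕ) (hL : ∀ m ∈ L, 1 ≤ m) (M : Maya) :
    mn L M.conj = (L.map fun m => (-1 : ℤ) ^ (m + 1)).prod * mn L M := by
  induction L generalizing M with
  | nil =>
    change (if M.conj.size = 0 then (1 : ℤ) else 0) = _ * (if M.size = 0 then (1 : ℤ) else 0)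
    rw [Maya.size_conj]
    simp
  | cons m L ih =>
    have hm : 1 ≤ m := hL m (by simp)
    have ih' := ih (fun k hk => hL k (by simp [hk]))
    rw [List.map_cons, List.prod_cons]
    change (∑ᶠ x ∈ {x : ℤ | x ∈ M.conj.s ∧ x - (m : ℤ) ∉ M.conj.s},
      (-1) ^ (Set.ncard {y : ℤ | y ∈ M.conj.s ∧ x - (m : ℤ) < y ∧ y < x}) *
        mn L (move M.conj x m)) = _ * ∑ᶠ x ∈ {x : ℤ | x ∈ M.s ∧ x - (m : ℤ) ∉ M.s},
      (-1) ^ (Set.ncard {y : ℤ | y ∈ M.s ∧ x - (m : ℤ) < y ∧ y < x}) * mn L (move M x m)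
    rw [mul_finsum_mem]
    symm
    refine finsum_mem_eq_of_bijOn (fun x => (m : ℤ) - 1 - x) ⟨?_, ?_, ?_⟩ ?_
    · rintro x ⟨h1, h2⟩
      refine ⟨?_, ?_⟩
      · rw [mem_conj]
        have h3 : -1 - ((m : ℤ) - 1 - x) = x - m := by ring
        rw [h3]
        exact h2
      · rw [mem_conj]
        have h3 : -1 - ((m : ℤ) - 1 - x - m) = x := by ring
        rw [h3, not_not]
        exact h1
    · intro x _ x' _ h
      simp only at h
      omega
    · rintro x ⟨h1, h2⟩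
      rw [mem_conj] at h1 h2
      rw [not_not] at h2
      refine ⟨(m : ℤ) - 1 - x, ⟨?_, ?_⟩, by simp only; ring⟩
      · have h3 : -1 - (x - (m : ℤ)) = (m : ℤ) - 1 - x := by ring
        rw [← h3]
        exact h2
      · have h3 : (m : ℤ) - 1 - x - m = -1 - x := by ring
        rw [h3]
        exact h1
    · rintro x ⟨h1, h2⟩
      rw [sign_conj M x m hm, ← move_conj M x m h1 h2, ih']
      ring

end Pool.Agent.Helper24.AN
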