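import Pool.Agent.Helper24.AN.MSize

/-!
M03 Ex: every Maya diagram is a `mayaL`; partitions of `n` correspond to the beta sequences of length `n`.

PROOFS. `exists_mayaL_of`: let `S` be the finset of the beads `≥ -K` (`finite_beads`), it has `charge + K` elements by
`charge_cut` (no holes below `-K`); `l` = the increasing enumeration of `S` (`Finset.orderEmbOfFin`) plus `K`.
`exists_mayaL`: take `K0 = -N` with `N` from `M.low`.
`exists_mayaL_size`: by `exists_mayaL_of` with `K = n` it is enough that there is no hole `x < -n`: otherwise the number of beads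
`≥ -n` is `charge + n + #holes below -n ≥ n + 1` (`charge_cut`), and each such bead `y` gives the inversion `(x, y)`, so
`size ≥ n + 1`, contradiction (`Set.ncard_le_ncard` with the injection `y ↦ (x, y)`, `finite_inv`). `N = n` as `charge = 0` (`subst`);
`IsB n l` by `size_mayaL`.
`mayaL_inj`: the ranges of `l` and `l'` are equal (`x + K ≥ 0` part), and a strictly monotone map on `Fin N` is determined
by its range (`StrictMono.range_inj`-type lemma, or `Fin.strictMono_unique`).
`exists_par_equiv`: `Equiv.ofBijective` of `l ↦ mayaL n l` (charge `0` by `charge_mayaL`, size `n` by `size_mayaL`).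
-/

set_option autoImplicit false

namespace Pool.Agent.Helper24.AN

open Finset
open Pool.Agent.Helper81.AN

theorem exists_mayaL_of (M : Maya) (K : ℤ) (hK : ∀ x < -K, x ∈ M.s) :
    ∃ (N : ℕ) (l : Fin N → ℤ), (N : ℤ) = M.charge + K ∧ StrictMono l ∧ (∀ i, 0 ≤ l i) ∧ mayaL K l = M := by
  classical
  set S : Finset ℤ := (finite_beads M (-K)).toFinset with hS
  have hmem : ∀ x, x ∈ S ↔ -K ≤ x ∧ x ∈ M.s := by
    intro x
    rw [hS, Set.Finite.mem_toFinset]
    rfl
  have hcard : (S.card : ℤ) = M.charge + K := by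
    have h := charge_cut M (-K)
    have h1 : {x : ℤ | x < -K ∧ x ∉ M.s} = ∅ :=
      Set.eq_empty_of_forall_notMem fun x hx => hx.2 (hK x hx.1)
    rw [h1, Set.ncard_empty, Set.ncard_eq_toFinset_card _ (finite_beads M (-K))] at h
    push_cast at h
    linarith
  have hemb : ∀ i, S.orderEmbOfFin rfl i ∈ S := fun i => S.orderEmbOfFin_mem rfl i
  refine ⟨S.card, fun i => S.orderEmbOfFin rfl i + K, hcard, ?_, ?_, ?_⟩
  · intro i j hij
    have := (S.orderEmbOfFin rfl).strictMono hij
    simp only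
    omega
  · intro i
    have := ((hmem _).1 (hemb i)).1
    simp only
    omega
  · refine maya_ext fun x => ?_
    change (x < -K ∨ ∃ i, x + K = S.orderEmbOfFin rfl i + K) ↔ x ∈ M.s
    constructor
    · rintro (h | ⟨i, hi⟩)
      · exact hK x h
      · have h1 : x = S.orderEmbOfFin rfl i := by omega
        rw [h1]
        exact ((hmem _).1 (hemb i)).2
    · intro hx
      by_cases hlt : x < -K
      · exact Or.inl hlt
      · right
        have h1 : x ∈ S := (hmem x).2 ⟨not_lt.1 hlt, hx⟩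
        have h2 : x ∈ Set.range (S.orderEmbOfFin rfl) := by
          rw [Finset.range_orderEmbOfFin]
          exact h1
        obtain ⟨i, hi⟩ := h2
        exact ⟨i, by rw [hi]⟩

theorem exists_mayaL (M : Maya) :
    ∃ K0 : ℤ, ∀ K : ℤ, K0 ≤ K → ∃ (N : ℕ) (l : Fin N → ℤ), (N : ℤ) = M.charge + K ∧ StrictMono l ∧
      (∀ i, 0 ≤ l i) ∧ mayaL K l = M := by
  obtain ⟨N, hN⟩ := M.low
  exact ⟨-N, fun K hK => exists_mayaL_of M K fun x hx => hN x (by omega)⟩

theorem exists_mayaL_size (M : Maya) (n : ℕ) (hc : M.charge = 0) (hs : M.size = n) :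
    ∃ l : Fin n → ℤ, IsB n l ∧ mayaL n l = M := by
  have hno : ∀ x < -(n : ℤ), x ∈ M.s := by
    intro x hx
    by_contra hxs
    have h := charge_cut M (-(n : ℤ))
    have h1 : 0 < Set.ncard {y : ℤ | y < -(n : ℤ) ∧ y ∉ M.s} :=
      (Set.ncard_pos (finite_holes M _)).2 ⟨x, hx, hxs⟩
    have h2 : Set.ncard {y : ℤ | -(n : ℤ) ≤ y ∧ y ∈ M.s} ≤ M.size := by
      unfold Maya.size
      rw [← Set.ncard_image_of_injective (f := fun y : ℤ => ((x, y) : ℤ × ℤ))
        {y : ℤ | -(n : ℤ) ≤ y ∧ y ∈ M.s} (fun a b hab => (Prod.mk.injEq _ _ _ _ ▸ hab).2)]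
      refine Set.ncard_le_ncard ?_ (finite_inv M)
      rintro q ⟨y, hy, rfl⟩
      exact ⟨lt_of_lt_of_le hx hy.1, hxs, hy.2⟩
    rw [hs] at h2
    rw [hc] at h
    omega
  obtain ⟨N, l, hN, hl, h0, hM⟩ := exists_mayaL_of M n hno
  rw [hc, zero_add] at hN
  have hN' : N = n := by exact_mod_cast hN
  subst hN'
  refine ⟨l, ⟨hl, h0, ?_⟩, hM⟩
  have h1 := size_mayaL (N : ℤ) l hl.injective h0
  rw [hM, hs] at h1
  exact h1.symm

theorem mayaL_inj {N : ℕ} (K : ℤ) (l l' : Fin N → ℤ) (hl : StrictMono l) (hl' : StrictMono l')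
    (h0 : ∀ i, 0 ≤ l i) (h0' : ∀ i, 0 ≤ l' i) (h : mayaL K l = mayaL K l') : l = l' := by
  have key : ∀ (u v : Fin N → ℤ), (∀ i, 0 ≤ u i) → mayaL K u = mayaL K v →
      Set.range u ⊆ Set.range v := by
    rintro u v hu huv _ ⟨i, rfl⟩
    have h1 : u i - K ∈ (mayaL K u).s := Or.inr ⟨i, sub_add_cancel _ _⟩
    rw [huv] at h1
    rcases h1 with h2 | ⟨j, hj⟩
    · have := hu i
      omega
    · rw [sub_add_cancel] at hj
      exact ⟨j, hj.symm⟩
  exact (StrictMono.range_inj hl hl').1
    (Set.Subset.antisymm (key l l' h0 h) (key l' l h0' h.symm))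

theorem exists_par_equiv (n : ℕ) :
    ∃ e : {l : Fin n → ℤ // IsB n l} ≃ Par n, ∀ l, (e l).1.1 = mayaL n l.1 := by
  have hch : ∀ l : {l : Fin n → ℤ // IsB n l}, (mayaL n l.1).charge = 0 := by
    intro l
    rw [charge_mayaL (n : ℤ) l.1 l.2.mono.injective l.2.nn, sub_self]
  have hsz : ∀ l : {l : Fin n → ℤ // IsB n l}, (mayaL n l.1).size = n := by
    intro l
    have h1 := size_mayaL (n : ℤ) l.1 l.2.mono.injective l.2.nn
    rw [l.2.sum] at h1
    have h2 : ((mayaL n l.1).size : ℤ) = n := by linarith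
    exact_mod_cast h2
  let F : {l : Fin n → ℤ // IsB n l} → Par n := fun l => ⟨⟨mayaL n l.1, hch l⟩, hsz l⟩
  have hF : Function.Bijective F := by
    constructor
    · intro l l' h
      have h1 : mayaL (n : ℤ) l.1 = mayaL n l'.1 := congrArg (fun t : Par n => t.1.1) h
      exact Subtype.ext (mayaL_inj n l.1 l'.1 l.2.mono l'.2.mono l.2.nn l'.2.nn h1)
    · intro M
      obtain ⟨l, hl, hM⟩ := exists_mayaL_size M.1.1 n M.1.2 M.2
      exact ⟨⟨l, hl⟩, Subtype.ext (Subtype.ext hM)⟩
  exact ⟨Equiv.ofBijective F hF, fun l => rfl⟩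

end Pool.Agent.Helper24.AN
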