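import Pool.Agent.Helper24.AN.LPhi

/-!
L10 Class: elementary properties of `chi`.

PROOFS. `chi_conj`: reindex the sum by `f ↦ f ∘ τ` (`Equiv.arrowCongr τ (Equiv.refl _)` or
`Fintype.sum_equiv`, `Fintype.sum_bijective`); `f ∘ τ` is invariant under `σ` iff `f` is invariant under `τ σ τ⁻¹`, and
`cont (f ∘ τ) = cont f` (`Finset.card_bij` / `Finset.card_equiv`). `chi_inv`: `f (σ⁻¹ a) = f a` for all `a` iff `f (σ a) = f a` for all
`a` (replace `a` by `σ a`). `chi_one`: the condition is true. `chi_perm`: `cont` does not see `l`; write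
`l (τ i) - cont f i = (l - cont (τ ∘ f)) (τ i)`, use `phi_perm`, and reindex by `f ↦ τ ∘ f` (invariance is kept, `τ` being injective).
-/

set_option autoImplicit false

namespace Pool.Agent.Helper24.AN

open Finset

private theorem inv_self {n : ℕ} (τ : Equiv.Perm (Fin n)) (a : Fin n) : τ⁻¹ (τ a) = a :=
  τ.symm_apply_apply a

private theorem self_inv {n : ℕ} (τ : Equiv.Perm (Fin n)) (a : Fin n) : τ (τ⁻¹ a) = a :=
  τ.apply_symm_apply a

private theorem cont_comp {N n : ℕ} (f : Fin n → Fin N) (τ : Equiv.Perm (Fin n)) (i : Fin N) :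
    cont (fun a => f (τ a)) i = cont f i := by
  unfold cont
  congr 1
  refine Finset.card_bij (fun a _ => τ a) ?_ ?_ ?_
  · intro a ha
    rw [Finset.mem_filter] at ha ⊢
    exact ⟨Finset.mem_univ _, ha.2⟩
  · intro a _ b _ hab
    exact τ.injective hab
  · intro b hb
    rw [Finset.mem_filter] at hb
    refine ⟨τ⁻¹ b, ?_, ?_⟩
    · rw [Finset.mem_filter]
      refine ⟨Finset.mem_univ _, ?_⟩
      change f (τ (τ⁻¹ b)) = i
      rw [self_inv]
      exact hb.2
    · exact self_inv τ b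

theorem chi_conj {N n : ℕ} (l : Fin N → ℤ) (τ σ : Equiv.Perm (Fin n)) : chi l (τ * σ * τ⁻¹) = chi l σ := by
  unfold chi
  rw [← (Equiv.arrowCongr τ (Equiv.refl (Fin N))).sum_comp]
  refine Finset.sum_congr rfl fun g _ => ?_
  have h1 : (Equiv.arrowCongr τ (Equiv.refl (Fin N))) g = fun a => g (τ⁻¹ a) := rfl
  rw [h1]
  have h2 : (∀ a, (fun a => g (τ⁻¹ a)) ((τ * σ * τ⁻¹) a) = (fun a => g (τ⁻¹ a)) a) ↔
      ∀ a, g (σ a) = g a := by
    constructor
    · intro h a
      have h3 := h (τ a)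
      simp only [Equiv.Perm.mul_apply, inv_self] at h3
      exact h3
    · intro h a
      simp only [Equiv.Perm.mul_apply, inv_self]
      exact h _
  simp only [h2, cont_comp g τ⁻¹]

theorem chi_inv {N n : ℕ} (l : Fin N → ℤ) (σ : Equiv.Perm (Fin n)) : chi l σ⁻¹ = chi l σ := by
  unfold chi
  refine Finset.sum_congr rfl fun f _ => ?_
  have h2 : (∀ a, f (σ⁻¹ a) = f a) ↔ ∀ a, f (σ a) = f a := by
    constructor
    · intro h a
      have h3 := h (σ a)
      rw [inv_self] at h3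
      exact h3.symm
    · intro h a
      have h3 := h (σ⁻¹ a)
      rw [self_inv] at h3
      exact h3.symm
  simp only [h2]

theorem chi_one {N n : ℕ} (l : Fin N → ℤ) : chi l (1 : Equiv.Perm (Fin n)) = FF n l := by
  unfold chi FF
  refine Finset.sum_congr rfl fun f _ => ?_
  have h : ∀ a, f ((1 : Equiv.Perm (Fin n)) a) = f a := fun a => rfl
  rw [if_pos h]

theorem chi_perm {N n : ℕ} (l : Fin N → ℤ) (τ : Equiv.Perm (Fin N)) (σ : Equiv.Perm (Fin n)) :
    chi (fun i => l (τ i)) σ = ((Equiv.Perm.sign τ : ℤˣ) : ℤ) * chi l σ := by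
  unfold chi
  rw [Finset.mul_sum, ← (Equiv.arrowCongr (Equiv.refl (Fin n)) τ).sum_comp
    (fun f : Fin n → Fin N => ((Equiv.Perm.sign τ : ℤˣ) : ℤ) *
      if ∀ a, f (σ a) = f a then phi fun i => l i - cont f i else 0)]
  refine Finset.sum_congr rfl fun f _ => ?_
  have h1 : (Equiv.arrowCongr (Equiv.refl (Fin n)) τ) f = fun a => τ (f a) := rfl
  rw [h1]
  have h2 : (∀ a, (fun a => τ (f a)) (σ a) = (fun a => τ (f a)) a) ↔ ∀ a, f (σ a) = f a :=
    forall_congr' fun a => τ.injective.eq_iff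
  have h3 : ∀ i, cont f i = cont (fun a => τ (f a)) (τ i) := by
    intro i
    unfold cont
    simp only [τ.injective.eq_iff]
  by_cases h : ∀ a, f (σ a) = f a
  · rw [if_pos h, if_pos (h2.2 h), ← phi_perm (fun j => l j - cont (fun a => τ (f a)) j) τ]
    congr 1
    funext i
    rw [h3 i]
  · rw [if_neg h, if_neg (fun h4 => h (h2.1 h4)), mul_zero]

theorem FF_perm {N : ℕ} (n : ℕ) (l : Fin N → ℤ) (τ : Equiv.Perm (Fin N)) :
    FF n (fun i => l (τ i)) = ((Equiv.Perm.sign τ : ℤˣ) : ℤ) * FF n l := by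
  rw [← CL_replicate, ← CL_replicate, CL_perm]

end Pool.Agent.Helper24.AN
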