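import Pool.Agent.Helper24.AN.LPhi

/-!
L02 Pos: the degree of a beta sequence is positive.

PROOF. Induction on `n`. `n = 0`: a strictly increasing sequence of nonnegative integers has `l i ≥ i`; as the sums are
equal, `l i = i`, `FF 0 l = phi l = 1` (`FF_zero`, `phi_id`). `n + 1`: `FF (n+1) l = ∑_i FF n (low l i 1)` (`FF_succ`).
For each `i`: if `l i = 0` the term is `0` (`CL_eq_zero_of_neg`, `CL_replicate`); if `l i - 1 = l j` for some `j ≠ i` it
is `0` (`CL_eq_zero_of_eq`); otherwise `low l i 1` is again strictly increasing (for `j < i`: `l j < l i`, `l j ≠ l i - 1`, so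
`l j < l i - 1`), nonnegative, of sum `n + ...`, so the term is positive by induction. So all terms are `≥ 0`, and one
is positive: since `∑ l i > ∑ i` some `l i ≠ i`; let `i` be the smallest such index; then `l i > i`, and `l (i-1) = i - 1 < l i - 1`
(or `i = 0` and `l 0 > 0`), so the third case applies to this `i` (for `j < i`: `l j = j ≤ i - 1 < l i - 1`; for `j > i`: `l j > l i - 1`).
`beta_ge`: `l i ≥ i` by induction on `i` (strict monotonicity over `Fin N` and integers).
-/

set_option autoImplicit false

namespace Pool.Agent.Helper24.AN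

open Finset

theorem beta_ge {N : ℕ} (l : Fin N → ℤ) (hl : StrictMono l) (h0 : ∀ i, 0 ≤ l i) (i : Fin N) : (i : ℤ) ≤ l i := by
  have key : ∀ (k : ℕ) (hk : k < N), (k : ℤ) ≤ l ⟨k, hk⟩ := by
    intro k
    induction k with
    | zero => intro hk; exact_mod_cast h0 _
    | succ k ih =>
      intro hk
      have h1 := ih (by omega)
      have h2 : l ⟨k, by omega⟩ < l ⟨k + 1, hk⟩ := hl (by rw [Fin.mk_lt_mk]; omega)
      push_cast
      omega
  exact key i i.2

theorem isB_low {N n : ℕ} (l : Fin N → ℤ) (hl : IsB (n + 1) l) (i : Fin N) (h0 : l i ≠ 0)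
    (h1 : ∀ j, l j ≠ l i - 1) : IsB n (low l i 1) := by
  refine ⟨?_, ?_, ?_⟩
  · intro a b hab
    have h2 := hl.mono hab
    unfold low
    by_cases hb : b = i
    · subst hb
      have ha : a ≠ b := ne_of_lt hab
      rw [if_neg ha, if_pos rfl]
      have h3 := h1 a
      push_cast
      omega
    · rw [if_neg hb]
      by_cases ha : a = i
      · rw [if_pos ha]
        push_cast
        omega
      · rw [if_neg ha]
        omega
  · intro j
    have h2 := hl.nn j
    unfold low
    by_cases hj : j = i
    · rw [if_pos hj]
      rw [← hj] at h0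
      push_cast
      omega
    · rw [if_neg hj]
      omega
  · unfold low
    rw [Finset.sum_sub_distrib, hl.sum, Finset.sum_ite_eq' Finset.univ i, if_pos (Finset.mem_univ _)]
    push_cast
    ring

theorem FF_pos {N n : ℕ} (l : Fin N → ℤ) (hl : IsB n l) : 0 < FF n l := by
  induction n generalizing l with
  | zero =>
    have h1 : ∀ i : Fin N, (i : ℤ) ≤ l i := beta_ge l hl.mono hl.nn
    have h2 : ∑ i : Fin N, (i : ℤ) = ∑ i, l i := by
      rw [hl.sum]
      push_cast
      ring
    have h3 := (Finset.sum_eq_sum_iff_of_le (fun i _ => h1 i)).1 h2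
    have h4 : l = fun i : Fin N => (i : ℤ) := funext fun i => (h3 i (Finset.mem_univ _)).symm
    rw [FF_zero, h4, phi_id]
    exact one_pos
  | succ n ih =>
    rw [FF_succ]
    have hbad1 : ∀ i, l i = 0 → FF n (low l i 1) = 0 := by
      intro i hi
      rw [← CL_replicate]
      refine CL_eq_zero_of_neg _ _ (i := i) ?_
      unfold low
      rw [if_pos rfl, hi]
      norm_num
    have hbad2 : ∀ i, (∃ j, l j = l i - 1) → FF n (low l i 1) = 0 := by
      rintro i ⟨j, hj⟩
      have hij : i ≠ j := by
        rintro rfl
        omega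
      rw [← CL_replicate]
      refine CL_eq_zero_of_eq _ _ hij ?_
      unfold low
      rw [if_pos rfl, if_neg hij.symm, hj]
      push_cast
      ring
    have hgood : ∀ i, l i ≠ 0 → (∀ j, l j ≠ l i - 1) → 0 < FF n (low l i 1) :=
      fun i h0 h1 => ih _ (isB_low l hl i h0 h1)
    refine Finset.sum_pos' (fun i _ => ?_) ?_
    · by_cases h0 : l i = 0
      · exact (hbad1 i h0).ge
      · by_cases h1 : ∃ j, l j = l i - 1
        · exact (hbad2 i h1).ge
        · exact (hgood i h0 fun j hj => h1 ⟨j, hj⟩).le
    · by_contra hcon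
      have hall : ∀ (k : ℕ) (hk : k < N), l ⟨k, hk⟩ = k := by
        intro k
        induction k using Nat.strong_induction_on with
        | _ k ihk =>
          intro hk
          by_contra hne
          have h1 := beta_ge l hl.mono hl.nn ⟨k, hk⟩
          have h2 : (k : ℤ) < l ⟨k, hk⟩ := lt_of_le_of_ne h1 (Ne.symm hne)
          apply hcon
          refine ⟨⟨k, hk⟩, Finset.mem_univ _, hgood _ ?_ ?_⟩
          · omega
          · intro j hj
            rcases lt_trichotomy j ⟨k, hk⟩ with h3 | h3 | h3
            · have h4 : (j : ℕ) < k := h3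
              have h5 := ihk j h4 j.2
              have h6 : l j = (j : ℕ) := h5
              omega
            · rw [h3] at hj
              omega
            · have h4 := hl.mono h3
              omega
      have h1 : ∑ i, l i = ∑ i : Fin N, (i : ℤ) :=
        Finset.sum_congr rfl fun i _ => hall i i.2
      have h2 := hl.sum
      rw [h1] at h2
      push_cast at h2
      omega

end Pool.Agent.Helper24.AN
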