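import Pool.Agent.Helper24.AN.MSize
import Pool.Agent.Helper24.AN.LPos
import Pool.Agent.Helper24.AN.LClass

/-!
M07 F: the number of standard tableaux of a beta sequence is its degree.

PROOF. `fAux_mayaL`: induction on `k`. `k = 0`: `IsB 0 l` gives `l i = i` (`beta_ge` and the sum), `FF_zero`, `phi_id`. `k + 1`:
`FF (k+1) l = ∑_i FF k (low l i 1)` (`FF_succ`). The term is `0` if `l i = 0` or `l i - 1` is some `l j` (as in the header of `LPos`);
otherwise `low l i 1` is `IsB k` (`isB_low`) and the term is `fAux k (mayaL K (low l i 1))` by induction, with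
`mayaL K (low l i 1) = (mayaL K l).down (l i - K)` (`maya_ext`). The set of the `x` in the finsum of `fAux (k+1)` is the set of the
`l i - K` with `1 ≤ l i`, `l i - 1` not in the range of `l` (as in the header of `MMN`).
`f_mayaL`: the size is `n` by `size_mayaL`. `f_mayaL_inj`: sort (`exists_sort`), `mayaL_perm`, `FF_perm`, `f_mayaL`;
`u = sign τ` (`sign * sign = 1`).
-/

set_option autoImplicit false

namespace Pool.Agent.Helper24.AN

open Finset
open Pool.Agent.Helper81.AN

theorem fAux_mayaL {N k : ℕ} (K : ℤ) (l : Fin N → ℤ) (hl : IsB k l) :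
    ((Maya.fAux k (mayaL K l) : ℕ) : ℤ) = FF k l := by
  classical
  induction k generalizing l with
  | zero =>
    have h1 : ∀ i : Fin N, (i : ℤ) ≤ l i := beta_ge l hl.mono hl.nn
    have h2 : ∑ i : Fin N, (i : ℤ) = ∑ i, l i := by
      rw [hl.sum]
      push_cast
      ring
    have h3 := (Finset.sum_eq_sum_iff_of_le (fun i _ => h1 i)).1 h2
    have h4 : l = fun i : Fin N => (i : ℤ) := funext fun i => (h3 i (Finset.mem_univ _)).symm
    rw [FF_zero, h4, phi_id]
    rfl
  | succ k ih =>
    set G : Finset (Fin N) := univ.filter fun i => 1 ≤ l i ∧ ∀ j, l j ≠ l i - 1 with hG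
    have hS : {x : ℤ | x ∈ (mayaL K l).s ∧ x - 1 ∉ (mayaL K l).s} =
        (fun i => l i - K) '' (G : Set (Fin N)) := by
      ext x
      constructor
      · rintro ⟨h1, h2⟩
        rcases h1 with h1 | ⟨i, hi⟩
        · exfalso
          apply h2
          left
          omega
        · refine ⟨i, ?_, ?_⟩
          · rw [Finset.mem_coe, hG, Finset.mem_filter]
            refine ⟨Finset.mem_univ _, ?_, ?_⟩
            · by_contra h3
              apply h2
              left
              omega
            · intro j hj
              apply h2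
              right
              exact ⟨j, by omega⟩
          · change l i - K = x
            omega
      · rintro ⟨i, hi, rfl⟩
        rw [Finset.mem_coe, hG, Finset.mem_filter] at hi
        refine ⟨Or.inr ⟨i, by simp only; ring⟩, ?_⟩
        rintro (h1 | ⟨j, hj⟩)
        · have := hi.2.1
          simp only at h1
          omega
        · simp only at hj
          exact hi.2.2 j (by omega)
    have hinj : Set.InjOn (fun i => l i - K) (G : Set (Fin N)) := by
      intro a _ b _ hab
      simp only at hab
      exact hl.mono.injective (by omega)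
    have e1 : Maya.fAux (k + 1) (mayaL K l) = ∑ᶠ x ∈ {x : ℤ | x ∈ (mayaL K l).s ∧
      x - 1 ∉ (mayaL K l).s}, Maya.fAux k ((mayaL K l).down x) := rfl
    rw [e1, hS, finsum_mem_image hinj, finsum_mem_coe_finset, hG, Finset.sum_filter, FF_succ]
    push_cast
    refine Finset.sum_congr rfl fun i _ => ?_
    by_cases hi : 1 ≤ l i ∧ ∀ j, l j ≠ l i - 1
    · rw [if_pos hi]
      have hB : IsB k (low l i 1) := isB_low l hl i (by omega) hi.2
      rw [← ih (low l i 1) hB]
      congr 2
      refine maya_ext fun x => ?_
      change ((x < -K ∨ ∃ j, x + K = l j) ∧ x ≠ l i - K) ∨ x = l i - K - 1 ↔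
        (x < -K ∨ ∃ j, x + K = low l i 1 j)
      have hwi : low l i 1 i = l i - 1 := by
        unfold low
        rw [if_pos rfl]
        push_cast
        rfl
      have hwj : ∀ j, j ≠ i → low l i 1 j = l j := by
        intro j hj
        unfold low
        rw [if_neg hj, sub_zero]
      constructor
      · rintro (⟨h | ⟨j, hj⟩, h3⟩ | h)
        · exact Or.inl h
        · right
          have hji : j ≠ i := by
            rintro rfl
            exact h3 (by omega)
          exact ⟨j, by rw [hwj j hji]; exact hj⟩
        · right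
          exact ⟨i, by rw [hwi]; omega⟩
      · rintro (h | ⟨j, hj⟩)
        · left
          exact ⟨Or.inl h, by omega⟩
        · by_cases hji : j = i
          · right
            rw [hji, hwi] at hj
            omega
          · left
            rw [hwj _ hji] at hj
            refine ⟨Or.inr ⟨j, hj⟩, ?_⟩
            intro h3
            apply hji
            apply hl.mono.injective
            omega
    · rw [if_neg hi]
      symm
      rw [← CL_replicate]
      by_cases h1 : 1 ≤ l i
      · have h2 : ∃ j, l j = l i - 1 := by
          by_contra h3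
          push Not at h3
          exact hi ⟨h1, h3⟩
        obtain ⟨j, hj⟩ := h2
        have hij : i ≠ j := by
          rintro rfl
          omega
        apply CL_eq_zero_of_eq _ _ hij
        unfold low
        rw [if_pos rfl, if_neg hij.symm, hj, sub_zero]
        push_cast
        rfl
      · apply CL_eq_zero_of_neg _ _ (i := i)
        unfold low
        rw [if_pos rfl]
        push_cast
        omega

theorem f_mayaL {N n : ℕ} (K : ℤ) (l : Fin N → ℤ) (hl : IsB n l) : (((mayaL K l).f : ℕ) : ℤ) = FF n l := by
  have h1 := size_mayaL K l hl.mono.injective hl.nn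
  rw [hl.sum] at h1
  have h2 : (mayaL K l).size = n := by omega
  unfold Maya.f
  rw [h2]
  exact fAux_mayaL K l hl

theorem f_mayaL_inj {N n : ℕ} (K : ℤ) (l : Fin N → ℤ) (hinj : Function.Injective l) (h0 : ∀ i, 0 ≤ l i)
    (hs : ∑ i, l i = n + ∑ i : Fin N, (i : ℤ)) :
    ∃ u : ℤˣ, FF n l = (u : ℤ) * (((mayaL K l).f : ℕ) : ℤ) := by
  obtain ⟨τ, hτ⟩ := exists_sort l hinj
  have hB : IsB n (fun i => l (τ i)) := ⟨hτ, fun i => h0 _, by
    rw [Equiv.sum_comp τ l]
    exact hs⟩
  have h1 := f_mayaL K (fun i => l (τ i)) hB
  rw [mayaL_perm, FF_perm] at h1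
  refine ⟨Equiv.Perm.sign τ, ?_⟩
  rw [h1, ← mul_assoc, ← Units.val_mul, Int.units_mul_self, Units.val_one, one_mul]

end Pool.Agent.Helper24.AN
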