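import Pool.Agent.Helper24.AN.MCharge

/-!
M02 Size: charge and size of `mayaL K l`.

PROOFS. `exists_sort`: `Tuple.sort l` and `Tuple.monotone_sort`, with injectivity strictly monotone.
`mayaL_perm`: the same set (`maya_ext`, replace `i` by `τ i`).
`charge_mayaL`: `charge_cut` with the cut `-K`: the beads `≥ -K` are the `N` points `l i - K` (`0 ≤ l i`, injective: `Set.ncard` of
a range, e.g. `Set.ncard_image_of_injective univ`), no holes below `-K`.
`size_mayaL`: by `exists_sort`, `mayaL_perm` (`Equiv.sum_comp` for the sum) we may assume `l` strictly increasing. The inversions `(x, y)`: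
`y = l i - K` for a unique `i`, and `x` is a hole with `-K ≤ x < y`; put `x = t - K`, `0 ≤ t < l i`, `t` not in the range of `l`. The number of
these `t` is `l i - i` (the `t` in `[0, l i)` which are in the range of `l` are the `l j`, `j < i`). So the number of inversions is
`∑_i (l i - i)` (e.g. the set of inversions is in bijection with a `Finset.sigma`; `Finset.card_sigma`, `Set.ncard_congr`,
`Set.ncard_coe_finset`).
-/

set_option autoImplicit false

namespace Pool.Agent.Helper24.AN

open Finset
open Pool.Agent.Helper81.AN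

theorem exists_sort {N : ℕ} (l : Fin N → ℤ) (hinj : Function.Injective l) :
    ∃ τ : Equiv.Perm (Fin N), StrictMono fun i => l (τ i) :=
  ⟨Tuple.sort l, (Tuple.monotone_sort l).strictMono_of_injective
    (hinj.comp (Tuple.sort l).injective)⟩

theorem mayaL_perm {N : ℕ} (K : ℤ) (l : Fin N → ℤ) (τ : Equiv.Perm (Fin N)) :
    mayaL K (fun i => l (τ i)) = mayaL K l := by
  refine maya_ext fun x => ?_
  show (x < -K ∨ ∃ i, x + K = l (τ i)) ↔ (x < -K ∨ ∃ i, x + K = l i)
  constructor
  · rintro (h | ⟨i, hi⟩)
    · exact Or.inl h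
    · exact Or.inr ⟨τ i, hi⟩
  · rintro (h | ⟨i, hi⟩)
    · exact Or.inl h
    · exact Or.inr ⟨τ.symm i, by rw [Equiv.apply_symm_apply]; exact hi⟩

theorem charge_mayaL {N : ℕ} (K : ℤ) (l : Fin N → ℤ) (hinj : Function.Injective l) (h0 : ∀ i, 0 ≤ l i) :
    (mayaL K l).charge = N - K := by
  have h := charge_cut (mayaL K l) (-K)
  have h1 : {x : ℤ | -K ≤ x ∧ x ∈ (mayaL K l).s} = (fun i => l i - K) '' (Set.univ : Set (Fin N)) := by
    ext x
    constructor
    · rintro ⟨h1, h2 | ⟨i, hi⟩⟩
      · omega
      · exact ⟨i, trivial, by simp only; omega⟩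
    · rintro ⟨i, -, rfl⟩
      have := h0 i
      exact ⟨by simp only; omega, Or.inr ⟨i, by simp only; omega⟩⟩
  have h2 : {x : ℤ | x < -K ∧ x ∉ (mayaL K l).s} = ∅ := by
    ext x
    constructor
    · rintro ⟨h1, h2⟩
      exact (h2 (Or.inl h1)).elim
    · intro h
      exact h.elim
  have h3 : Function.Injective (fun i => l i - K) := by
    intro a b hab
    simp only at hab
    exact hinj (by omega)
  rw [h1, h2, Set.ncard_image_of_injective _ h3, Set.ncard_univ, Nat.card_eq_fintype_card,
    Fintype.card_fin, Set.ncard_empty] at h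
  push_cast at h
  omega

theorem size_mayaL {N : ℕ} (K : ℤ) (l : Fin N → ℤ) (hinj : Function.Injective l) (h0 : ∀ i, 0 ≤ l i) :
    ((mayaL K l).size : ℤ) + ∑ i : Fin N, (i : ℤ) = ∑ i, l i := by
  classical
  let A : Fin N → Finset ℤ := fun i => (Finset.Ico 0 (l i)).filter fun t => ∀ j, t ≠ l j
  have hI : {q : ℤ × ℤ | q.1 < q.2 ∧ q.1 ∉ (mayaL K l).s ∧ q.2 ∈ (mayaL K l).s} =
      ((univ.sigma A).image (fun p : (_ : Fin N) × ℤ => ((p.2 - K, l p.1 - K) : ℤ × ℤ)) :
        Finset (ℤ × ℤ)) := by
    ext ⟨x, y⟩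
    rw [Finset.mem_coe, Finset.mem_image]
    constructor
    · rintro ⟨h1, h2, h3⟩
      simp only at h1 h2 h3
      have h4 : ¬ (x < -K ∨ ∃ i, x + K = l i) := h2
      rw [not_or, not_exists] at h4
      rcases h3 with h3 | ⟨i, hi⟩
      · omega
      · refine ⟨⟨i, x + K⟩, ?_, ?_⟩
        · rw [Finset.mem_sigma]
          refine ⟨mem_univ _, ?_⟩
          rw [Finset.mem_filter, Finset.mem_Ico]
          exact ⟨⟨by simp only; omega, by simp only; omega⟩, h4.2⟩
        · rw [Prod.mk.injEq]
          exact ⟨by simp only; omega, by simp only; omega⟩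
    · rintro ⟨⟨i, t⟩, h1, h2⟩
      rw [Finset.mem_sigma] at h1
      have h3 := h1.2
      rw [Finset.mem_filter, Finset.mem_Ico] at h3
      simp only at h3
      rw [Prod.mk.injEq] at h2
      simp only at h2
      obtain ⟨h4, h5⟩ := h2
      subst h4
      subst h5
      refine ⟨by simp only; omega, ?_, Or.inr ⟨i, by simp only; omega⟩⟩
      rintro (h | ⟨j, hj⟩)
      · simp only at h
        omega
      · simp only at hj
        exact h3.2 j (by omega)
  have hsize : (mayaL K l).size = ∑ i, (A i).card := by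
    unfold Maya.size
    rw [hI, Set.ncard_coe_finset, Finset.card_image_of_injective, Finset.card_sigma]
    rintro ⟨i, t⟩ ⟨j, u⟩ h
    simp only [Prod.mk.injEq] at h
    have h1 : i = j := hinj (by omega)
    subst h1
    have h2 : t = u := by omega
    subst h2
    rfl
  have hA : ∀ i, ((A i).card : ℤ) + ((univ.filter fun j => l j < l i).card : ℤ) = l i := by
    intro i
    have h1 : ((Finset.Ico 0 (l i)).filter fun t => ¬ ∀ j, t ≠ l j) =
        (univ.filter fun j => l j < l i).image l := by
      ext t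
      rw [Finset.mem_filter, Finset.mem_image, Finset.mem_Ico]
      constructor
      · rintro ⟨h1, h2⟩
        push Not at h2
        obtain ⟨j, rfl⟩ := h2
        exact ⟨j, by rw [Finset.mem_filter]; exact ⟨mem_univ _, h1.2⟩, rfl⟩
      · rintro ⟨j, hj, rfl⟩
        rw [Finset.mem_filter] at hj
        exact ⟨⟨h0 j, hj.2⟩, fun h => h j rfl⟩
    have h2 := Finset.card_filter_add_card_filter_not (s := Finset.Ico 0 (l i)) (fun t => ∀ j, t ≠ l j)
    rw [h1, Finset.card_image_of_injective _ hinj, Int.card_Ico] at h2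
    have h3 := h0 i
    have h4 : ((A i).card : ℤ) + ((univ.filter fun j => l j < l i).card : ℤ) =
        (((l i - 0).toNat : ℕ) : ℤ) := by
      rw [← h2]
      push_cast
      rfl
    rw [h4]
    omega
  have hB : ∑ i : Fin N, ((univ.filter fun j => l j < l i).card : ℤ) = ∑ i : Fin N, (i : ℤ) := by
    obtain ⟨τ, hτ⟩ := exists_sort l hinj
    rw [← Equiv.sum_comp τ]
    refine Finset.sum_congr rfl fun i _ => ?_
    have h1 : (univ.filter fun j => l j < l (τ i)) = (Finset.Iio i).image τ := by
      ext j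
      rw [Finset.mem_filter, Finset.mem_image]
      constructor
      · rintro ⟨-, h⟩
        refine ⟨τ.symm j, ?_, Equiv.apply_symm_apply _ _⟩
        rw [Finset.mem_Iio]
        rw [← hτ.lt_iff_lt]
        simp only [Equiv.apply_symm_apply]
        exact h
      · rintro ⟨k, hk, rfl⟩
        rw [Finset.mem_Iio] at hk
        exact ⟨mem_univ _, hτ hk⟩
    rw [h1, Finset.card_image_of_injective _ τ.injective, Fin.card_Iio]
  rw [hsize, ← hB]
  push_cast
  rw [← Finset.sum_add_distrib]
  exact Finset.sum_congr rfl fun i _ => hA i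

end Pool.Agent.Helper24.AN
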