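import Pool.Agent.Helper24.AN.MLow
import Pool.Agent.Helper24.AN.MSize
import Pool.Agent.Helper24.AN.LPos

/-!
M05 MN: the iterated sum `CL` is the Murnaghan-Nakayama sum `mn`.

PROOF. Induction on `L`. `L = []`: `phi l = 1` if `l i = i` for all `i` (`phi_id`) and `0` otherwise (`phi_mono`);
`size (mayaL K l) = ∑ (l i - i)` (`size_mayaL`) is `0` iff `l i = i` for all `i` (`beta_ge`; `Finset.sum_eq_zero_iff_of_nonneg`).
`m :: L`: `CL (m :: L) l = ∑_i CL L (low l i m)`. The term is `0` if `l i < m` (`CL_eq_zero_of_neg`) and if `l i - m = l j` for some `j`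
(`j ≠ i` as `m ≥ 1`; `CL_eq_zero_of_eq`). Otherwise by `exists_low`, `CL_perm` and the induction hypothesis it is
`sign τ * CL L l' = (-1) ^ #{..} * mn L (move (mayaL K l) (l i - K) m)`. On the other side the set of the `x` in the finsum is
exactly the set of the `l i - K` with `m ≤ l i` and `l i - m` not in the range of `l` (a bead `x < -K` has `x - m` a bead; for `x = l i - K`:
`x - m` is not a bead iff `l i - m ≥ 0` and `l i - m` is not in the range); `i ↦ l i - K` is injective
(`finsum_mem_eq_finite_toFinset_sum`/`finsum_mem_image`/`finsum_mem_coe_finset`, `Finset.sum_filter`, `Finset.sum_image`). The exponent: the beads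
`y` with `x - m < y < x`, `x = l i - K`, are the `l j - K` with `l i - m < l j < l i` (they are `≥ -K` as `l i - m ≥ 0`).
-/

set_option autoImplicit false

namespace Pool.Agent.Helper24.AN

open Finset
open Pool.Agent.Helper81.AN

theorem CL_eq_mn {N : ℕ} (K : ℤ) (L : List ℕ) (hL : ∀ m ∈ L, 1 ≤ m) (l : Fin N → ℤ) (hl : StrictMono l)
    (h0 : ∀ i, 0 ≤ l i) : CL L l = mn L (mayaL K l) := by
  classical
  induction L generalizing l with
  | nil =>
    change phi l = if (mayaL K l).size = 0 then (1 : ℤ) else 0
    have hs := size_mayaL K l hl.injective h0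
    by_cases hsz : (mayaL K l).size = 0
    · rw [if_pos hsz]
      rw [hsz] at hs
      have h1 : ∀ i : Fin N, (i : ℤ) ≤ l i := beta_ge l hl h0
      have h2 : ∑ i : Fin N, (i : ℤ) = ∑ i, l i := by
        rw [← hs]
        push_cast
        ring
      have h3 := (Finset.sum_eq_sum_iff_of_le (fun i _ => h1 i)).1 h2
      have h4 : l = fun i : Fin N => (i : ℤ) := funext fun i => (h3 i (Finset.mem_univ _)).symm
      rw [h4, phi_id]
    · rw [if_neg hsz]
      by_contra hne
      have h1 := phi_mono l hl hne
      rw [Finset.sum_congr rfl fun i _ => h1 i] at hs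
      apply hsz
      omega
  | cons m L ih =>
    have hm : 1 ≤ m := hL m (by simp)
    have ih' := ih (fun k hk => hL k (by simp [hk]))
    set G : Finset (Fin N) := univ.filter fun i => (m : ℤ) ≤ l i ∧ ∀ j, l j ≠ l i - m with hG
    have hS : {x : ℤ | x ∈ (mayaL K l).s ∧ x - (m : ℤ) ∉ (mayaL K l).s} =
        (fun i => l i - K) '' (G : Set (Fin N)) := by
      ext x
      constructor
      · rintro ⟨h1, h2⟩
        rcases h1 with h1 | ⟨i, hi⟩
        · exfalso
          apply h2
          left
          omega
        · refine ⟨i, ?_, ?_⟩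
          · rw [Finset.mem_coe, hG, Finset.mem_filter]
            refine ⟨Finset.mem_univ _, ?_, ?_⟩
            · by_contra h3
              apply h2
              left
              omega
            · intro j hj
              apply h2
              right
              exact ⟨j, by omega⟩
          · change l i - K = x
            omega
      · rintro ⟨i, hi, rfl⟩
        rw [Finset.mem_coe, hG, Finset.mem_filter] at hi
        refine ⟨Or.inr ⟨i, by simp only; ring⟩, ?_⟩
        rintro (h1 | ⟨j, hj⟩)
        · have := hi.2.1
          simp only at h1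
          omega
        · simp only at hj
          exact hi.2.2 j (by omega)
    have hinj : Set.InjOn (fun i => l i - K) (G : Set (Fin N)) := by
      intro a _ b _ hab
      simp only at hab
      exact hl.injective (by omega)
    change ∑ i : Fin N, CL L (low l i m) = ∑ᶠ x ∈ {x : ℤ | x ∈ (mayaL K l).s ∧
      x - (m : ℤ) ∉ (mayaL K l).s},
      (-1) ^ (Set.ncard {y : ℤ | y ∈ (mayaL K l).s ∧ x - (m : ℤ) < y ∧ y < x}) *
        mn L (move (mayaL K l) x m)
    rw [hS, finsum_mem_image hinj, finsum_mem_coe_finset, hG, Finset.sum_filter]
    refine Finset.sum_congr rfl fun i _ => ?_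
    by_cases hi : (m : ℤ) ≤ l i ∧ ∀ j, l j ≠ l i - m
    · rw [if_pos hi]
      obtain ⟨l', τ, hl', h0', hτ, hsgn, hmv⟩ := exists_low l hl h0 i m hm hi.1 hi.2
      have h1 : low l i m = fun j => l' (τ j) := funext hτ
      rw [h1, CL_perm, hsgn, ih' l' hl' h0', hmv K]
      congr 2
      have h2 : {y : ℤ | y ∈ (mayaL K l).s ∧ l i - K - (m : ℤ) < y ∧ y < l i - K} =
          (fun j => l j - K) '' ((univ.filter fun j => l i - m < l j ∧ l j < l i : Finset (Fin N)) :
            Set (Fin N)) := by
        ext y
        constructor
        · rintro ⟨h3 | ⟨j, hj⟩, h4, h5⟩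
          · exfalso
            have := hi.1
            omega
          · refine ⟨j, ?_, ?_⟩
            · rw [Finset.mem_coe, Finset.mem_filter]
              exact ⟨Finset.mem_univ _, by omega, by omega⟩
            · change l j - K = y
              omega
        · rintro ⟨j, hj, rfl⟩
          rw [Finset.mem_coe, Finset.mem_filter] at hj
          exact ⟨Or.inr ⟨j, by simp only; ring⟩, by simp only; omega, by simp only; omega⟩
      rw [h2, Set.ncard_image_of_injective _ (fun a b hab => by
        exact hl.injective (by omega)), Set.ncard_coe_finset]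
    · rw [if_neg hi]
      by_cases h1 : (m : ℤ) ≤ l i
      · have h2 : ∃ j, l j = l i - m := by
          by_contra h3
          push Not at h3
          exact hi ⟨h1, h3⟩
        obtain ⟨j, hj⟩ := h2
        have hij : i ≠ j := by
          rintro rfl
          omega
        apply CL_eq_zero_of_eq L _ hij
        unfold low
        rw [if_pos rfl, if_neg hij.symm, hj, sub_zero]
      · apply CL_eq_zero_of_neg L _ (i := i)
        unfold low
        rw [if_pos rfl]
        omega

end Pool.Agent.Helper24.AN
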