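import Pool.Agent.Helper24.AN.LComp
import Pool.Agent.Helper24.AN.LOrb
import Pool.Agent.Helper24.AN.MEx
import Pool.Agent.Helper24.AN.MMN
import Pool.Agent.Helper24.AN.MConj
import Pool.Agent.Helper24.AN.MF

/-!
M08 LinG: the characters of the symmetric group, their degrees and the twist by the sign.

PROOF. `e` is the composite `IrrZ 1 1 = Irr ≃ {l // IsB n l} ≃ Par n` (`exists_chi_equiv`, `exists_par_equiv`; `χ ∈ IrrZ 1 1` iff
`χ ∈ Irr`, as `χ 1 = 1 * χ 1`: `Equiv.subtypeEquivRight`/`Equiv.setCongr`). Degree: `chi l 1 = FF n l = f (mayaL n l)` (`chi_one`, `f_mayaL`).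
Twist: let `χ = chi l`, `χ' = sign * χ`, `M = mayaL n l` and `l'` with `IsB n l'`, `mayaL n l' = M.conj` (`exists_mayaL_size`, `Maya.charge_conj`,
`Maya.size_conj`). For every `σ`, with the list `L` of `exists_cycles`: `chi l' σ = CL L l' = mn L M.conj = sign σ * mn L M =
sign σ * chi l σ` (`CL_eq_mn`, `mn_conj`). So `χ' = chi l'`, and `e χ'` is the partition with Maya diagram `mayaL n l' = M.conj`.
-/

set_option autoImplicit false

open Equiv

namespace Pool.Agent.Helper24.AN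

open Pool.Agent.Helper42.INC Pool.Agent.Helper81.AN

theorem chi_conj_sign {n : ℕ} (l l' : Fin n → ℤ) (hl : IsB n l) (hl' : IsB n l')
    (h : mayaL n l' = (mayaL n l).conj) (σ : Perm (Fin n)) :
    chi l' σ = ((Perm.sign σ : ℤˣ) : ℤ) * chi l σ := by
  obtain ⟨L, hL, hs, hc⟩ := exists_cycles σ
  rw [hc, hc, CL_eq_mn (n : ℤ) L hL l' hl'.mono hl'.nn, CL_eq_mn (n : ℤ) L hL l hl.mono hl.nn, h, mn_conj L hL, hs]

theorem lin_G (n : ℕ) :
    Nonempty (Lab (Perm (Fin n)) Perm.sign 1 1 (Par n) Par.tw Par.dg) := by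
  obtain ⟨e1, h1⟩ := exists_chi_equiv n
  obtain ⟨e2, h2⟩ := exists_par_equiv n
  obtain ⟨e0, h0⟩ : ∃ e0 : IrrZ (1 : Perm (Fin n)) (1 : ℂ) ≃ Irr (Perm (Fin n)),
      ∀ χ, (e0 χ).1 = χ.1 :=
    ⟨Equiv.subtypeEquivRight (fun χ => ⟨fun h => h.1, fun h => ⟨h, by rw [one_mul]⟩⟩),
      fun χ => rfl⟩
  have key : ∀ χ : IrrZ (1 : Perm (Fin n)) (1 : ℂ), ∀ σ : Perm (Fin n),
      χ.1 σ = ((chi (e1.symm (e0 χ)).1 σ : ℤ) : ℂ) := by
    intro χ σ
    have h := h1 (e1.symm (e0 χ))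
    rw [Equiv.apply_symm_apply, h0] at h
    exact congrFun h σ
  refine ⟨⟨(e0.trans e1.symm).trans e2, ?_, ?_⟩⟩
  · intro χ χ' h
    change e2 (e1.symm (e0 χ')) = Par.tw (e2 (e1.symm (e0 χ)))
    obtain ⟨l, hl⟩ : ∃ l, l = e1.symm (e0 χ) := ⟨_, rfl⟩
    obtain ⟨l', hl'⟩ : ∃ l', l' = e1.symm (e0 χ') := ⟨_, rfl⟩
    rw [← hl, ← hl']
    have hch : (mayaL n l.1).charge = 0 := by
      rw [charge_mayaL n l.1 l.2.mono.injective l.2.nn, sub_self]
    have hsz : (mayaL n l.1).size = n := by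
      have h3 := size_mayaL n l.1 l.2.mono.injective l.2.nn
      rw [l.2.sum] at h3
      omega
    obtain ⟨m, hm, hmm⟩ := exists_mayaL_size (mayaL n l.1).conj n
      (by rw [Maya.charge_conj, hch, neg_zero]) (by rw [Maya.size_conj, hsz])
    have heq : l' = ⟨m, hm⟩ := by
      apply e1.injective
      apply Subtype.ext
      rw [h1, h1]
      funext σ
      have h3 := key χ' σ
      rw [← hl'] at h3
      have h4 := key χ σ
      rw [← hl] at h4
      have h5 := chi_conj_sign l.1 m l.2 hm hmm σ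
      rw [← h3, h, h4, h5]
      push_cast
      ring
    apply Subtype.ext
    apply Subtype.ext
    rw [h2]
    change mayaL n l'.1 = (e2 l).1.1.conj
    rw [h2, heq, hmm]
  · intro χ
    change χ.1 1 = ((Par.dg (e2 (e1.symm (e0 χ))) : ℕ) : ℂ)
    rw [key χ 1]
    obtain ⟨l, hl⟩ : ∃ l, l = e1.symm (e0 χ) := ⟨_, rfl⟩
    rw [← hl, chi_one]
    have h3 : Par.dg (e2 l) = (mayaL n l.1).f := by
      change (e2 l).1.1.f = _
      rw [h2]
    rw [h3, ← f_mayaL (n : ℤ) l.1 l.2]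
    push_cast
    rfl

end Pool.Agent.Helper24.AN
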