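import Pool.Agent.Helper24.AN.MEx

/-!
Q01 Run: the abacus.

PROOFS. `exists_runs`: `exists_mayaL` for every `run j M`, `K` = the maximum of the finitely many `K0`s (`choose`,
`(Set.finite_range K0).bddAbove`), then `choose` again. `mayaL_glue`: `maya_ext`; by `exists_qj` `x = p q + j`, and by `mem_glue` the right side
is `q ∈ (mayaL K (L j)).s`, i.e. `q < -K` or `q + K = L j i`. Left side: `p q + j < -(p K)` iff `q < -K` (`0 ≤ j < p`), or
`p q + j + p K = l (e s) = p L s.1 s.2 + s.1` for some `s`, iff `s.1 = j` and `q + K = L j s.2` (uniqueness of quotient and remainder,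
`Int.emod_emod_of_dvd`, or as in the proof of `mem_glue`). `inj_of_runs`: the same uniqueness. `nonneg_of_runs`: clear.
`charge_run_sum`: with `exists_runs`, `N = ∑ Nj`, any `e` (`finSigmaFinEquiv` or `Fintype.equivFinOfCardEq`), `l k = p L s.1 s.2 + s.1`, `s = e.symm k`:
`M = glue (run · M) = mayaL (p K) l` (`glue_run`, `mayaL_glue`), `charge M = N - p K = ∑ (Nj - K)` (`charge_mayaL`).
`size_core`: in the same way `size M + ∑ I = ∑ l = ∑_j ∑_i (p L j i + j)` (`size_mayaL`, `Equiv.sum_comp`, `Fintype.sum_sigma`), and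
`core M = glue (vac (Nj - K))`, `vac (Nj - K) = mayaL K (fun i => i)` (beads at all places `< Nj - K`), so
`size (core M) + ∑ I = ∑_j ∑_i (p i + j)`; the difference is `p ∑_j (∑_i L j i - ∑_i i) = p ∑_j size (run j M)`.
`core_eq_mayaL`: this description of the core. `charge_core`: `charge_run_sum`, `run_glue`, `charge_vac`.
`core_of_small`: all `size (run j M) = 0` by `size_core`, so `run j M = vac (charge)` (`eq_vac_of_size`), `glue_run`.
`run_conj`: `-1 - (p q + j) = p (-1 - q) + (p - 1 - j)`, `Fin.val_rev`. `conj_vac`: `-1 - x < c` iff not `x < -c`. `conj_shift`: clear.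
`core_conj`: `run_ext`: `run j (core M.conj) = vac (charge (run j M.conj)) = vac (- charge (run (rev j) M))`, and
`run j ((core M).conj) = (run (rev j) (core M)).conj = (vac (charge (run (rev j) M))).conj`. `norm_conj`: `conj_shift`, `Maya.charge_conj`.
`charge_norm`, `size_norm`, `f_norm`: `charge_shift` etc. `shift_norm`, `norm_shift`: `maya_ext`.
-/

set_option autoImplicit false

namespace Pool.Agent.Helper24.AN

open Finset
open Pool.Agent.Helper81.AN

section

variable {p : ℕ} [NeZero p]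

private theorem qj_unique {q q' : ℤ} {j j' : Fin p}
    (h : (p : ℤ) * q + ((j : ℕ) : ℤ) = (p : ℤ) * q' + ((j' : ℕ) : ℤ)) : q = q' ∧ j = j' := by
  have hj : ((j : ℕ) : ℤ) < p := by exact_mod_cast j.2
  have hj' : ((j' : ℕ) : ℤ) < p := by exact_mod_cast j'.2
  have hp : (0 : ℤ) < p := by
    have := NeZero.pos p
    omega
  have h1 : q = q' := by
    have e1 : ((p : ℤ) * q + (j : ℕ)) / p = q := by
      rw [add_comm, Int.add_mul_ediv_left _ _ hp.ne', Int.ediv_eq_zero_of_lt (by omega) hj, zero_add]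
    have e2 : ((p : ℤ) * q' + (j' : ℕ)) / p = q' := by
      rw [add_comm, Int.add_mul_ediv_left _ _ hp.ne', Int.ediv_eq_zero_of_lt (by omega) hj', zero_add]
    rw [← e1, ← e2, h]
  subst h1
  exact ⟨rfl, Fin.ext (by omega)⟩

theorem exists_runs (M : Maya) :
    ∃ (K : ℤ) (Nj : Fin p → ℕ) (L : ∀ j, Fin (Nj j) → ℤ), (∀ j, ((Nj j : ℕ) : ℤ) = (run j M).charge + K) ∧
      (∀ j, StrictMono (L j)) ∧ (∀ j i, 0 ≤ L j i) ∧ ∀ j, mayaL K (L j) = run j M := by
  choose K0 hK0 using fun j : Fin p => exists_mayaL (run j M)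
  obtain ⟨b, hb⟩ := (Set.finite_range K0).bddAbove
  choose Nj L h1 h2 h3 h4 using fun j => hK0 j b (hb ⟨j, rfl⟩)
  exact ⟨b, Nj, L, h1, h2, h3, h4⟩

theorem inj_of_runs {N : ℕ} (Nj : Fin p → ℕ) (L : ∀ j, Fin (Nj j) → ℤ) (hL : ∀ j, Function.Injective (L j))
    (e : (Σ j : Fin p, Fin (Nj j)) ≃ Fin N) (l : Fin N → ℤ)
    (hl : ∀ s : Σ j : Fin p, Fin (Nj j), l (e s) = (p : ℤ) * L s.1 s.2 + ((s.1 : ℕ) : ℤ)) : Function.Injective l := by
  intro k k' h
  obtain ⟨⟨j, i⟩, rfl⟩ := e.surjective k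
  obtain ⟨⟨j', i'⟩, rfl⟩ := e.surjective k'
  rw [hl, hl] at h
  obtain ⟨h1, h2⟩ := qj_unique h
  simp only at h1 h2
  subst h2
  rw [hL j h1]

theorem nonneg_of_runs {N : ℕ} (Nj : Fin p → ℕ) (L : ∀ j, Fin (Nj j) → ℤ) (hL : ∀ j i, 0 ≤ L j i)
    (e : (Σ j : Fin p, Fin (Nj j)) ≃ Fin N) (l : Fin N → ℤ)
    (hl : ∀ s : Σ j : Fin p, Fin (Nj j), l (e s) = (p : ℤ) * L s.1 s.2 + ((s.1 : ℕ) : ℤ)) : ∀ k, 0 ≤ l k := by
  intro k
  obtain ⟨⟨j, i⟩, rfl⟩ := e.surjective k
  rw [hl]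
  have := hL j i
  positivity

theorem mayaL_glue {N : ℕ} (K : ℤ) (Nj : Fin p → ℕ) (L : ∀ j, Fin (Nj j) → ℤ)
    (e : (Σ j : Fin p, Fin (Nj j)) ≃ Fin N) (l : Fin N → ℤ)
    (hl : ∀ s : Σ j : Fin p, Fin (Nj j), l (e s) = (p : ℤ) * L s.1 s.2 + ((s.1 : ℕ) : ℤ)) :
    mayaL ((p : ℤ) * K) l = glue fun j => mayaL K (L j) := by
  refine maya_ext fun x => ?_
  obtain ⟨q, j, rfl⟩ := exists_qj (p := p) x
  rw [mem_glue]
  have hj : ((j : ℕ) : ℤ) < p := by exact_mod_cast j.2
  have hj0 : (0 : ℤ) ≤ ((j : ℕ) : ℤ) := Int.natCast_nonneg _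
  have hp : (0 : ℤ) < p := by
    have := NeZero.pos p
    omega
  change ((p : ℤ) * q + ((j : ℕ) : ℤ) < -((p : ℤ) * K) ∨ ∃ k, (p : ℤ) * q + ((j : ℕ) : ℤ) + (p : ℤ) * K = l k) ↔
    (q < -K ∨ ∃ i, q + K = L j i)
  have h1 : (p : ℤ) * q + ((j : ℕ) : ℤ) < -((p : ℤ) * K) ↔ q < -K := by
    constructor
    · intro h
      by_contra hcon
      have h2 : 0 ≤ q + K := by omega
      have h3 : 0 ≤ (p : ℤ) * (q + K) := mul_nonneg hp.le h2
      have h4 : (p : ℤ) * (q + K) = p * q + p * K := by ring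
      omega
    · intro h
      have h2 : q + K + 1 ≤ 0 := by omega
      have h3 : (p : ℤ) * (q + K + 1) ≤ 0 := mul_nonpos_of_nonneg_of_nonpos hp.le h2
      have h4 : (p : ℤ) * (q + K + 1) = p * q + p * K + p := by ring
      omega
  have h2 : (∃ k, (p : ℤ) * q + ((j : ℕ) : ℤ) + (p : ℤ) * K = l k) ↔ ∃ i, q + K = L j i := by
    constructor
    · rintro ⟨k, hk⟩
      obtain ⟨⟨j', i'⟩, rfl⟩ := e.surjective k
      rw [hl] at hk
      have h3 : (p : ℤ) * (q + K) + ((j : ℕ) : ℤ) = (p : ℤ) * L j' i' + ((j' : ℕ) : ℤ) := by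
        rw [← hk]
        ring
      obtain ⟨h4, h5⟩ := qj_unique h3
      subst h5
      exact ⟨i', h4⟩
    · rintro ⟨i, hi⟩
      refine ⟨e ⟨j, i⟩, ?_⟩
      rw [hl]
      simp only
      rw [← hi]
      ring
  rw [h1, h2]

private theorem mayaL_id (K : ℤ) (n : ℕ) : mayaL K (fun i : Fin n => ((i : ℕ) : ℤ)) = vac ((n : ℤ) - K) := by
  refine maya_ext fun x => ?_
  change (x < -K ∨ ∃ i : Fin n, x + K = ((i : ℕ) : ℤ)) ↔ x < (n : ℤ) - K
  constructor
  · rintro (h | ⟨i, hi⟩)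
    · omega
    · have := i.2
      omega
  · intro h
    by_cases h1 : x < -K
    · exact Or.inl h1
    · exact Or.inr ⟨⟨(x + K).toNat, by omega⟩, by simp only; omega⟩

theorem core_eq_mayaL {N : ℕ} (M : Maya) (K : ℤ) (Nj : Fin p → ℕ)
    (hN : ∀ j, ((Nj j : ℕ) : ℤ) = (run j M).charge + K)
    (e : (Σ j : Fin p, Fin (Nj j)) ≃ Fin N) (c : Fin N → ℤ)
    (hc : ∀ s : Σ j : Fin p, Fin (Nj j), c (e s) = (p : ℤ) * ((s.2 : ℕ) : ℤ) + ((s.1 : ℕ) : ℤ)) :
    mayaL ((p : ℤ) * K) c = core p M := by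
  rw [mayaL_glue K Nj (fun j i => ((i : ℕ) : ℤ)) e c hc]
  unfold core
  congr 1
  funext j
  rw [mayaL_id, hN j]
  congr 1
  ring

theorem charge_run_sum (M : Maya) : M.charge = ∑ j : Fin p, (run j M).charge := by
  obtain ⟨K, Nj, L, h1, h2, h3, h4⟩ := exists_runs (p := p) M
  let e : (Σ j : Fin p, Fin (Nj j)) ≃ Fin (∑ j, Nj j) := finSigmaFinEquiv
  let F : (Σ j : Fin p, Fin (Nj j)) → ℤ := fun s => (p : ℤ) * L s.1 s.2 + ((s.1 : ℕ) : ℤ)
  let l : Fin (∑ j, Nj j) → ℤ := fun k => F (e.symm k)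
  have hl : ∀ s : Σ j : Fin p, Fin (Nj j), l (e s) = (p : ℤ) * L s.1 s.2 + ((s.1 : ℕ) : ℤ) := by
    intro s
    change F (e.symm (e s)) = F s
    rw [Equiv.symm_apply_apply]
  have h5 := mayaL_glue K Nj L e l hl
  have h6 : (fun j => mayaL K (L j)) = fun j : Fin p => run j M := funext h4
  rw [h6, glue_run] at h5
  have h7 := charge_mayaL ((p : ℤ) * K) l (inj_of_runs Nj L (fun j => (h2 j).injective) e l hl)
    (nonneg_of_runs Nj L h3 e l hl)
  rw [h5] at h7
  rw [h7]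
  push_cast
  rw [Finset.sum_congr rfl (fun j _ => h1 j), Finset.sum_add_distrib]
  simp

theorem size_core (M : Maya) : M.size = (core p M).size + p * ∑ j : Fin p, (run j M).size := by
  obtain ⟨K, Nj, L, h1, h2, h3, h4⟩ := exists_runs (p := p) M
  let e : (Σ j : Fin p, Fin (Nj j)) ≃ Fin (∑ j, Nj j) := finSigmaFinEquiv
  let F : (Σ j : Fin p, Fin (Nj j)) → ℤ := fun s => (p : ℤ) * L s.1 s.2 + ((s.1 : ℕ) : ℤ)
  let l : Fin (∑ j, Nj j) → ℤ := fun k => F (e.symm k)
  have hl : ∀ s : Σ j : Fin p, Fin (Nj j), l (e s) = (p : ℤ) * L s.1 s.2 + ((s.1 : ℕ) : ℤ) := by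
    intro s
    change F (e.symm (e s)) = F s
    rw [Equiv.symm_apply_apply]
  let G : (Σ j : Fin p, Fin (Nj j)) → ℤ := fun s => (p : ℤ) * ((s.2 : ℕ) : ℤ) + ((s.1 : ℕ) : ℤ)
  let c : Fin (∑ j, Nj j) → ℤ := fun k => G (e.symm k)
  have hc : ∀ s : Σ j : Fin p, Fin (Nj j), c (e s) = (p : ℤ) * ((s.2 : ℕ) : ℤ) + ((s.1 : ℕ) : ℤ) := by
    intro s
    change G (e.symm (e s)) = G s
    rw [Equiv.symm_apply_apply]
  have h5 := mayaL_glue K Nj L e l hl
  have h6 : (fun j => mayaL K (L j)) = fun j : Fin p => run j M := funext h4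
  rw [h6, glue_run] at h5
  have h7 := size_mayaL ((p : ℤ) * K) l (inj_of_runs Nj L (fun j => (h2 j).injective) e l hl)
    (nonneg_of_runs Nj L h3 e l hl)
  rw [h5] at h7
  have h8 := size_mayaL ((p : ℤ) * K) c
    (inj_of_runs Nj (fun j i => ((i : ℕ) : ℤ)) (fun j a b hab => Fin.ext (by simpa using hab)) e c hc)
    (nonneg_of_runs Nj (fun j i => ((i : ℕ) : ℤ)) (fun j i => Int.natCast_nonneg _) e c hc)
  rw [core_eq_mayaL M K Nj h1 e c hc] at h8
  have h9 : ∀ j : Fin p, ((run j M).size : ℤ) + ∑ i : Fin (Nj j), (i : ℤ) = ∑ i, L j i := by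
    intro j
    have := size_mayaL K (L j) (h2 j).injective (h3 j)
    rw [h4 j] at this
    exact this
  have h10 : ∑ k, l k = ∑ j : Fin p, ∑ i : Fin (Nj j), ((p : ℤ) * L j i + ((j : ℕ) : ℤ)) := by
    rw [← Equiv.sum_comp e l, Fintype.sum_sigma]
    apply Finset.sum_congr rfl
    intro j _
    apply Finset.sum_congr rfl
    intro i _
    rw [hl]
  have h11 : ∑ k, c k = ∑ j : Fin p, ∑ i : Fin (Nj j), ((p : ℤ) * ((i : ℕ) : ℤ) + ((j : ℕ) : ℤ)) := by
    rw [← Equiv.sum_comp e c, Fintype.sum_sigma]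
    apply Finset.sum_congr rfl
    intro j _
    apply Finset.sum_congr rfl
    intro i _
    rw [hc]
  have h12 : ∑ k, l k - ∑ k, c k = (p : ℤ) * ∑ j : Fin p, ((run j M).size : ℤ) := by
    rw [h10, h11, ← Finset.sum_sub_distrib, Finset.mul_sum]
    apply Finset.sum_congr rfl
    intro j _
    rw [← Finset.sum_sub_distrib]
    have h13 : ((run j M).size : ℤ) = ∑ i : Fin (Nj j), (L j i - (i : ℤ)) := by
      rw [Finset.sum_sub_distrib]
      have := h9 j
      omega
    rw [h13, Finset.mul_sum]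
    apply Finset.sum_congr rfl
    intro i _
    ring
  have h14 : (M.size : ℤ) = (core p M).size + (p : ℤ) * ∑ j : Fin p, ((run j M).size : ℤ) := by
    rw [← h12]
    omega
  exact_mod_cast h14

theorem charge_core (M : Maya) : (core p M).charge = M.charge := by
  rw [charge_run_sum (p := p) (core p M), charge_run_sum (p := p) M]
  apply Finset.sum_congr rfl
  intro j _
  unfold core
  rw [run_glue, charge_vac]

theorem core_of_small (M : Maya) (h : M.size < p) : core p M = M := by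
  have h1 := size_core (p := p) M
  have h2 : ∑ j : Fin p, (run j M).size = 0 := by
    by_contra hne
    have h3 : 1 ≤ ∑ j : Fin p, (run j M).size := Nat.one_le_iff_ne_zero.2 hne
    have h4 : p * 1 ≤ p * ∑ j : Fin p, (run j M).size := Nat.mul_le_mul_left p h3
    omega
  have h3 : ∀ j : Fin p, (run j M).size = 0 := by
    intro j
    exact (Finset.sum_eq_zero_iff.1 h2) j (Finset.mem_univ j)
  unfold core
  have h4 : (fun j : Fin p => vac (run j M).charge) = fun j : Fin p => run j M := by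
    funext j
    exact (eq_vac_of_size _ (h3 j)).symm
  rw [h4, glue_run]

theorem run_conj (j : Fin p) (M : Maya) : run j M.conj = (run j.rev M).conj := by
  refine maya_ext fun q => ?_
  change -1 - ((p : ℤ) * q + ((j : ℕ) : ℤ)) ∉ M.s ↔
    (p : ℤ) * (-1 - q) + ((j.rev : Fin p) : ℕ) ∉ M.s
  have h1 : (p : ℤ) * (-1 - q) + (((j.rev : Fin p) : ℕ) : ℤ) =
      -1 - ((p : ℤ) * q + ((j : ℕ) : ℤ)) := by
    rw [Fin.val_rev]
    have hj := j.2
    have h2 : ((p - ((j : ℕ) + 1) : ℕ) : ℤ) = (p : ℤ) - ((j : ℕ) + 1) := by omega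
    rw [h2]
    ring
  rw [h1]

theorem conj_vac (c : ℤ) : (vac c).conj = vac (-c) := by
  refine maya_ext fun x => ?_
  change ¬ (-1 - x < c) ↔ x < -c
  omega

theorem core_conj (M : Maya) : core p M.conj = (core p M).conj := by
  refine run_ext (p := p) fun j => ?_
  rw [run_conj]
  unfold core
  rw [run_glue, run_glue, run_conj, Maya.charge_conj, conj_vac]

end

theorem charge_norm (M : Maya) : (norm M).charge = 0 := by
  unfold norm
  rw [charge_shift]
  ring

theorem size_norm (M : Maya) : (norm M).size = M.size := by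
  unfold norm
  rw [size_shift]

theorem f_norm (M : Maya) : (norm M).f = M.f := by
  unfold norm
  rw [f_shift]

theorem shift_norm (M : Maya) : shift M.charge (norm M) = M := by
  refine maya_ext fun x => ?_
  change x - M.charge - -M.charge ∈ M.s ↔ x ∈ M.s
  rw [show x - M.charge - -M.charge = x by ring]

theorem norm_shift (c : ℤ) (M : Maya) (h : M.charge = 0) : norm (shift c M) = M := by
  refine maya_ext fun x => ?_
  unfold norm
  rw [charge_shift, h]
  change x - -(0 + c) - c ∈ M.s ↔ x ∈ M.s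
  rw [show x - -(0 + c) - c = x by ring]

theorem norm_conj (M : Maya) : norm M.conj = (norm M).conj := by
  refine maya_ext fun x => ?_
  unfold norm
  rw [Maya.charge_conj]
  change -1 - (x - - -M.charge) ∉ M.s ↔ -1 - x - -M.charge ∉ M.s
  rw [show -1 - (x - - -M.charge) = -1 - x - -M.charge by ring]

end Pool.Agent.Helper24.AN
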