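import Mathlib

/-!
L03 Burn: counting pairs (permutation, invariant colouring) (Mathlib only).

PROOF. Group the colourings `f : α → β` by their content `Z b = #{a | f a = b}` (`Finset.sum_fiberwise_of_maps_to`; the
content is in `piAntidiag univ (card α)`: `Finset.card_eq_sum_card_fiberwise`). So it is enough to show for each `Z` in
`piAntidiag univ (card α)`: `∑_σ #{f of content Z, f ∘ σ = f} = (card α)!`. The set `X_Z` of the `f` of content `Z` is not empty
(`∑ Z = card α`: e.g. an equivalence `α ≃ Σ b, Fin (Z b)`, by `Fintype.card_sigma`) and any two elements `f, f'` of it differ by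
a permutation: `Equiv.ofFiberEquiv` (fibres of equal cardinality) gives `τ` with `f' ∘ τ = f`. Fix `f₀ ∈ X_Z`. The map
`τ ↦ f₀ ∘ τ`, `Perm α → X_Z`, is surjective, and its fibre over `f = f₀ ∘ τ₀` is in bijection with `Stab f = {σ | f ∘ σ = f}` via
`τ = τ₀ σ` (`f₀ ∘ τ = f ↔ f ∘ (τ₀⁻¹ τ) = f`). So `(card α)! = card (Perm α) = ∑_(f ∈ X_Z) card (Stab f) = ∑_σ #{f ∈ X_Z | f ∘ σ = f}`
(`Finset.card_eq_sum_card_fiberwise`, `Finset.sum_comm`).
-/

set_option autoImplicit false

namespace Pool.Agent.Helper24.AN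

open Finset

private theorem lb_trans {α β : Type} [Fintype α] [DecidableEq α] [DecidableEq β]
    (f f₀ : α → β)
    (h : ∀ b, (univ.filter fun a => f a = b).card = (univ.filter fun a => f₀ a = b).card) :
    ∃ τ : Equiv.Perm α, ∀ a, f₀ (τ a) = f a := by
  have e : ∀ c : β, Nonempty ({a // f a = c} ≃ {a // f₀ a = c}) := by
    intro c
    refine ⟨Fintype.equivOfCardEq ?_⟩
    rw [Fintype.card_subtype, Fintype.card_subtype]
    exact h c
  refine ⟨Equiv.ofFiberEquiv (f := f) (g := f₀) fun c => (e c).some, fun a => ?_⟩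
  exact Equiv.ofFiberEquiv_map _ a

private theorem lb_exists {α β : Type} [Fintype α] [DecidableEq α] [Fintype β] [DecidableEq β]
    (Z : β → ℕ) (hZ : ∑ b, Z b = Fintype.card α) :
    ∃ f₀ : α → β, ∀ b, (univ.filter fun a => f₀ a = b).card = Z b := by
  have e : α ≃ (Σ b : β, Fin (Z b)) := Fintype.equivOfCardEq (by
    rw [Fintype.card_sigma]
    simp [hZ])
  refine ⟨fun a => (e a).1, fun b => ?_⟩
  rw [← Fintype.card_subtype]
  have e1 : {a : α // (e a).1 = b} ≃ {x : (Σ b : β, Fin (Z b)) // x.1 = b} :=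
    e.subtypeEquiv fun a => Iff.rfl
  have e2 : {x : (Σ b : β, Fin (Z b)) // x.1 = b} ≃ Fin (Z b) := Equiv.sigmaSubtype b
  rw [Fintype.card_congr (e1.trans e2), Fintype.card_fin]

private theorem lb_count {α β : Type} [Fintype α] [DecidableEq α] [Fintype β] [DecidableEq β]
    (Z : β → ℕ) (hZ : ∑ b, Z b = Fintype.card α) :
    ∑ f ∈ (univ : Finset (α → β)).filter (fun f => (fun b => (univ.filter fun a => f a = b).card) = Z),
      ((univ : Finset (Equiv.Perm α)).filter (fun σ => ∀ a, f (σ a) = f a)).card =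
      (Fintype.card α).factorial := by
  obtain ⟨f₀, hf₀⟩ := lb_exists (α := α) Z hZ
  rw [← Fintype.card_perm, ← Finset.card_univ]
  rw [Finset.card_eq_sum_card_fiberwise (f := fun τ : Equiv.Perm α => fun a => f₀ (τ a))
    (t := (univ : Finset (α → β)).filter (fun f => (fun b => (univ.filter fun a => f a = b).card) = Z))]
  · refine Finset.sum_congr rfl fun f hf => ?_
    rw [mem_filter] at hf
    obtain ⟨τ₀, hτ₀⟩ := lb_trans f f₀ (fun b => by
      rw [hf₀ b]
      exact congrFun hf.2 b)
    refine Finset.card_bij (fun σ _ => τ₀ * σ) ?_ ?_ ?_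
    · intro σ hσ
      rw [mem_filter] at hσ ⊢
      refine ⟨mem_univ _, ?_⟩
      funext a
      rw [Equiv.Perm.mul_apply, hτ₀]
      exact hσ.2 a
    · intro σ _ σ' _ h
      exact mul_left_cancel h
    · intro τ hτ
      rw [mem_filter] at hτ
      refine ⟨τ₀⁻¹ * τ, ?_, by simp⟩
      rw [mem_filter]
      refine ⟨mem_univ _, fun a => ?_⟩
      rw [← hτ₀, Equiv.Perm.mul_apply]
      have h1 : τ₀ (τ₀⁻¹ (τ a)) = τ a := by simp
      rw [h1]
      exact congrFun hτ.2 a
  · intro τ _
    simp only [coe_filter, mem_univ, true_and, Set.mem_ofPred_eq]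
    funext b
    rw [← hf₀ b]
    refine Finset.card_bij (fun a _ => τ a) ?_ ?_ ?_
    · intro a ha
      rw [mem_filter] at ha ⊢
      exact ⟨mem_univ _, ha.2⟩
    · intro a _ a' _ h
      exact τ.injective h
    · intro a ha
      rw [mem_filter] at ha
      refine ⟨τ.symm a, ?_, by simp⟩
      rw [mem_filter]
      refine ⟨mem_univ _, ?_⟩
      simp [ha.2]

theorem burnside_colour {α β : Type} [Fintype α] [DecidableEq α] [Fintype β] [DecidableEq β]
    (W : (β → ℕ) → ℤ) :
    ∑ σ : Equiv.Perm α, ∑ f : α → β,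
        (if ∀ a, f (σ a) = f a then W (fun b => (univ.filter fun a => f a = b).card) else 0) =
      ((Fintype.card α).factorial : ℤ) * ∑ Z ∈ piAntidiag (univ : Finset β) (Fintype.card α), W Z := by
  rw [Finset.sum_comm]
  have hmaps : ∀ f ∈ (univ : Finset (α → β)), (fun b => (univ.filter fun a => f a = b).card) ∈
      piAntidiag (univ : Finset β) (Fintype.card α) := by
    intro f _
    rw [mem_piAntidiag]
    refine ⟨?_, fun b _ => mem_univ b⟩
    rw [← Finset.card_univ]
    exact (Finset.card_eq_sum_card_fiberwise (f := f) (t := univ) (fun a _ => by simp)).symm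
  rw [← Finset.sum_fiberwise_of_maps_to hmaps, Finset.mul_sum]
  refine Finset.sum_congr rfl fun Z hZ => ?_
  rw [mem_piAntidiag] at hZ
  have h1 := lb_count (α := α) Z hZ.1
  have h2 : ∑ f ∈ (univ : Finset (α → β)).filter (fun f => (fun b => (univ.filter fun a => f a = b).card) = Z),
      ∑ σ : Equiv.Perm α,
        (if ∀ a, f (σ a) = f a then W (fun b => (univ.filter fun a => f a = b).card) else 0) =
      ∑ f ∈ (univ : Finset (α → β)).filter (fun f => (fun b => (univ.filter fun a => f a = b).card) = Z),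
        (((univ : Finset (Equiv.Perm α)).filter (fun σ => ∀ a, f (σ a) = f a)).card : ℤ) * W Z := by
    refine Finset.sum_congr rfl fun f hf => ?_
    rw [mem_filter] at hf
    rw [hf.2, ← Finset.sum_filter, Finset.sum_const, nsmul_eq_mul]
  rw [h2, ← Finset.sum_mul, ← h1]
  push_cast
  rfl

end Pool.Agent.Helper24.AN
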