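import Pool.Agent.Helper42.INC.Basic

/-!
L14 Card: the number of irreducible characters is at most the number of conjugacy classes.

PROOF. `irr_linearIndependent`: the irreducible characters are linearly independent in `G → ℂ`. They are class
functions (`Irr.isClass`), so each is `F ∘ ConjClasses.mk` for a unique `F : ConjClasses G → ℂ` (`Quotient.lift`;
`isConj_iff`). The linear map `(ConjClasses G → ℂ) → (G → ℂ)`, `F ↦ F ∘ mk`, so the family `F_χ` is linearly independent
(`LinearIndependent.of_comp`), and a linearly independent family in `ConjClasses G → ℂ` has at most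
`Fintype.card (ConjClasses G)` members (`LinearIndependent.fintype_card_le_finrank`, `Module.finrank_fintype_fun_eq_card`,
`LinearIndependent.finite`...).
-/

set_option autoImplicit false

namespace Pool.Agent.Helper24.AN

open Finset
open Pool.Agent.Helper42.INC

theorem irr_finite (G : Type) [Group G] [Finite G] : Finite (Irr G) :=
  Pool.Agent.Helper42.INC.irr_finite

theorem irr_card_le (G : Type) [Group G] [Finite G] : Nat.card (Irr G) ≤ Nat.card (ConjClasses G) := by
  classical
  have : Finite (Irr G) := Pool.Agent.Helper42.INC.irr_finite
  have : Fintype (Irr G) := Fintype.ofFinite _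
  have : Fintype (ConjClasses G) := Fintype.ofFinite _
  have hcl : ∀ χ : Irr G, ∃ F : ConjClasses G → ℂ, ∀ x, F (ConjClasses.mk x) = (χ : G → ℂ) x := by
    intro χ
    refine ⟨Quotient.lift (χ : G → ℂ) ?_, fun x => rfl⟩
    intro a b hab
    obtain ⟨c, hc⟩ := isConj_iff.1 (show IsConj a b from hab)
    rw [← hc]
    exact (Irr.isClass χ.2 c a).symm
  choose F hF using hcl
  let T : (ConjClasses G → ℂ) →ₗ[ℂ] (G → ℂ) :=
    { toFun := fun f x => f (ConjClasses.mk x)
      map_add' := fun f g => rfl
      map_smul' := fun c f => rfl }
  have hli : LinearIndependent ℂ F := by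
    apply LinearIndependent.of_comp T
    have : (T ∘ F) = fun χ : Irr G => (χ : G → ℂ) := by
      funext χ x
      exact hF χ x
    rw [this]
    exact irr_linearIndependent
  have h := hli.fintype_card_le_finrank
  rw [Module.finrank_fintype_fun_eq_card] at h
  rw [Nat.card_eq_fintype_card, Nat.card_eq_fintype_card]
  exact h

end Pool.Agent.Helper24.AN
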