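import Pool.Agent.Helper24.AN.LPhi

/-!
L08 Coef: coefficients.

PROOFS. `coeff_vander`: `det (X_j ^ i)_(i,j) = ∑_τ sign τ ∏_j X_j ^ (τ j)` (`Matrix.det_apply'`), so the coefficient of
`∏ X_j ^ (v j)` in `(∏ X_j ^ (c j)) * det` is `∑_τ sign τ [∀ j, v j = c j + τ j] = phi (v - c)` (as in the header of
`LRow`: `phi w = ∑_τ sign τ [∀ i, w i = τ i]`). Use `MvPolynomial.coeff` at `Finsupp.equivFunOnFinite.symm v`,
`MvPolynomial.monomial_eq`/`MvPolynomial.prod_X_pow_eq_monomial`.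
`coeff_alt`: `det (X_j ^ (u i))_(i,j) = ∑_τ sign τ ∏_j X_j ^ (u (τ j))`, coefficient of `∏ X_j ^ (v j)`: `∑_τ sign τ [∀ j, v j = u (τ j)]`; as
`u`, `v` are strictly increasing `v = u ∘ τ` forces `τ = 1` (a permutation with `u ∘ τ` monotone is monotone, so the identity), `v = u`.
-/

set_option autoImplicit false

namespace Pool.Agent.Helper24.AN

open Finset

private theorem phi_eq {N : ℕ} (w : Fin N → ℤ) :
    phi w = ∑ τ : Equiv.Perm (Fin N), ((Equiv.Perm.sign τ : ℤˣ) : ℤ) *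
      if ∀ i, w i = ((τ i : Fin N) : ℤ) then 1 else 0 := by
  unfold phi
  rw [← Matrix.det_transpose, Matrix.det_apply']
  refine Finset.sum_congr rfl fun τ _ => ?_
  congr 1
  by_cases h : ∀ i, w i = ((τ i : Fin N) : ℤ)
  · rw [if_pos h]
    refine Finset.prod_eq_one fun i _ => ?_
    rw [Matrix.transpose_apply, Matrix.of_apply, if_pos (h i)]
  · rw [if_neg h]
    push Not at h
    obtain ⟨i, hi⟩ := h
    refine Finset.prod_eq_zero (Finset.mem_univ i) ?_
    rw [Matrix.transpose_apply, Matrix.of_apply, if_neg hi]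

private theorem coeff_prod {N : ℕ} (v w : Fin N → ℕ) :
    MvPolynomial.coeff (Finsupp.equivFunOnFinite.symm v)
      (∏ j, (MvPolynomial.X j : MvPolynomial (Fin N) ℤ) ^ w j) = if w = v then 1 else 0 := by
  have h1 : (∏ j, (MvPolynomial.X j : MvPolynomial (Fin N) ℤ) ^ w j) =
      MvPolynomial.monomial (Finsupp.equivFunOnFinite.symm w) 1 := by
    rw [MvPolynomial.monomial_eq, Finsupp.prod_fintype _ _ (fun i => pow_zero _), map_one, one_mul]
    rfl
  rw [h1, MvPolynomial.coeff_monomial]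
  simp only [(Finsupp.equivFunOnFinite.symm.injective).eq_iff]

theorem coeff_vander {N : ℕ} (v c : Fin N → ℕ) :
    MvPolynomial.coeff (Finsupp.equivFunOnFinite.symm v)
        ((∏ j, (MvPolynomial.X j : MvPolynomial (Fin N) ℤ) ^ c j) *
          Matrix.det (Matrix.of fun i j : Fin N => (MvPolynomial.X j : MvPolynomial (Fin N) ℤ) ^ (i : ℕ))) =
      phi fun j => (v j : ℤ) - (c j : ℤ) := by
  rw [Matrix.det_apply', Finset.mul_sum, MvPolynomial.coeff_sum, phi_eq]
  refine Finset.sum_congr rfl fun τ _ => ?_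
  have h1 : (∏ j, (MvPolynomial.X j : MvPolynomial (Fin N) ℤ) ^ c j) *
      ((((Equiv.Perm.sign τ : ℤˣ) : ℤ) : MvPolynomial (Fin N) ℤ) *
        ∏ i, Matrix.of (fun i j : Fin N => (MvPolynomial.X j : MvPolynomial (Fin N) ℤ) ^ (i : ℕ)) (τ i) i) =
      ((Equiv.Perm.sign τ : ℤˣ) : ℤ) •
        ∏ j, (MvPolynomial.X j : MvPolynomial (Fin N) ℤ) ^ (c j + ((τ j : Fin N) : ℕ)) := by
    rw [zsmul_eq_mul, mul_left_comm, ← Finset.prod_mul_distrib]
    congr 1
    refine Finset.prod_congr rfl fun j _ => ?_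
    rw [Matrix.of_apply, pow_add]
  rw [h1, MvPolynomial.coeff_smul, coeff_prod, smul_eq_mul]
  congr 1
  refine if_congr ?_ rfl rfl
  constructor
  · intro h i
    have := congrFun h i
    omega
  · intro h
    funext i
    have := h i
    omega

theorem coeff_alt {N : ℕ} (u v : Fin N → ℕ) (hu : StrictMono u) (hv : StrictMono v) :
    MvPolynomial.coeff (Finsupp.equivFunOnFinite.symm v)
        (Matrix.det (Matrix.of fun i j : Fin N => (MvPolynomial.X j : MvPolynomial (Fin N) ℤ) ^ u i)) =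
      if u = v then 1 else 0 := by
  rw [Matrix.det_apply', MvPolynomial.coeff_sum]
  have h1 : ∀ τ : Equiv.Perm (Fin N), MvPolynomial.coeff (Finsupp.equivFunOnFinite.symm v)
      ((((Equiv.Perm.sign τ : ℤˣ) : ℤ) : MvPolynomial (Fin N) ℤ) *
        ∏ i, Matrix.of (fun i j : Fin N => (MvPolynomial.X j : MvPolynomial (Fin N) ℤ) ^ u i) (τ i) i) =
      ((Equiv.Perm.sign τ : ℤˣ) : ℤ) * if (fun j => u (τ j)) = v then 1 else 0 := by
    intro τ
    have h2 : (((Equiv.Perm.sign τ : ℤˣ) : ℤ) : MvPolynomial (Fin N) ℤ) *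
        ∏ i, Matrix.of (fun i j : Fin N => (MvPolynomial.X j : MvPolynomial (Fin N) ℤ) ^ u i) (τ i) i =
        ((Equiv.Perm.sign τ : ℤˣ) : ℤ) •
          ∏ j, (MvPolynomial.X j : MvPolynomial (Fin N) ℤ) ^ u (τ j) := by
      rw [zsmul_eq_mul]
      rfl
    rw [h2, MvPolynomial.coeff_smul, coeff_prod, smul_eq_mul]
  rw [Finset.sum_congr rfl fun τ _ => h1 τ]
  have h3 : ∀ τ : Equiv.Perm (Fin N), (fun j => u (τ j)) = v → τ = 1 := by
    intro τ hτ
    have h4 : StrictMono τ := by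
      intro a b hab
      have h5 := hv hab
      rw [← hτ] at h5
      exact hu.lt_iff_lt.1 h5
    have h6 : (⟨τ, h4.le_iff_le⟩ : Fin N ≃o Fin N) = OrderIso.refl (Fin N) := Subsingleton.elim _ _
    ext x
    have h7 := congrArg (fun e : Fin N ≃o Fin N => ((e x : Fin N) : ℕ)) h6
    simpa using h7
  rw [Finset.sum_eq_single (1 : Equiv.Perm (Fin N))]
  · simp
  · intro τ _ hτ
    rw [if_neg (fun h => hτ (h3 τ h)), mul_zero]
  · intro h
    exact absurd (Finset.mem_univ _) h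

end Pool.Agent.Helper24.AN
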