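import Pool.Agent.Helper42.INC.Basic

/-!
L13 Irr: a virtual character of norm one and positive degree is irreducible.

PROOF. `expand`: `f = ∑_ψ (B f ψ) ψ` over the irreducible characters; with `B f ψ = m_ψ`, integers, `B f f = ∑_ψ m_ψ ^ 2 = 1`
(`B_sum_left`, `B_smul_left`, `B_symm`, `B_irr`). So exactly one `m_ψ` is not `0` and it is `±1`; `f = ± ψ`. As `f 1 = d > 0`
and `ψ 1 > 0` (`irr_one`) the sign is `+`. (Compare the proof of `irr_of_norm_one` in `Helper42/INC/Basic`, which does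
the same for natural numbers; the finiteness of `Irr G` is used there too.)
-/

set_option autoImplicit false

namespace Pool.Agent.Helper24.AN

open Finset
open Pool.Agent.Helper42.INC

theorem irr_of_virtual {G : Type} [Group G] [Finite G] (f : G → ℂ) (hf : IsClass f)
    (hint : ∀ ψ ∈ Irr G, ∃ m : ℤ, B f ψ = m) (hn : B f f = 1) (h1 : ∃ d : ℕ, 0 < d ∧ f 1 = d) : f ∈ Irr G := by
  classical
  have := Fintype.ofFinite (Irr G)
  have hexp := expand f hf
  choose n hn' using fun χ : Irr G => hint χ.1 χ.2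
  have hsum : ∑ χ : Irr G, (n χ) ^ 2 = 1 := by
    have h2 : B f f = ∑ χ : Irr G, B f χ.1 * B f χ.1 := by
      nth_rewrite 1 [hexp]
      rw [B_sum_left]
      apply Finset.sum_congr rfl
      intro χ _
      rw [B_smul_left, B_symm χ.1 f]
    rw [hn] at h2
    have h3 : ((∑ χ : Irr G, (n χ) ^ 2 : ℤ) : ℂ) = 1 := by
      push_cast
      rw [h2]
      apply Finset.sum_congr rfl
      intro χ _
      rw [hn', sq]
    exact_mod_cast h3
  obtain ⟨χ₀, hχ₀⟩ : ∃ χ : Irr G, n χ ≠ 0 := by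
    by_contra hcon
    push Not at hcon
    simp [hcon] at hsum
  have hle : ∀ χ : Irr G, χ ≠ χ₀ → n χ = 0 := by
    intro χ hne
    by_contra h0
    have h2 : (n χ) ^ 2 + (n χ₀) ^ 2 ≤ ∑ χ : Irr G, (n χ) ^ 2 := by
      rw [← Finset.sum_pair hne (f := fun χ => (n χ) ^ 2)]
      exact Finset.sum_le_sum_of_subset_of_nonneg (Finset.subset_univ _)
        fun _ _ _ => sq_nonneg _
    have h3 : 1 ≤ (n χ) ^ 2 := by
      have := sq_nonneg (n χ)
      have h5 : (n χ) ^ 2 ≠ 0 := pow_ne_zero 2 h0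
      omega
    have h4 : 1 ≤ (n χ₀) ^ 2 := by
      have := sq_nonneg (n χ₀)
      have h5 : (n χ₀) ^ 2 ≠ 0 := pow_ne_zero 2 hχ₀
      omega
    omega
  have hn0 : (n χ₀) ^ 2 = 1 := by
    rw [Finset.sum_eq_single χ₀] at hsum
    · exact hsum
    · intro χ _ hne
      rw [hle χ hne]
      rfl
    · intro h; exact absurd (Finset.mem_univ _) h
  have hf' : f = (n χ₀ : ℂ) • χ₀.1 := by
    conv_lhs => rw [hexp]
    rw [Finset.sum_eq_single χ₀]
    · rw [hn']
    · intro χ _ hne
      rw [hn', hle χ hne]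
      simp
    · intro h; exact absurd (Finset.mem_univ _) h
  obtain ⟨d, hd, hd1⟩ := h1
  obtain ⟨k, hk, hk1⟩ := irr_one χ₀.2
  rcases (show n χ₀ = 1 ∨ n χ₀ = -1 from by
    have h8 : (n χ₀ - 1) * (n χ₀ + 1) = 0 := by linear_combination hn0
    rcases mul_eq_zero.1 h8 with h9 | h9
    · left; omega
    · right; omega) with h | h
  · rw [hf', h]
    simp
  · exfalso
    have h5 : f 1 = (n χ₀ : ℂ) * χ₀.1 1 := by
      conv_lhs => rw [hf']
      rfl
    rw [hd1, hk1, h] at h5
    push_cast at h5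
    have h6 : ((d + k : ℕ) : ℂ) = 0 := by
      push_cast
      rw [h5]
      ring
    have h7 : d + k = 0 := by exact_mod_cast h6
    omega

end Pool.Agent.Helper24.AN
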