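import Pool.Agent.Helper24.AN.LPos

/-!
L15 Part: there are at least as many beta sequences as conjugacy classes.

PROOF. `isB_finite`: `0 ≤ l i ≤ n + ∑ i` for all `i` (a nonnegative summand is at most the sum), so the set is a subset of a
finite box (`Set.Finite.subset`, `Set.finite_Icc` on `Fin n → ℤ`, `Set.Finite.pi`).
`card_conj_le`: an injective map `ConjClasses (Perm (Fin n)) → {l // IsB n l}` (`Nat.card_le_card_of_injective`). First
`ConjClasses (Perm (Fin n)) → (Fintype.card (Fin n)).Partition` by `Equiv.Perm.partition`; injective: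
`Equiv.Perm.partition_eq_of_isConj` (iff). Then to a partition `P` of `n` with multiset of parts `s` (all `> 0`, sum `n`, so at
most `n` parts) associate the multiset `s + replicate (n - card s) 0` of cardinality `n`, the sorted list `t` of it
(`Multiset.sort`, increasing), and `l i = t[i] + i`. It is strictly increasing (`t` is sorted), nonnegative, the sum is
`sum s + ∑ i` (`Fin.sum_univ_getElem` / `List.sum_ofFn`, `Multiset.sort_eq`). Injective: `l` determines `t`, `t` determines the
multiset, and `s` is its part `filter (· ≠ 0)`.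
-/

set_option autoImplicit false

namespace Pool.Agent.Helper24.AN

open Finset

theorem isB_finite (N n : ℕ) : Finite {l : Fin N → ℤ // IsB n l} := by
  have h : {l : Fin N → ℤ | IsB n l} ⊆
      Set.Icc (fun _ => (0 : ℤ)) (fun _ => (n : ℤ) + ∑ i : Fin N, (i : ℤ)) := by
    intro l hl
    refine ⟨fun i => hl.nn i, fun i => ?_⟩
    have h1 : l i ≤ ∑ j, l j := Finset.single_le_sum (fun j _ => hl.nn j) (Finset.mem_univ i)
    rw [hl.sum] at h1
    exact h1
  exact ((Set.finite_Icc _ _).subset h).to_subtype

/-- the beta sequence of a multiset of parts -/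
private noncomputable def lst (n : ℕ) (s : Multiset ℕ) : List ℕ :=
  (s + Multiset.replicate (n - Multiset.card s) 0).sort (· ≤ ·)

private noncomputable def beta (n : ℕ) (s : Multiset ℕ) (i : Fin n) : ℤ :=
  ((lst n s).getD i 0 : ℤ) + (i : ℤ)

private lemma card_le {n : ℕ} {s : Multiset ℕ} (hpos : ∀ x ∈ s, 0 < x) (hsum : s.sum = n) :
    Multiset.card s ≤ n := by
  have := Multiset.card_nsmul_le_sum (s := s) (a := 1) (fun x hx => hpos x hx)
  rw [hsum] at this
  simpa using this

private lemma length_lst {n : ℕ} {s : Multiset ℕ} (hpos : ∀ x ∈ s, 0 < x) (hsum : s.sum = n) :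
    (lst n s).length = n := by
  unfold lst
  rw [Multiset.length_sort, Multiset.card_add, Multiset.card_replicate]
  have := card_le hpos hsum
  omega

private lemma isB_beta {n : ℕ} {s : Multiset ℕ} (hpos : ∀ x ∈ s, 0 < x) (hsum : s.sum = n) :
    IsB n (beta n s) := by
  have hlen := length_lst hpos hsum
  refine ⟨?_, ?_, ?_⟩
  · intro i j hij
    unfold beta
    have h1 : (lst n s).getD i 0 ≤ (lst n s).getD j 0 := by
      have hs : (lst n s).Pairwise (· ≤ ·) := Multiset.pairwise_sort _ _
      have hi : (i : ℕ) < (lst n s).length := by rw [hlen]; exact i.2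
      have hj : (j : ℕ) < (lst n s).length := by rw [hlen]; exact j.2
      rw [List.getD_eq_getElem _ _ hi, List.getD_eq_getElem _ _ hj]
      exact List.pairwise_iff_getElem.1 hs i j hi hj hij
    have h2 : (i : ℕ) < (j : ℕ) := hij
    omega
  · intro i
    unfold beta
    positivity
  · unfold beta
    rw [Finset.sum_add_distrib]
    congr 1
    have h1 : (lst n s).sum = n := by
      have : (lst n s).sum = (s + Multiset.replicate (n - Multiset.card s) 0).sum := by
        conv_rhs => rw [← Multiset.sort_eq (s + Multiset.replicate (n - Multiset.card s) 0) (· ≤ ·)]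
        rw [Multiset.sum_coe]
        rfl
      rw [this]
      simp [hsum]
    have h2 : ∑ i : Fin n, (lst n s).getD i 0 = (lst n s).sum := by
      have key : ∀ (L : List ℕ) (k : ℕ), L.length = k → ∑ i : Fin k, L.getD i 0 = L.sum := by
        intro L k hk
        subst hk
        rw [← Fin.sum_univ_getElem]
        apply Finset.sum_congr rfl
        intro i _
        rw [List.getD_eq_getElem _ _ i.2]
      exact key _ _ hlen
    have h3 : ∑ i : Fin n, (((lst n s).getD i 0 : ℕ) : ℤ) = (n : ℤ) := by
      rw [← Nat.cast_sum, h2, h1]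
    exact h3

private lemma beta_inj {n : ℕ} {s t : Multiset ℕ} (hpos : ∀ x ∈ s, 0 < x) (hsum : s.sum = n)
    (hpos' : ∀ x ∈ t, 0 < x) (hsum' : t.sum = n) (h : beta n s = beta n t) : s = t := by
  have hl1 := length_lst hpos hsum
  have hl2 := length_lst hpos' hsum'
  have h1 : lst n s = lst n t := by
    apply List.ext_getElem (by rw [hl1, hl2])
    intro i hi hi'
    have h2 := congrFun h ⟨i, by rw [hl1] at hi; exact hi⟩
    unfold beta at h2
    simp only at h2
    rw [List.getD_eq_getElem _ _ hi, List.getD_eq_getElem _ _ hi'] at h2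
    omega
  have h2 : s + Multiset.replicate (n - Multiset.card s) 0 =
      t + Multiset.replicate (n - Multiset.card t) 0 := by
    rw [← Multiset.sort_eq (s + Multiset.replicate (n - Multiset.card s) 0) (· ≤ ·),
      ← Multiset.sort_eq (t + Multiset.replicate (n - Multiset.card t) 0) (· ≤ ·)]
    unfold lst at h1
    rw [h1]
  have h3 : ∀ (u : Multiset ℕ) (k : ℕ), (∀ x ∈ u, 0 < x) →
      (u + Multiset.replicate k 0).filter (fun x => 0 < x) = u := by
    intro u k hu
    rw [Multiset.filter_add, Multiset.filter_eq_self.2 hu, Multiset.filter_eq_nil.2, add_zero]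
    intro a ha
    rw [Multiset.eq_of_mem_replicate ha]
    exact lt_irrefl 0
  rw [← h3 s (n - Multiset.card s) hpos, h2, h3 t _ hpos']

theorem card_conj_le (n : ℕ) :
    Nat.card (ConjClasses (Equiv.Perm (Fin n))) ≤ Nat.card {l : Fin n → ℤ // IsB n l} := by
  classical
  have := isB_finite n n
  have hs : ∀ σ : Equiv.Perm (Fin n), σ.partition.parts.sum = n := fun σ => by
    rw [σ.partition.parts_sum, Fintype.card_fin]
  have hp : ∀ σ : Equiv.Perm (Fin n), ∀ x ∈ σ.partition.parts, 0 < x := fun σ x hx =>
    σ.partition.parts_pos hx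
  let g : Equiv.Perm (Fin n) → {l : Fin n → ℤ // IsB n l} := fun σ =>
    ⟨beta n σ.partition.parts, isB_beta (hp σ) (hs σ)⟩
  have hg : ∀ σ τ : Equiv.Perm (Fin n), IsConj σ τ → g σ = g τ := by
    intro σ τ h
    have h1 := Equiv.Perm.partition_eq_of_isConj.1 h
    simp only [g, h1]
  let G : ConjClasses (Equiv.Perm (Fin n)) → {l : Fin n → ℤ // IsB n l} :=
    Quotient.lift g hg
  apply Nat.card_le_card_of_injective G
  intro a b
  refine Quotient.inductionOn₂ a b ?_
  intro σ τ h
  have h1 : g σ = g τ := h
  have h2 : beta n σ.partition.parts = beta n τ.partition.parts := congrArg Subtype.val h1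
  have h3 := beta_inj (hp σ) (hs σ) (hp τ) (hs τ) h2
  exact Quotient.sound (Equiv.Perm.partition_eq_of_isConj.2 (Nat.Partition.ext h3))

end Pool.Agent.Helper24.AN
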