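import Pool.Agent.Helper24.AN.LPermC
import Pool.Agent.Helper24.AN.LClass

/-!
L12 Virt: `chi l` has integral inner products with the irreducible characters.

PROOF. For a content `Z` (a function `Fin N → ℤ`) let `X_Z = {f : Fin n → Fin N // cont f = Z}` with the action
`σ • f = f ∘ σ⁻¹` of `Perm (Fin n)` (`cont (f ∘ σ⁻¹) = cont f`). Then `chi l σ = ∑_(Z ∈ image of cont) phi (l - Z) * #{f ∈ X_Z | σ • f = f}`
(`Finset.sum_fiberwise_of_maps_to`-type rearrangement; `f ∘ σ⁻¹ = f` iff `f (σ a) = f a` for all `a`). So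
`B (chi l) ψ = ∑_Z phi (l - Z) * B (permutation character of X_Z) ψ` (`B_sum_left`, `B_smul_left`), an integer by `B_perm`.
(One can also use ONE set `X = {f : Fin n → Fin N}` decomposed by hand, or define the action on the subtype directly.)
-/

set_option autoImplicit false

namespace Pool.Agent.Helper24.AN

open Finset
open Pool.Agent.Helper42.INC

private theorem lv_cont {N n : ℕ} (f : Fin n → Fin N) (σ : Equiv.Perm (Fin n)) :
    cont (fun a => f (σ a)) = cont f := by
  funext i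
  unfold cont
  congr 1
  refine Finset.card_bij (fun a _ => σ a) ?_ ?_ ?_
  · intro a ha
    rw [mem_filter] at ha ⊢
    exact ⟨mem_univ _, ha.2⟩
  · intro a _ b _ h
    exact σ.injective h
  · intro b hb
    refine ⟨σ⁻¹ b, ?_, σ.apply_symm_apply b⟩
    rw [mem_filter] at hb ⊢
    refine ⟨mem_univ _, ?_⟩
    have h : σ (σ⁻¹ b) = b := σ.apply_symm_apply b
    change f (σ (σ⁻¹ b)) = i
    rw [h]
    exact hb.2

/-- colourings of given content -/
private abbrev XZ (n : ℕ) {N : ℕ} (Z : Fin N → ℤ) : Type := {f : Fin n → Fin N // cont f = Z}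

private instance lvAct {N n : ℕ} (Z : Fin N → ℤ) : MulAction (Equiv.Perm (Fin n)) (XZ n Z) where
  smul σ f := ⟨fun a => f.1 (σ⁻¹ a), (lv_cont f.1 σ⁻¹).trans f.2⟩
  one_smul f := rfl
  mul_smul σ τ f := by
    apply Subtype.ext
    funext a
    change f.1 ((σ * τ)⁻¹ a) = f.1 (τ⁻¹ (σ⁻¹ a))
    rw [mul_inv_rev]
    rfl

private theorem lv_fix {N n : ℕ} {Z : Fin N → ℤ} (σ : Equiv.Perm (Fin n)) (f : XZ n Z) :
    σ • f = f ↔ ∀ a, f.1 (σ a) = f.1 a := by
  constructor
  · intro h a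
    have h1 := congrFun (congrArg Subtype.val h) (σ a)
    have h2 : f.1 (σ⁻¹ (σ a)) = f.1 (σ a) := h1
    have h3 : σ⁻¹ (σ a) = a := σ.symm_apply_apply a
    rw [← h2, h3]
  · intro h
    apply Subtype.ext
    funext a
    change f.1 (σ⁻¹ a) = f.1 a
    have h3 : σ (σ⁻¹ a) = a := σ.apply_symm_apply a
    rw [← h (σ⁻¹ a), h3]

private theorem lv_chi {N n : ℕ} (l : Fin N → ℤ) (σ : Equiv.Perm (Fin n)) :
    chi l σ = ∑ Z ∈ (univ : Finset (Fin n → Fin N)).image cont,
      phi (fun i => l i - Z i) * ((univ.filter fun x : XZ n Z => σ • x = x).card : ℤ) := by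
  classical
  unfold chi
  rw [← Finset.sum_fiberwise_of_maps_to (s := univ) (g := cont)
    (t := (univ : Finset (Fin n → Fin N)).image cont)
    (fun f _ => mem_image_of_mem cont (mem_univ f))]
  refine Finset.sum_congr rfl fun Z _ => ?_
  have h1 : ∑ f ∈ univ.filter (fun f : Fin n → Fin N => cont f = Z),
      (if ∀ a, f (σ a) = f a then phi (fun i => l i - cont f i) else 0) =
      ∑ f ∈ univ.filter (fun f : Fin n → Fin N => cont f = Z),
      (if ∀ a, f (σ a) = f a then phi (fun i => l i - Z i) else 0) := by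
    refine Finset.sum_congr rfl fun f hf => ?_
    rw [(mem_filter.1 hf).2]
  rw [h1, ← Finset.sum_filter, Finset.sum_const, nsmul_eq_mul, mul_comm]
  congr 2
  symm
  refine Finset.card_bij (fun x _ => x.1) ?_ ?_ ?_
  · intro x hx
    rw [mem_filter, mem_filter]
    exact ⟨⟨mem_univ _, x.2⟩, (lv_fix σ x).1 (mem_filter.1 hx).2⟩
  · intro x _ y _ h
    exact Subtype.ext h
  · intro f hf
    rw [mem_filter, mem_filter] at hf
    refine ⟨⟨f, hf.1.2⟩, ?_, rfl⟩
    rw [mem_filter]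
    exact ⟨mem_univ _, (lv_fix σ _).2 hf.2⟩

theorem B_chi {N n : ℕ} (l : Fin N → ℤ) {ψ : Equiv.Perm (Fin n) → ℂ} (hψ : ψ ∈ Irr (Equiv.Perm (Fin n))) :
    ∃ m : ℤ, B (fun σ => ((chi l σ : ℤ) : ℂ)) ψ = m := by
  classical
  have hp : ∀ Z : Fin N → ℤ, ∃ m : ℕ, B (fun σ : Equiv.Perm (Fin n) =>
      ((univ.filter fun x : XZ n Z => σ • x = x).card : ℂ)) ψ = m := fun Z => B_perm hψ
  choose m hm using hp
  refine ⟨∑ Z ∈ (univ : Finset (Fin n → Fin N)).image cont, phi (fun i => l i - Z i) * (m Z : ℤ), ?_⟩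
  have h1 : (fun σ : Equiv.Perm (Fin n) => ((chi l σ : ℤ) : ℂ)) =
      ∑ Z ∈ (univ : Finset (Fin n → Fin N)).image cont,
        ((phi (fun i => l i - Z i) : ℤ) : ℂ) • (fun σ : Equiv.Perm (Fin n) =>
          ((univ.filter fun x : XZ n Z => σ • x = x).card : ℂ)) := by
    funext σ
    rw [lv_chi, Finset.sum_apply]
    push_cast
    rfl
  rw [h1, B_sum_left]
  push_cast
  refine Finset.sum_congr rfl fun Z _ => ?_
  rw [B_smul_left, hm]

end Pool.Agent.Helper24.AN
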