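import Pool.Agent.Helper24.AN.LOrth
import Pool.Agent.Helper24.AN.LVirt
import Pool.Agent.Helper24.AN.LIrr
import Pool.Agent.Helper24.AN.LCard
import Pool.Agent.Helper24.AN.LPart

/-!
L16 Comp: the irreducible characters of the symmetric group are the `chi l`.

PROOF. `chi_irr`: `irr_of_virtual` with `chi_conj` (class function), `B_chi`, `chi_one` and `FF_pos` (positive degree), and
`B f f = (n!)⁻¹ ∑_σ chi l σ * chi l σ⁻¹ = 1` (`B_eq`, `chi_inv`, `chi_orth`, `Nat.card (Perm (Fin n)) = n!`).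
`exists_chi_equiv`: the map `l ↦ chi l` is injective (if `chi l = chi m` and `l ≠ m` then `chi_orth` gives `n! = 0`); the cardinalities
satisfy `#IsB ≤ #Irr ≤ #ConjClasses ≤ #IsB` (`irr_card_le`, `card_conj_le`, finiteness `irr_finite`, `isB_finite`), so it is bijective
(`Function.Injective.bijective_of_nat_card_le`, or `Fintype.bijective_iff_injective_and_card`); `Equiv.ofBijective`.
-/

set_option autoImplicit false

namespace Pool.Agent.Helper24.AN

open Finset
open Pool.Agent.Helper42.INC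

theorem chi_irr {N n : ℕ} (l : Fin N → ℤ) (hl : IsB n l) :
    (fun σ : Equiv.Perm (Fin n) => ((chi l σ : ℤ) : ℂ)) ∈ Irr (Equiv.Perm (Fin n)) := by
  refine irr_of_virtual _ ?_ (fun ψ hψ => B_chi l hψ) ?_ ?_
  · intro g x
    change ((chi l (g * x * g⁻¹) : ℤ) : ℂ) = ((chi l x : ℤ) : ℂ)
    rw [chi_conj]
  · rw [B_eq]
    have h1 : ∑ x : Equiv.Perm (Fin n), ((chi l x : ℤ) : ℂ) * ((chi l x⁻¹ : ℤ) : ℂ) =
        ((∑ σ : Equiv.Perm (Fin n), chi l σ * chi l σ : ℤ) : ℂ) := by
      push_cast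
      refine Finset.sum_congr rfl fun x _ => ?_
      rw [chi_inv]
    rw [h1, chi_orth l l hl hl, if_pos rfl, Nat.card_eq_fintype_card, Fintype.card_perm,
      Fintype.card_fin]
    have h2 : ((n.factorial : ℕ) : ℂ) ≠ 0 := by exact_mod_cast (Nat.factorial_pos n).ne'
    push_cast
    exact inv_mul_cancel₀ h2
  · have h1 : 0 < FF n l := FF_pos l hl
    refine ⟨(FF n l).toNat, by omega, ?_⟩
    change ((chi l (1 : Equiv.Perm (Fin n)) : ℤ) : ℂ) = _
    rw [chi_one]
    have h2 : ((FF n l).toNat : ℤ) = FF n l := Int.toNat_of_nonneg h1.le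
    exact_mod_cast congrArg (fun z : ℤ => (z : ℂ)) h2.symm

theorem exists_chi_equiv (n : ℕ) :
    ∃ e : {l : Fin n → ℤ // IsB n l} ≃ Irr (Equiv.Perm (Fin n)),
      ∀ l, (e l).1 = fun σ : Equiv.Perm (Fin n) => ((chi l.1 σ : ℤ) : ℂ) := by
  have hf1 : Finite {l : Fin n → ℤ // IsB n l} := isB_finite n n
  have hf2 : Finite (Irr (Equiv.Perm (Fin n))) := Pool.Agent.Helper24.AN.irr_finite _
  let F : {l : Fin n → ℤ // IsB n l} → Irr (Equiv.Perm (Fin n)) := fun l => ⟨_, chi_irr l.1 l.2⟩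
  have hinj : Function.Injective F := by
    intro l m h
    by_contra hne
    have h1 : ∀ σ : Equiv.Perm (Fin n), chi l.1 σ = chi m.1 σ := by
      intro σ
      have h2 := congrFun (congrArg Subtype.val h) σ
      change ((chi l.1 σ : ℤ) : ℂ) = ((chi m.1 σ : ℤ) : ℂ) at h2
      exact_mod_cast h2
    have h3 := chi_orth l.1 m.1 l.2 m.2
    rw [if_neg (fun h4 => hne (Subtype.ext h4))] at h3
    have h5 := chi_orth m.1 m.1 m.2 m.2
    rw [if_pos rfl] at h5
    have h6 : ∑ σ : Equiv.Perm (Fin n), chi l.1 σ * chi m.1 σ =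
        ∑ σ : Equiv.Perm (Fin n), chi m.1 σ * chi m.1 σ :=
      Finset.sum_congr rfl fun σ _ => by rw [h1]
    rw [h3, h5] at h6
    have h7 := Nat.factorial_pos n
    omega
  have hbij : Function.Bijective F :=
    hinj.bijective_of_nat_card_le ((irr_card_le _).trans (card_conj_le n))
  exact ⟨Equiv.ofBijective F hbij, fun l => rfl⟩

end Pool.Agent.Helper24.AN
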