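import Mathlib

/-!
L17 Cyc: the orbits of a permutation and its sign (Mathlib only).

PROOF. Let `Q = Quotient (Equiv.Perm.SameCycle.setoid σ)` (finite), `q = Quotient.mk` followed by `Q ≃ Fin (card Q)`. Surjectivity
and `q a = q b ↔ σ.SameCycle a b` are `Quotient.eq`. Sign: `Equiv.Perm.sign_of_cycleType` (or `sign_of_cycleType'`) and `cycleType` =
the multiset of `#support c` over `c ∈ σ.cycleFactorsFinset` (`Equiv.Perm.cycleType_def`): `sign σ = ∏_(c ∈ cycleFactorsFinset) (-1) ^ (#c.support + 1)`.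
The orbits with one element contribute `(-1) ^ 2 = 1`; the orbits with at least two elements are in bijection with
`σ.cycleFactorsFinset` by `orbit of a ↦ σ.cycleOf a` (`Equiv.Perm.SameCycle.cycleOf_eq`, `Equiv.Perm.cycleOf_mem_cycleFactorsFinset_iff`,
`Equiv.Perm.mem_support_cycleOf_iff'`), and the fibre of `q` over the orbit of `a` (`σ a ≠ a`) is the support of `σ.cycleOf a`.
(Alternatively: induction on disjoint cycles, or any other proof.)
-/

set_option autoImplicit false

namespace Pool.Agent.Helper24.AN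

open Finset

theorem exists_orbits {n : ℕ} (σ : Equiv.Perm (Fin n)) :
    ∃ (k : ℕ) (q : Fin n → Fin k), Function.Surjective q ∧ (∀ a b, q a = q b ↔ σ.SameCycle a b) ∧
      ∏ j : Fin k, (-1 : ℤ) ^ ((univ.filter fun a => q a = j).card + 1) =
        ((Equiv.Perm.sign σ : ℤˣ) : ℤ) := by
  classical
  obtain ⟨k, ⟨e⟩⟩ := Finite.exists_equiv_fin (Quotient (Equiv.Perm.SameCycle.setoid σ))
  let q : Fin n → Fin k := fun a => e (Quotient.mk (Equiv.Perm.SameCycle.setoid σ) a)
  have hqs : Function.Surjective q := by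
    intro j
    obtain ⟨a, ha⟩ := Quotient.exists_rep (e.symm j)
    refine ⟨a, ?_⟩
    show e (Quotient.mk (Equiv.Perm.SameCycle.setoid σ) a) = j
    rw [ha, Equiv.apply_symm_apply]
  have hq : ∀ a b, q a = q b ↔ σ.SameCycle a b := by
    intro a b
    show e _ = e _ ↔ _
    rw [e.injective.eq_iff, Quotient.eq]
    rfl
  refine ⟨k, q, hqs, hq, ?_⟩
  let rep : Fin k → Fin n := Function.surjInv hqs
  have hrep : ∀ j, q (rep j) = j := fun j => Function.surjInv_eq hqs j
  have hsign : ((Equiv.Perm.sign σ : ℤˣ) : ℤ) =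
      ∏ c ∈ σ.cycleFactorsFinset, (-1 : ℤ) ^ (c.support.card + 1) := by
    rw [Equiv.Perm.sign_of_cycleType', Equiv.Perm.cycleType_def, Multiset.map_map]
    change ((∏ c ∈ σ.cycleFactorsFinset, -(-1 : ℤˣ) ^ c.support.card : ℤˣ) : ℤ) = _
    rw [Units.coe_prod]
    refine Finset.prod_congr rfl fun c _ => ?_
    push_cast
    ring
  rw [hsign]
  have h1 : ∏ j : Fin k, (-1 : ℤ) ^ ((univ.filter fun a => q a = j).card + 1) =
      ∏ j ∈ univ.filter (fun j : Fin k => rep j ∈ σ.support),
        (-1 : ℤ) ^ ((univ.filter fun a => q a = j).card + 1) := by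
    symm
    refine Finset.prod_subset (Finset.filter_subset _ _) ?_
    intro j _ hj
    rw [Finset.mem_filter] at hj
    have hfix : σ (rep j) = rep j := by
      by_contra hne
      exact hj ⟨mem_univ _, Equiv.Perm.mem_support.2 hne⟩
    have : (univ.filter fun a => q a = j) = {rep j} := by
      ext a
      rw [Finset.mem_filter, Finset.mem_singleton]
      constructor
      · rintro ⟨-, ha⟩
        have hs : σ.SameCycle (rep j) a := (hq _ _).1 (by rw [hrep, ha])
        exact (hs.eq_of_left hfix).symm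
      · rintro rfl
        exact ⟨mem_univ _, hrep j⟩
    rw [this, Finset.card_singleton]
    norm_num
  rw [h1]
  refine Finset.prod_bij (fun j _ => σ.cycleOf (rep j)) ?_ ?_ ?_ ?_
  · intro j hj
    rw [Finset.mem_filter] at hj
    exact Equiv.Perm.cycleOf_mem_cycleFactorsFinset_iff.2 hj.2
  · intro j hj i hi hij
    rw [Finset.mem_filter] at hj hi
    have h2 : rep j ∈ (σ.cycleOf (rep j)).support :=
      Equiv.Perm.mem_support_cycleOf_iff.2 ⟨Equiv.Perm.SameCycle.refl _ _, hj.2⟩
    rw [hij] at h2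
    have h3 := (Equiv.Perm.mem_support_cycleOf_iff.1 h2).1
    rw [← hrep j, ← hrep i]
    exact ((hq _ _).2 h3).symm
  · intro c hc
    have hcyc : c.IsCycle := (Equiv.Perm.mem_cycleFactorsFinset_iff.1 hc).1
    obtain ⟨a, ha⟩ := hcyc.nonempty_support
    have hca : c = σ.cycleOf a := Equiv.Perm.cycle_is_cycleOf ha hc
    have hs : σ.SameCycle (rep (q a)) a := (hq _ _).1 (hrep (q a))
    have hae : σ.cycleOf (rep (q a)) = σ.cycleOf a := hs.cycleOf_eq
    refine ⟨q a, ?_, ?_⟩
    · rw [Finset.mem_filter]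
      refine ⟨mem_univ _, ?_⟩
      rw [← Equiv.Perm.cycleOf_mem_cycleFactorsFinset_iff, hae, ← hca]
      exact hc
    · show σ.cycleOf (rep (q a)) = c
      rw [hae, ← hca]
  · intro j hj
    rw [Finset.mem_filter] at hj
    have : (univ.filter fun a => q a = j) = (σ.cycleOf (rep j)).support := by
      ext a
      rw [Finset.mem_filter, Equiv.Perm.mem_support_cycleOf_iff]
      constructor
      · rintro ⟨-, ha⟩
        exact ⟨(hq _ _).1 (by rw [hrep, ha]), hj.2⟩
      · rintro ⟨h, -⟩
        refine ⟨mem_univ _, ?_⟩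
        rw [← (hq _ _).2 h, hrep]
    rw [this]

end Pool.Agent.Helper24.AN
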