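import Mathlib

/-!
# Project AN (MP_5ecade_al), linear half: definitions (Mathlib only)

`l : Fin N → ℤ` is a sequence of positions (beta numbers); a strictly increasing sequence of nonnegative
integers with `∑ l i = n + (0 + 1 + ... + (N-1))` describes a partition of `n`.
`phi l` is the sign of `l` if `l` is a rearrangement of `0, ..., N-1`, and `0` otherwise.
`cont f i` is the number of `a` with `f a = i`.
`FF n l = ∑_{f : Fin n → Fin N} phi (l - cont f)` (the degree), `chi l σ` the same sum over the
`σ`-invariant colourings `f` (Frobenius' formula for the character of the partition).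
`CL [m₁, ..., m_k] l = ∑_{g : Fin k → Fin N} phi (l - ∑_a m_a e_(g a))`.
-/

set_option autoImplicit false

namespace Pool.Agent.Helper24.AN

open Finset

/-- the sign of `l` if `l` is a rearrangement of `0, ..., N - 1`, and `0` otherwise -/
def phi {N : ℕ} (l : Fin N → ℤ) : ℤ :=
  Matrix.det (Matrix.of fun i j : Fin N => if l i = (j : ℤ) then (1 : ℤ) else 0)

/-- the content of a colouring -/
def cont {α : Type} [Fintype α] {N : ℕ} (f : α → Fin N) (i : Fin N) : ℤ :=
  ((univ.filter fun a => f a = i).card : ℤ)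

/-- the degree -/
def FF {N : ℕ} (n : ℕ) (l : Fin N → ℤ) : ℤ := ∑ f : Fin n → Fin N, phi fun i => l i - cont f i

/-- the character -/
def chi {N n : ℕ} (l : Fin N → ℤ) (σ : Equiv.Perm (Fin n)) : ℤ :=
  ∑ f : Fin n → Fin N, if ∀ a, f (σ a) = f a then phi fun i => l i - cont f i else 0

/-- lower the `i`-th entry by `m` -/
def low {N : ℕ} (l : Fin N → ℤ) (i : Fin N) (m : ℕ) (j : Fin N) : ℤ :=
  l j - if j = i then (m : ℤ) else 0

/-- iterated sum -/
def CL {N : ℕ} : List ℕ → (Fin N → ℤ) → ℤ
  | [], l => phi l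
  | (m :: L), l => ∑ i : Fin N, CL L (low l i m)

/-- beta sequences of partitions of `n` -/
structure IsB {N : ℕ} (n : ℕ) (l : Fin N → ℤ) : Prop where
  mono : StrictMono l
  nn : ∀ i, 0 ≤ l i
  sum : ∑ i, l i = n + ∑ i : Fin N, (i : ℤ)

end Pool.Agent.Helper24.AN
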