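import Pool.Agent.Helper24.AN.LBurn
import Pool.Agent.Helper24.AN.LPhi

/-!
L04 Gram: the Gram matrix of the `chi l`.

PROOF. `chi l σ * chi m σ = ∑_(f, g) [f ∘ σ = f] [g ∘ σ = g] phi (l - cont f) phi (m - cont g)` (`Finset.sum_mul_sum`); a pair `(f, g)` of
colourings is one colouring `h : Fin n → Fin N × Fin N`, `h a = (f a, g a)` (`Equiv.arrowProdEquivProdArrow`), invariant iff both
are, and `cont f i = ∑_j Z (i, j)`, `cont g j = ∑_i Z (i, j)` for the content `Z` of `h` (the fibre of `f` over `i` is the disjoint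
union of the fibres of `h` over `(i, j)`: `Finset.card_eq_sum_card_fiberwise`). So the sum over `σ` is the left side of
`burnside_colour` with `W Z = phi (l - row Z) * phi (m - col Z)`.
-/

set_option autoImplicit false

namespace Pool.Agent.Helper24.AN

open Finset

private theorem gram_fst {N n : ℕ} (h : Fin n → Fin N × Fin N) (i : Fin N) :
    cont (fun a => (h a).1) i = ∑ j, ((univ.filter fun a => h a = (i, j)).card : ℤ) := by
  unfold cont
  rw [Finset.card_eq_sum_card_fiberwise (f := fun a => (h a).2) (t := univ)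
    (fun a _ => Finset.mem_coe.2 (mem_univ _))]
  push_cast
  apply sum_congr rfl
  intro j _
  congr 2
  ext a
  simp [Prod.ext_iff]

private theorem gram_snd {N n : ℕ} (h : Fin n → Fin N × Fin N) (j : Fin N) :
    cont (fun a => (h a).2) j = ∑ i, ((univ.filter fun a => h a = (i, j)).card : ℤ) := by
  unfold cont
  rw [Finset.card_eq_sum_card_fiberwise (f := fun a => (h a).1) (t := univ)
    (fun a _ => Finset.mem_coe.2 (mem_univ _))]
  push_cast
  apply sum_congr rfl
  intro i _
  congr 2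
  ext a
  simp [Prod.ext_iff, and_comm]

private theorem gram_key {N n : ℕ} (l m : Fin N → ℤ) (σ : Equiv.Perm (Fin n)) :
    chi l σ * chi m σ = ∑ h : Fin n → Fin N × Fin N,
      (if ∀ a, h (σ a) = h a then
        (fun Z : Fin N × Fin N → ℕ => phi (fun i => l i - ∑ j, (Z (i, j) : ℤ)) *
          phi (fun j => m j - ∑ i, (Z (i, j) : ℤ))) (fun b => (univ.filter fun a => h a = b).card)
        else 0) := by
  unfold chi
  rw [Finset.sum_mul_sum, ← Fintype.sum_prod_type']
  symm
  apply Fintype.sum_equiv (Equiv.arrowProdEquivProdArrow (Fin n) (fun _ => Fin N) (fun _ => Fin N))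
  intro h
  have h1 : (∀ a, h (σ a) = h a) ↔ (∀ a, (h (σ a)).1 = (h a).1) ∧ (∀ a, (h (σ a)).2 = (h a).2) := by
    constructor
    · intro H
      exact ⟨fun a => by rw [H a], fun a => by rw [H a]⟩
    · rintro ⟨H1, H2⟩ a
      exact Prod.ext (H1 a) (H2 a)
  have h2 : ∀ i, ∑ j, ((univ.filter fun a => h a = (i, j)).card : ℤ) = cont (fun a => (h a).1) i :=
    fun i => (gram_fst h i).symm
  have h3 : ∀ j, ∑ i, ((univ.filter fun a => h a = (i, j)).card : ℤ) = cont (fun a => (h a).2) j :=
    fun j => (gram_snd h j).symm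
  simp only [h2, h3]
  show _ = (if ∀ a, (h (σ a)).1 = (h a).1 then phi fun i => l i - cont (fun a => (h a).1) i else 0) *
    (if ∀ a, (h (σ a)).2 = (h a).2 then phi fun i => m i - cont (fun a => (h a).2) i else 0)
  by_cases H1 : ∀ a, (h (σ a)).1 = (h a).1
  · by_cases H2 : ∀ a, (h (σ a)).2 = (h a).2
    · rw [if_pos (h1.2 ⟨H1, H2⟩), if_pos H1, if_pos H2]
    · rw [if_neg (fun H => H2 (h1.1 H).2), if_neg H2, mul_zero]
  · rw [if_neg (fun H => H1 (h1.1 H).1), if_neg H1, zero_mul]

theorem gram_burn {N n : ℕ} (l m : Fin N → ℤ) :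
    ∑ σ : Equiv.Perm (Fin n), chi l σ * chi m σ =
      (n.factorial : ℤ) * ∑ Z ∈ piAntidiag (univ : Finset (Fin N × Fin N)) n,
        phi (fun i => l i - ∑ j, (Z (i, j) : ℤ)) * phi (fun j => m j - ∑ i, (Z (i, j) : ℤ)) := by
  rw [Finset.sum_congr rfl (fun σ _ => gram_key l m σ)]
  have hb := burnside_colour (α := Fin n) (β := Fin N × Fin N)
    (fun Z : Fin N × Fin N → ℕ => phi (fun i => l i - ∑ j, (Z (i, j) : ℤ)) *
          phi (fun j => m j - ∑ i, (Z (i, j) : ℤ)))
  rw [Fintype.card_fin] at hb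
  rw [← hb]
  apply Finset.sum_congr rfl
  intro σ _
  apply Finset.sum_congr rfl
  intro h _
  by_cases H : ∀ a, h (σ a) = h a
  · rw [if_pos H, if_pos H]
  · rw [if_neg H, if_neg H]

end Pool.Agent.Helper24.AN
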