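import Pool.Agent.Helper24.AN.LSymm

/-!
L06 JT: the Jacobi-Trudi identity.

PROOF. Let `E = (ee j k)_(k, j)`, `H_u = (hz (u i - k))_(i, k)`. By `sum_ee_hz`, `H_u * E = (X_j ^ (u i))_(i, j)`. For `u i = i`: `H` is lower
triangular with ones on the diagonal (`hz (i - k) = 0` for `k > i`, `hz 0 = 1`; `Matrix.det_of_lowerTriangular`), so
`det E = det (X_j ^ i)_(i, j)`. Hence `det H_u * det (X_j ^ i) = det H_u * det E = det (H_u * E) = det (X_j ^ (u i))`.
-/

set_option autoImplicit false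

namespace Pool.Agent.Helper24.AN

open Finset

theorem jacobi_trudi {N : ℕ} (u : Fin N → ℕ) :
    Matrix.det (Matrix.of fun i k : Fin N => hz N ((u i : ℤ) - ((k : ℕ) : ℤ))) *
        Matrix.det (Matrix.of fun i j : Fin N => (MvPolynomial.X j : MvPolynomial (Fin N) ℤ) ^ (i : ℕ)) =
      Matrix.det (Matrix.of fun i j : Fin N => (MvPolynomial.X j : MvPolynomial (Fin N) ℤ) ^ u i) := by
  have hmul : ∀ v : Fin N → ℕ,
      (Matrix.of fun i k : Fin N => hz N ((v i : ℤ) - ((k : ℕ) : ℤ))) *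
        (Matrix.of fun k j : Fin N => ee j (k : ℕ)) =
      Matrix.of fun i j : Fin N => (MvPolynomial.X j : MvPolynomial (Fin N) ℤ) ^ v i := by
    intro v
    ext1 i j
    rw [Matrix.mul_apply, Matrix.of_apply, ← sum_ee_hz j (v i)]
    refine Finset.sum_congr rfl fun k _ => ?_
    rw [Matrix.of_apply, Matrix.of_apply, mul_comm]
  have hlow : Matrix.det (Matrix.of fun i k : Fin N => hz N (((i : ℕ) : ℤ) - ((k : ℕ) : ℤ))) = 1 := by
    rw [Matrix.det_of_lowerTriangular]
    · refine Finset.prod_eq_one fun i _ => ?_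
      rw [Matrix.of_apply, sub_self, hz_zero]
    · intro i k hik
      have h1 : i < k := OrderDual.toDual_lt_toDual.mp hik
      rw [Matrix.of_apply, hz, if_pos]
      have h2 : (i : ℕ) < (k : ℕ) := h1
      omega
  have h1 := congrArg Matrix.det (hmul fun i => (i : ℕ))
  rw [Matrix.det_mul, hlow, one_mul] at h1
  rw [← h1, ← Matrix.det_mul, hmul u]

end Pool.Agent.Helper24.AN
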