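import Pool.Agent.Helper24.AN.LSymm
import Pool.Agent.Helper24.AN.LPhi

/-!
L07 Row: expansion of `det (hz (u i - k))` into monomials.

PROOF. Left side: `Matrix.det_apply'`, `det M = ∑_τ sign τ ∏_i M (τ i) i`; use the transpose (`Matrix.det_transpose`) to write it as
`∑_τ sign τ ∏_i hz (u i - τ i)`. Right side: `phi w = ∑_τ sign τ [∀ i, w i = τ i]` in the same way (the product of the
indicators `if w i = τ i then 1 else 0` is the indicator of `∀ i`, `Finset.prod_ite_zero` or `Fintype.prod_ite`). Exchange the sums;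
it remains to show for each `τ`: `∏_i hz (u i - τ i) = ∑_(Z ∈ piAntidiag univ n, ∀ i, u i - ∑_j Z (i, j) = τ i) ∏_j X_j ^ (∑_i Z (i, j))`.
If some `u i < τ i` both sides are `0`. Otherwise the left side is `∏_i ∑_(z_i, |z_i| = u i - τ i) ∏_j X_j ^ (z_i j)`
`= ∑_(z ∈ Fintype.piFinset ...) ∏_i ∏_j X_j ^ (z i j)` (`Finset.prod_univ_sum`), `Z (i, j) = z i j` is a bijection onto the set of the
`Z` with row sums `u i - τ i`, and the total of such a `Z` is `∑ u i - ∑ τ i = n` (`hu`, `Equiv.sum_comp`).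
-/

set_option autoImplicit false

namespace Pool.Agent.Helper24.AN

open Finset

private theorem row_aux {N n : ℕ} (m : Fin N → ℤ) (hm : ∑ i, m i = n) :
    ∏ i, hz N (m i) = ∑ Z ∈ piAntidiag (univ : Finset (Fin N × Fin N)) n,
      if ∀ i, ∑ j, (Z (i, j) : ℤ) = m i then
        ∏ j, (MvPolynomial.X j : MvPolynomial (Fin N) ℤ) ^ (∑ i, Z (i, j)) else 0 := by
  classical
  by_cases hneg : ∃ i, m i < 0
  · obtain ⟨i, hi⟩ := hneg
    rw [Finset.prod_eq_zero (mem_univ i) (by simp [hz, hi])]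
    symm
    refine Finset.sum_eq_zero fun Z _ => if_neg fun h => ?_
    have h1 := h i
    have h2 : (0 : ℤ) ≤ ∑ j, (Z (i, j) : ℤ) := Finset.sum_nonneg fun j _ => by positivity
    omega
  · push Not at hneg
    have hk : ∃ k : Fin N → ℕ, ∀ i, m i = (k i : ℤ) := ⟨fun i => (m i).toNat, fun i => by
      rw [Int.toNat_of_nonneg (hneg i)]⟩
    obtain ⟨k, hk⟩ := hk
    have hsum : ∑ i, k i = n := by
      have h1 : ∑ i, (k i : ℤ) = n := by rw [← hm]; exact Finset.sum_congr rfl fun i _ => (hk i).symm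
      exact_mod_cast h1
    have hL : ∏ i, hz N (m i) = ∏ i, ∑ z ∈ piAntidiag (univ : Finset (Fin N)) (k i),
        ∏ j, (MvPolynomial.X j : MvPolynomial (Fin N) ℤ) ^ z j := by
      refine Finset.prod_congr rfl fun i _ => ?_
      rw [hk i, hz, if_neg (not_lt.mpr (Int.natCast_nonneg _)), hh]
      simp
    rw [hL, Finset.prod_univ_sum, ← Finset.sum_filter]
    refine Finset.sum_nbij' (fun p => fun x : Fin N × Fin N => p x.1 x.2) (fun Z => fun i j => Z (i, j)) ?_ ?_ ?_ ?_ ?_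
    · intro p hp
      rw [Fintype.mem_piFinset] at hp
      have hp' : ∀ i, ∑ j, p i j = k i := fun i => (mem_piAntidiag.mp (hp i)).1
      rw [mem_filter, mem_piAntidiag]
      refine ⟨⟨?_, fun _ _ => mem_univ _⟩, fun i => ?_⟩
      · rw [Fintype.sum_prod_type, ← hsum]
        exact Finset.sum_congr rfl fun i _ => hp' i
      · rw [hk i, ← hp' i]; push_cast; rfl
    · intro Z hZ
      rw [mem_filter, mem_piAntidiag] at hZ
      rw [Fintype.mem_piFinset]
      intro i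
      rw [mem_piAntidiag]
      refine ⟨?_, fun _ _ => mem_univ _⟩
      have h1 := hZ.2 i
      rw [hk i] at h1
      exact_mod_cast h1
    · intro p _; rfl
    · intro Z _; rfl
    · intro p _
      rw [Finset.prod_comm]
      exact Finset.prod_congr rfl fun j _ => by rw [Finset.prod_pow_eq_pow_sum]

theorem det_hz {N n : ℕ} (u : Fin N → ℕ) (hu : ∑ i, u i = n + ∑ i : Fin N, (i : ℕ)) :
    Matrix.det (Matrix.of fun i k : Fin N => hz N ((u i : ℤ) - ((k : ℕ) : ℤ))) =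
      ∑ Z ∈ piAntidiag (univ : Finset (Fin N × Fin N)) n,
        MvPolynomial.C (phi fun i => (u i : ℤ) - ∑ j, (Z (i, j) : ℤ)) *
          ∏ j, MvPolynomial.X j ^ (∑ i, Z (i, j)) := by
  classical
  have hphi : ∀ w : Fin N → ℤ, phi w = ∑ τ : Equiv.Perm (Fin N),
      ((Equiv.Perm.sign τ : ℤˣ) : ℤ) * if ∀ i, w i = (((τ i : Fin N) : ℕ) : ℤ) then 1 else 0 := by
    intro w
    rw [phi, ← Matrix.det_transpose, Matrix.det_apply']
    refine Finset.sum_congr rfl fun τ _ => ?_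
    congr 1
    simp only [Matrix.transpose_apply, Matrix.of_apply]
    rw [Finset.prod_ite_zero]
    simp
  rw [← Matrix.det_transpose, Matrix.det_apply']
  have hR : ∀ Z : Fin N × Fin N → ℕ, (MvPolynomial.C (phi fun i => (u i : ℤ) - ∑ j, (Z (i, j) : ℤ)) *
          ∏ j, (MvPolynomial.X j : MvPolynomial (Fin N) ℤ) ^ (∑ i, Z (i, j))) =
      ∑ τ : Equiv.Perm (Fin N), ((((Equiv.Perm.sign τ : ℤˣ) : ℤ)) : MvPolynomial (Fin N) ℤ) *
        if ∀ i, ∑ j, (Z (i, j) : ℤ) = (u i : ℤ) - (((τ i : Fin N) : ℕ) : ℤ) then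
          ∏ j, (MvPolynomial.X j : MvPolynomial (Fin N) ℤ) ^ (∑ i, Z (i, j)) else 0 := by
    intro Z
    rw [hphi, map_sum, Finset.sum_mul]
    refine Finset.sum_congr rfl fun τ _ => ?_
    rw [map_mul, mul_assoc]
    have hiff : (∀ i, (u i : ℤ) - ∑ j, (Z (i, j) : ℤ) = (((τ i : Fin N) : ℕ) : ℤ)) ↔
          ∀ i, ∑ j, (Z (i, j) : ℤ) = (u i : ℤ) - (((τ i : Fin N) : ℕ) : ℤ) :=
        forall_congr' fun i => by constructor <;> intro h <;> linarith
    by_cases h : ∀ i, (u i : ℤ) - ∑ j, (Z (i, j) : ℤ) = (((τ i : Fin N) : ℕ) : ℤ)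
    · rw [if_pos h, if_pos (hiff.mp h)]; simp
    · rw [if_neg h, if_neg (fun h' => h (hiff.mpr h'))]; simp
  rw [Finset.sum_congr rfl fun Z _ => hR Z, Finset.sum_comm]
  refine Finset.sum_congr rfl fun τ _ => ?_
  rw [← Finset.mul_sum, ← row_aux]
  · simp only [Matrix.transpose_apply, Matrix.of_apply]
  · rw [Finset.sum_sub_distrib]
    have h1 : ∑ i, (((τ i : Fin N) : ℕ) : ℤ) = ∑ i : Fin N, (((i : Fin N) : ℕ) : ℤ) :=
      Equiv.sum_comp τ fun i : Fin N => ((i : ℕ) : ℤ)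
    have h2 : ∑ i, (u i : ℤ) = (n : ℤ) + ∑ i : Fin N, ((i : ℕ) : ℤ) := by exact_mod_cast hu
    rw [h1, h2]; ring

end Pool.Agent.Helper24.AN
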