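import Pool.Agent.Helper24.AN.LGram
import Pool.Agent.Helper24.AN.LJT
import Pool.Agent.Helper24.AN.LRow
import Pool.Agent.Helper24.AN.LCoef

/-!
L09 Orth: the `chi l`, `l` a beta sequence, are orthonormal.

PROOF. Let `u i = (l i).toNat`, `v j = (m j).toNat` (so `l i = u i`, `m j = v j`, `u`, `v` strictly increasing). By `det_hz`,
`jacobi_trudi`: `∑_Z C (phi (u - row Z)) ∏_j X_j ^ (col Z j) * V = det (X_j ^ (u i))`, `V = det (X_j ^ i)`. Take the coefficient at `v`:
`∑_Z phi (u - row Z) phi (v - col Z) = [u = v]` (`coeff_vander` with `c j = ∑_i Z (i, j)`, `coeff_alt`). Insert this in `gram_burn`.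
-/

set_option autoImplicit false

namespace Pool.Agent.Helper24.AN

open Finset

private theorem isB_nat {N n : ℕ} {l : Fin N → ℤ} (hl : IsB n l) :
    ∃ u : Fin N → ℕ, (∀ i, l i = (u i : ℤ)) ∧ StrictMono u ∧ ∑ i, u i = n + ∑ i : Fin N, (i : ℕ) := by
  refine ⟨fun i => (l i).toNat, fun i => (Int.toNat_of_nonneg (hl.nn i)).symm, ?_, ?_⟩
  · intro i j hij
    have h1 := hl.mono hij
    have h2 := hl.nn i
    change (l i).toNat < (l j).toNat
    omega
  · have h := hl.sum
    have h1 : ∀ i, ((l i).toNat : ℤ) = l i := fun i => Int.toNat_of_nonneg (hl.nn i)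
    have h2 : ((∑ i, (l i).toNat : ℕ) : ℤ) = ((n + ∑ i : Fin N, (i : ℕ) : ℕ) : ℤ) := by
      push_cast
      rw [← h]
      exact Finset.sum_congr rfl fun i _ => h1 i
    exact_mod_cast h2

theorem cauchy_sum {N n : ℕ} (l m : Fin N → ℤ) (hl : IsB n l) (hm : IsB n m) :
    ∑ Z ∈ piAntidiag (univ : Finset (Fin N × Fin N)) n,
        phi (fun i => l i - ∑ j, (Z (i, j) : ℤ)) * phi (fun j => m j - ∑ i, (Z (i, j) : ℤ)) =
      if l = m then 1 else 0 := by
  obtain ⟨u, hu, hum, hus⟩ := isB_nat hl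
  obtain ⟨v, hv, hvm, hvs⟩ := isB_nat hm
  have h1 := jacobi_trudi u
  rw [det_hz u hus, Finset.sum_mul] at h1
  have h2 := congrArg (MvPolynomial.coeff (Finsupp.equivFunOnFinite.symm v)) h1
  rw [coeff_alt u v hum hvm, MvPolynomial.coeff_sum] at h2
  have h3 : (u = v) ↔ (l = m) := by
    constructor
    · intro h
      funext i
      rw [hu, hv, h]
    · intro h
      funext i
      have := congrFun h i
      rw [hu, hv] at this
      exact_mod_cast this
  rw [if_congr h3 rfl rfl] at h2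
  rw [← h2]
  refine Finset.sum_congr rfl fun Z _ => ?_
  rw [mul_assoc, MvPolynomial.coeff_C_mul, coeff_vander]
  congr 1
  · congr 1
    funext i
    rw [hu]
  · congr 1
    funext j
    rw [hv]
    push_cast
    rfl

theorem chi_orth {N n : ℕ} (l m : Fin N → ℤ) (hl : IsB n l) (hm : IsB n m) :
    ∑ σ : Equiv.Perm (Fin n), chi l σ * chi m σ = if l = m then (n.factorial : ℤ) else 0 := by
  rw [gram_burn, cauchy_sum l m hl hm]
  split_ifs <;> simp

end Pool.Agent.Helper24.AN
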