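import Pool.Agent.Helper42.INC.Basic

/-!
L11 PermC: the multiplicity of an irreducible character in a permutation character is a natural number.

PROOF. The permutation representation on `V = X → ℂ`: `(ρ g F) x = F (g⁻¹ • x)` (a `Representation ℂ G (X → ℂ)`; there may be
something ready in Mathlib: `Representation.ofMulAction`, `Representation.ofMulAction_apply`, `X →₀ ℂ`; look for a
lemma on its character, otherwise compute `LinearMap.trace` with the standard basis `Pi.basisFun ℂ X`:
`LinearMap.trace_eq_matrix_trace`, `LinearMap.toMatrix_apply`, the diagonal entry at `x` is `1` if `g • x = x` and `0` otherwise).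
So the function `g ↦ #{x | g • x = x}` is `ρ.character`. If `ψ ∈ Irr G` then `ψ` is the character of a finite dimensional
representation (unfold `Irr` in `Helper42/INC/Defs`), and `INC.B_char` (`Helper42/INC/Basic`) says that `B` of two
characters is a dimension.
-/

set_option autoImplicit false

namespace Pool.Agent.Helper24.AN

open Finset
open Pool.Agent.Helper42.INC

/-- the permutation representation on the functions on `X` -/
private noncomputable def permRep (G X : Type) [Group G] [MulAction G X] : Representation ℂ G (X → ℂ) where
  toFun g := LinearMap.funLeft ℂ ℂ (fun x : X => g⁻¹ • x)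
  map_one' := by
    ext F x
    simp
  map_mul' g h := by
    ext F x
    simp [mul_smul]

private theorem permRep_apply {G X : Type} [Group G] [MulAction G X] (g : G) (F : X → ℂ) (x : X) :
    permRep G X g F x = F (g⁻¹ • x) := rfl

private theorem permRep_char {G X : Type} [Group G] [MulAction G X] [Fintype X] [DecidableEq X] (g : G) :
    (permRep G X).character g = ((univ.filter fun x : X => g • x = x).card : ℂ) := by
  unfold Representation.character
  rw [LinearMap.trace_eq_matrix_trace ℂ (Pi.basisFun ℂ X), Matrix.trace]
  rw [← Finset.sum_boole]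
  refine Finset.sum_congr rfl fun x _ => ?_
  rw [Matrix.diag_apply, LinearMap.toMatrix_apply, Pi.basisFun_apply, Pi.basisFun_repr, permRep_apply,
    Pi.single_apply]
  by_cases h : g • x = x
  · rw [if_pos h, if_pos]
    rw [inv_smul_eq_iff]
    exact h.symm
  · rw [if_neg h, if_neg]
    rw [inv_smul_eq_iff]
    exact fun h' => h h'.symm

theorem B_perm {G X : Type} [Group G] [Finite G] [MulAction G X] [Fintype X] [DecidableEq X] {ψ : G → ℂ}
    (hψ : ψ ∈ Irr G) :
    ∃ m : ℕ, B (fun g : G => ((univ.filter fun x : X => g • x = x).card : ℂ)) ψ = m := by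
  obtain ⟨V, _, _, _, ρ, _, rfl⟩ := hψ
  obtain ⟨m, hm⟩ := B_char (permRep G X) ρ
  refine ⟨m, ?_⟩
  rw [← hm]
  congr 1
  funext g
  exact (permRep_char g).symm

end Pool.Agent.Helper24.AN
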