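import Mathlib

/-!
L05 Symm: complete symmetric polynomials and elementary symmetric polynomials without one variable (Mathlib only).

`hh N k = ∑_(z, |z| = k) ∏ X_i ^ z_i`, `hz m = hh m` for `m ≥ 0` and `0` for `m < 0`; `ee j k` = coefficient of `T ^ k` in
`∏_(i ≠ j) (1 - X_i T)`.

PROOFS. In `PowerSeries (MvPolynomial (Fin N) ℤ)` let `G_i = mk (fun z => X_i ^ z)`; `(1 - X_i T) G_i = 1` (coefficients: `z = 0`: `1`;
`z + 1`: `X_i^(z+1) - X_i X_i^z = 0`; or `PowerSeries.mk_one_mul_one_sub_eq_one`-type lemma). `coeff k (∏_i G_i) = hh N k`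
(`PowerSeries.coeff_prod` gives a sum over `finsuppAntidiag univ k`; transfer to `piAntidiag` with
`Finset.map_finsuppAntidiag`-type lemma or `Finset.sum_bij`). So
`(∏_(i ≠ j) (1 - X_i T)) * ∏_i G_i = G_j` (`Finset.mul_prod_erase`, `Finset.prod_mul_distrib`), and the coefficient of `T ^ a` is
`∑_(k ≤ a) ee j k * hh (a - k) = X_j ^ a` (`PowerSeries.coeff_mul`, antidiagonal). `ee j k = 0` for `k ≥ N`: the product is the
image of a polynomial of degree `≤ N - 1` (induction on the finset: coefficients of `∏_(i ∈ s) (1 - C x_i * T)` vanish above `card s`).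
`sum_ee_hz`: the terms with `k > a` have `hz (a - k) = 0` and the terms with `k ≥ N` have `ee j k = 0`.
-/

set_option autoImplicit false

namespace Pool.Agent.Helper24.AN

open Finset

/-- complete symmetric polynomial -/
noncomputable def hh (N k : ℕ) : MvPolynomial (Fin N) ℤ :=
  ∑ z ∈ piAntidiag (univ : Finset (Fin N)) k, ∏ i, MvPolynomial.X i ^ z i

/-- complete symmetric polynomial with an integer index -/
noncomputable def hz (N : ℕ) (m : ℤ) : MvPolynomial (Fin N) ℤ := if m < 0 then 0 else hh N m.toNat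

/-- coefficients of `∏_(i ≠ j) (1 - X_i T)` -/
noncomputable def ee {N : ℕ} (j : Fin N) (k : ℕ) : MvPolynomial (Fin N) ℤ :=
  PowerSeries.coeff k (∏ i ∈ univ.erase j, (1 - PowerSeries.C (MvPolynomial.X i) * PowerSeries.X) :
    PowerSeries (MvPolynomial (Fin N) ℤ))

theorem hz_zero (N : ℕ) : hz N 0 = 1 := by
  unfold hz hh
  rw [if_neg (lt_irrefl _), Int.toNat_zero, piAntidiag_zero, Finset.sum_singleton]
  exact Finset.prod_eq_one fun i _ => by rw [Pi.zero_apply, pow_zero]

private theorem geo {N : ℕ} (i : Fin N) :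
    (1 - PowerSeries.C (MvPolynomial.X i) * PowerSeries.X :
      PowerSeries (MvPolynomial (Fin N) ℤ)) *
      PowerSeries.mk (fun z => (MvPolynomial.X i : MvPolynomial (Fin N) ℤ) ^ z) = 1 := by
  rw [sub_mul, one_mul, mul_assoc]
  ext n : 1
  rw [map_sub, PowerSeries.coeff_C_mul, PowerSeries.coeff_mk, PowerSeries.coeff_one]
  rcases n with _ | n
  · rw [PowerSeries.coeff_zero_X_mul, mul_zero, sub_zero, pow_zero, if_pos rfl]
  · rw [PowerSeries.coeff_succ_X_mul, PowerSeries.coeff_mk, if_neg (Nat.succ_ne_zero n),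
      pow_succ', sub_self]

private theorem coeff_geo (N k : ℕ) :
    PowerSeries.coeff k (∏ i : Fin N,
      PowerSeries.mk (fun z => (MvPolynomial.X i : MvPolynomial (Fin N) ℤ) ^ z)) = hh N k := by
  classical
  rw [PowerSeries.coeff_prod]
  unfold hh
  refine Finset.sum_nbij' (fun l => (l : Fin N → ℕ))
    (fun z => Finsupp.equivFunOnFinite.symm z) ?_ ?_ ?_ ?_ ?_
  · intro l hl
    rw [mem_finsuppAntidiag] at hl
    rw [mem_piAntidiag]
    exact ⟨hl.1, fun i _ => Finset.mem_univ i⟩
  · intro z hz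
    rw [mem_piAntidiag] at hz
    rw [mem_finsuppAntidiag]
    exact ⟨hz.1, Finset.subset_univ _⟩
  · intro l _
    ext i
    rfl
  · intro z _
    rfl
  · intro l _
    refine Finset.prod_congr rfl fun i _ => ?_
    rw [PowerSeries.coeff_mk]

private theorem coeff_lin {N : ℕ} (s : Finset (Fin N)) :
    ∀ k, s.card < k → PowerSeries.coeff k (∏ i ∈ s,
      (1 - PowerSeries.C (MvPolynomial.X i) * PowerSeries.X) :
      PowerSeries (MvPolynomial (Fin N) ℤ)) = 0 := by
  classical
  induction s using Finset.induction_on with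
  | empty =>
    intro k hk
    rw [Finset.prod_empty, PowerSeries.coeff_one, if_neg]
    rw [Finset.card_empty] at hk
    exact hk.ne'
  | insert a s ha ih =>
    intro k hk
    rw [Finset.card_insert_of_notMem ha] at hk
    rw [Finset.prod_insert ha, sub_mul, one_mul, mul_assoc, map_sub, PowerSeries.coeff_C_mul,
      ih k (by omega)]
    obtain ⟨m, rfl⟩ : ∃ m, k = m + 1 := ⟨k - 1, by omega⟩
    rw [PowerSeries.coeff_succ_X_mul, ih m (by omega), mul_zero, sub_zero]

private theorem ee_zero {N : ℕ} (j : Fin N) {k : ℕ} (hk : N ≤ k) : ee j k = 0 := by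
  unfold ee
  apply coeff_lin
  rw [Finset.card_erase_of_mem (Finset.mem_univ j), Finset.card_univ, Fintype.card_fin]
  have := j.2
  omega

private theorem prod_geo {N : ℕ} (j : Fin N) :
    (∏ i ∈ univ.erase j, (1 - PowerSeries.C (MvPolynomial.X i) * PowerSeries.X) :
      PowerSeries (MvPolynomial (Fin N) ℤ)) * (∏ i : Fin N,
      PowerSeries.mk (fun z => (MvPolynomial.X i : MvPolynomial (Fin N) ℤ) ^ z)) =
    PowerSeries.mk (fun z => (MvPolynomial.X j : MvPolynomial (Fin N) ℤ) ^ z) := by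
  classical
  rw [← Finset.prod_erase_mul univ _ (Finset.mem_univ j), ← mul_assoc,
    ← Finset.prod_mul_distrib, Finset.prod_congr rfl fun i _ => geo i, Finset.prod_const_one,
    one_mul]

theorem sum_ee_hz {N : ℕ} (j : Fin N) (a : ℕ) :
    ∑ k : Fin N, ee j (k : ℕ) * hz N ((a : ℤ) - (k : ℕ)) = MvPolynomial.X j ^ a := by
  classical
  have h1 : ∑ k ∈ range (a + 1), ee j k * hz N ((a : ℤ) - (k : ℕ)) =
      MvPolynomial.X j ^ a := by
    have h2 := congrArg (PowerSeries.coeff a) (prod_geo j)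
    rw [PowerSeries.coeff_mk, PowerSeries.coeff_mul] at h2
    rw [← h2, Finset.Nat.sum_antidiagonal_eq_sum_range_succ_mk]
    refine Finset.sum_congr rfl fun k hk => ?_
    rw [Finset.mem_range] at hk
    rw [coeff_geo]
    have h3 : hz N ((a : ℤ) - (k : ℕ)) = hh N (a - k) := by
      unfold hz
      rw [if_neg (by omega)]
      congr 1
      omega
    rw [h3]
    rfl
  rw [← h1, Fin.sum_univ_eq_sum_range (fun k => ee j k * hz N ((a : ℤ) - (k : ℕ))) N]
  have hA : ∑ k ∈ range N, ee j k * hz N ((a : ℤ) - (k : ℕ)) =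
      ∑ k ∈ range (N + (a + 1)), ee j k * hz N ((a : ℤ) - (k : ℕ)) := by
    refine Finset.sum_subset (Finset.range_subset_range.mpr (by omega)) fun k _ hk => ?_
    rw [Finset.mem_range, not_lt] at hk
    rw [ee_zero j hk, zero_mul]
  have hB : ∑ k ∈ range (a + 1), ee j k * hz N ((a : ℤ) - (k : ℕ)) =
      ∑ k ∈ range (N + (a + 1)), ee j k * hz N ((a : ℤ) - (k : ℕ)) := by
    refine Finset.sum_subset (Finset.range_subset_range.mpr (by omega)) fun k _ hk => ?_
    rw [Finset.mem_range, not_lt] at hk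
    unfold hz
    rw [if_pos (by omega), mul_zero]
  rw [hA, hB]

end Pool.Agent.Helper24.AN
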