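import Pool.Agent.Helper24.AN.MDefs

/-!
M01 Charge: charge and size of Maya diagrams, shifts, vacuum.

PROOFS. `finite_beads`, `finite_holes`: subsets of intervals `Set.Ico`/`Set.Ioo` given by `M.low`, `M.high`.
`charge_cut`: both sides satisfy the same recursion when `c` is replaced by `c + 1` (if `c` is a bead, the first set loses
`c`; otherwise the second set gains `c`: `Set.ncard_insert_of_notMem`, `Set.ncard_diff_singleton_of_mem`), and for `c = 0` it is
the definition of `charge`; `Int.induction_on`.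
`finite_inv`: with `a` below which there are only beads, `b` above which there are none: an inversion lies in `[a, b) x [a, b)`.
`charge_vac`: `charge_cut` with the cut `c`: both sets are empty. `size_vac`: no inversions.
`eq_vac_of_size`: no inversions means that `M.s` is a lower set; so if `c` is the smallest hole (exists: bounded
below by `low`, nonempty by `high`; `Int.exists_least_of_bdd`) then `M.s = {x | x < c}`, and `c = charge` by `charge_vac`.
`charge_shift`: `charge_cut (shift c M) c`: the sets are the translates of the sets for `(M, 0)` (`Set.ncard_congr` or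
`Set.ncard_image_of_injective`). `size_shift`: translate the inversions. `f_shift`: `fAux k (shift c M) = fAux k M` by induction on `k`
(`down (shift c M) (x + c) = shift c (down M x)`; change of variables in the finsum: `finsum_mem_eq_of_bijOn` or
`finsum_mem_image`), and `size_shift`.
-/

set_option autoImplicit false

namespace Pool.Agent.Helper24.AN

open Finset
open Pool.Agent.Helper81.AN

theorem finite_beads (M : Maya) (c : ℤ) : {x : ℤ | c ≤ x ∧ x ∈ M.s}.Finite := by
  obtain ⟨N, hN⟩ := M.high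
  refine (Set.finite_Ico c N).subset fun x hx => ⟨hx.1, ?_⟩
  by_contra h
  exact hN x (not_lt.1 h) hx.2

theorem finite_holes (M : Maya) (c : ℤ) : {x : ℤ | x < c ∧ x ∉ M.s}.Finite := by
  obtain ⟨N, hN⟩ := M.low
  refine (Set.finite_Ico N c).subset fun x hx => ⟨?_, hx.1⟩
  by_contra h
  exact hx.2 (hN x (not_le.1 h))

private theorem cut_step (M : Maya) (c : ℤ) :
    (Set.ncard {x : ℤ | c + 1 ≤ x ∧ x ∈ M.s} : ℤ) - Set.ncard {x : ℤ | x < c + 1 ∧ x ∉ M.s} =
      (Set.ncard {x : ℤ | c ≤ x ∧ x ∈ M.s} : ℤ) - Set.ncard {x : ℤ | x < c ∧ x ∉ M.s} - 1 := by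
  by_cases hc : c ∈ M.s
  · have h1 : {x : ℤ | c ≤ x ∧ x ∈ M.s} = insert c {x : ℤ | c + 1 ≤ x ∧ x ∈ M.s} := by
      ext x
      constructor
      · rintro ⟨h, h'⟩
        by_cases hx : x = c
        · exact Or.inl hx
        · exact Or.inr ⟨by omega, h'⟩
      · rintro (h | ⟨h, h'⟩)
        · rw [h]
          exact ⟨le_refl c, hc⟩
        · exact ⟨by omega, h'⟩
    have h2 : {x : ℤ | x < c + 1 ∧ x ∉ M.s} = {x : ℤ | x < c ∧ x ∉ M.s} := by
      ext x
      constructor
      · rintro ⟨h, h'⟩
        refine ⟨?_, h'⟩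
        by_contra hx
        have : x = c := by omega
        exact h' (this ▸ hc)
      · rintro ⟨h, h'⟩
        exact ⟨by omega, h'⟩
    rw [h1, h2, Set.ncard_insert_of_notMem (fun h => by have := h.1; omega)
      (finite_beads M (c + 1))]
    push_cast
    ring
  · have h1 : {x : ℤ | x < c + 1 ∧ x ∉ M.s} = insert c {x : ℤ | x < c ∧ x ∉ M.s} := by
      ext x
      constructor
      · rintro ⟨h, h'⟩
        by_cases hx : x = c
        · exact Or.inl hx
        · exact Or.inr ⟨by omega, h'⟩
      · rintro (h | ⟨h, h'⟩)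
        · rw [h]
          exact ⟨by omega, hc⟩
        · exact ⟨by omega, h'⟩
    have h2 : {x : ℤ | c + 1 ≤ x ∧ x ∈ M.s} = {x : ℤ | c ≤ x ∧ x ∈ M.s} := by
      ext x
      constructor
      · rintro ⟨h, h'⟩
        exact ⟨by omega, h'⟩
      · rintro ⟨h, h'⟩
        refine ⟨?_, h'⟩
        by_contra hx
        have : x = c := by omega
        exact hc (this ▸ h')
    rw [h1, h2, Set.ncard_insert_of_notMem (fun h => by have := h.1; omega) (finite_holes M c)]
    push_cast
    ring

theorem charge_cut (M : Maya) (c : ℤ) :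
    (Set.ncard {x : ℤ | c ≤ x ∧ x ∈ M.s} : ℤ) - Set.ncard {x : ℤ | x < c ∧ x ∉ M.s} = M.charge - c := by
  induction c using Int.induction_on with
  | zero =>
    unfold Maya.charge
    ring
  | succ i ih =>
    rw [cut_step, ih]
    ring
  | pred i ih =>
    have h := cut_step M (-(i : ℤ) - 1)
    rw [sub_add_cancel] at h
    rw [h] at ih
    linarith

theorem finite_inv (M : Maya) : {q : ℤ × ℤ | q.1 < q.2 ∧ q.1 ∉ M.s ∧ q.2 ∈ M.s}.Finite := by
  obtain ⟨N, hN⟩ := M.low
  obtain ⟨K, hK⟩ := M.high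
  refine ((Set.finite_Ico N K).prod (Set.finite_Ico N K)).subset fun q hq => ?_
  obtain ⟨h1, h2, h3⟩ := hq
  have h4 : N ≤ q.1 := by
    by_contra h
    exact h2 (hN _ (not_le.1 h))
  have h5 : q.2 < K := by
    by_contra h
    exact hK _ (not_lt.1 h) h3
  exact ⟨⟨h4, h1.trans h5⟩, ⟨h4.trans h1.le, h5⟩⟩

theorem charge_vac (c : ℤ) : (vac c).charge = c := by
  have h := charge_cut (vac c) c
  have h1 : {x : ℤ | c ≤ x ∧ x ∈ (vac c).s} = ∅ := by
    refine Set.eq_empty_of_forall_notMem fun x hx => ?_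
    have h2 : x < c := hx.2
    exact absurd hx.1 (not_le.2 h2)
  have h2 : {x : ℤ | x < c ∧ x ∉ (vac c).s} = ∅ := by
    refine Set.eq_empty_of_forall_notMem fun x hx => ?_
    have h2 : ¬ x < c := hx.2
    exact h2 hx.1
  rw [h1, h2, Set.ncard_empty] at h
  push_cast at h
  linarith

theorem size_vac (c : ℤ) : (vac c).size = 0 := by
  unfold Maya.size
  have h1 : {q : ℤ × ℤ | q.1 < q.2 ∧ q.1 ∉ (vac c).s ∧ q.2 ∈ (vac c).s} = ∅ := by
    refine Set.eq_empty_of_forall_notMem fun q hq => ?_
    have h1 := hq.1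
    have h2 : ¬ q.1 < c := hq.2.1
    have h3 : q.2 < c := hq.2.2
    omega
  rw [h1, Set.ncard_empty]

theorem eq_vac_of_size (M : Maya) (h : M.size = 0) : M = vac M.charge := by
  have h0 := (Set.ncard_eq_zero (finite_inv M)).1 h
  obtain ⟨N, hN⟩ := M.low
  obtain ⟨K, hK⟩ := M.high
  obtain ⟨c, hc, hmin⟩ := Int.exists_least_of_bdd (P := fun x : ℤ => x ∉ M.s)
    ⟨N, fun z hz => by
      by_contra h1
      exact hz (hN z (not_le.1 h1))⟩ ⟨K, hK K le_rfl⟩
  have h1 : M = vac c := by
    refine maya_ext fun x => ?_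
    constructor
    · intro hx
      change x < c
      by_contra hlt
      rcases (not_lt.1 hlt).lt_or_eq with h2 | h2
      · have h3 : ((c, x) : ℤ × ℤ) ∈ {q : ℤ × ℤ | q.1 < q.2 ∧ q.1 ∉ M.s ∧ q.2 ∈ M.s} :=
          ⟨h2, hc, hx⟩
        rw [h0] at h3
        exact h3
      · exact hc (h2 ▸ hx)
    · intro hx
      by_contra h2
      have h3 : x < c := hx
      have := hmin x h2
      omega
  have h2 : M.charge = c := by
    rw [h1, charge_vac]
  rw [h2]
  exact h1

theorem charge_shift (c : ℤ) (M : Maya) : (shift c M).charge = M.charge + c := by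
  have h := charge_cut (shift c M) c
  have h1 : Set.ncard {x : ℤ | c ≤ x ∧ x ∈ (shift c M).s} = Set.ncard {x : ℤ | 0 ≤ x ∧ x ∈ M.s} := by
    refine Set.ncard_congr (fun x _ => x - c) ?_ ?_ ?_
    · intro x hx
      exact ⟨sub_nonneg.2 hx.1, hx.2⟩
    · intro x y _ _ hxy
      omega
    · intro y hy
      refine ⟨y + c, ⟨by have := hy.1; omega, ?_⟩, by omega⟩
      change y + c - c ∈ M.s
      rw [add_sub_cancel_right]
      exact hy.2
  have h2 : Set.ncard {x : ℤ | x < c ∧ x ∉ (shift c M).s} = Set.ncard {x : ℤ | x < 0 ∧ x ∉ M.s} := by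
    refine Set.ncard_congr (fun x _ => x - c) ?_ ?_ ?_
    · intro x hx
      exact ⟨sub_neg.2 hx.1, hx.2⟩
    · intro x y _ _ hxy
      omega
    · intro y hy
      refine ⟨y + c, ⟨by have := hy.1; omega, ?_⟩, by omega⟩
      change ¬ (y + c - c ∈ M.s)
      rw [add_sub_cancel_right]
      exact hy.2
  rw [h1, h2] at h
  unfold Maya.charge at h ⊢
  linarith

theorem size_shift (c : ℤ) (M : Maya) : (shift c M).size = M.size := by
  unfold Maya.size
  refine Set.ncard_congr (fun q _ => (q.1 - c, q.2 - c)) ?_ ?_ ?_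
  · intro q hq
    exact ⟨by have := hq.1; simp only; omega, hq.2.1, hq.2.2⟩
  · intro q q' _ _ h
    simp only [Prod.mk.injEq] at h
    exact Prod.ext (by omega) (by omega)
  · intro q hq
    refine ⟨(q.1 + c, q.2 + c), ⟨by have := hq.1; simp only; omega, ?_, ?_⟩, by simp⟩
    · change ¬ (q.1 + c - c ∈ M.s)
      rw [add_sub_cancel_right]
      exact hq.2.1
    · change q.2 + c - c ∈ M.s
      rw [add_sub_cancel_right]
      exact hq.2.2

private theorem down_shift (c : ℤ) (M : Maya) (x : ℤ) :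
    (shift c M).down (x + c) = shift c (M.down x) := by
  refine maya_ext fun y => ?_
  change ((y - c ∈ M.s ∧ y ≠ x + c) ∨ y = x + c - 1) ↔ ((y - c ∈ M.s ∧ y - c ≠ x) ∨ y - c = x - 1)
  have h1 : y ≠ x + c ↔ y - c ≠ x := by omega
  have h2 : y = x + c - 1 ↔ y - c = x - 1 := by omega
  rw [h1, h2]

private theorem fAux_shift (c : ℤ) (k : ℕ) (M : Maya) :
    Maya.fAux k (shift c M) = Maya.fAux k M := by
  induction k generalizing M with
  | zero => rfl
  | succ k ih =>
    change ∑ᶠ x ∈ {x : ℤ | x ∈ (shift c M).s ∧ x - 1 ∉ (shift c M).s},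
        Maya.fAux k ((shift c M).down x) =
      ∑ᶠ x ∈ {x : ℤ | x ∈ M.s ∧ x - 1 ∉ M.s}, Maya.fAux k (M.down x)
    symm
    refine finsum_mem_eq_of_bijOn (fun x => x + c) ⟨?_, ?_, ?_⟩ ?_
    · intro x hx
      refine ⟨?_, ?_⟩
      · change x + c - c ∈ M.s
        rw [add_sub_cancel_right]
        exact hx.1
      · change ¬ (x + c - 1 - c ∈ M.s)
        have e : x + c - 1 - c = x - 1 := by ring
        rw [e]
        exact hx.2
    · intro x _ y _ hxy
      exact add_right_cancel hxy
    · intro y hy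
      refine ⟨y - c, ⟨hy.1, ?_⟩, sub_add_cancel y c⟩
      have e : y - c - 1 = y - 1 - c := by ring
      rw [e]
      exact hy.2
    · intro x _
      rw [down_shift, ih]

theorem f_shift (c : ℤ) (M : Maya) : (shift c M).f = M.f := by
  unfold Maya.f
  rw [size_shift, fAux_shift]

end Pool.Agent.Helper24.AN
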