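import Pool.Agent.Helper81.AN.Defs
import Pool.Agent.Helper24.AN.LDefs

/-!
# Project AN (MP_5ecade_al), linear half: Maya diagrams

`mayaL K l`: beads at the places `l i - K` and at all places `< -K`. `move M x m`: the bead `x` moves to `x - m`.
`mn L M`: Murnaghan-Nakayama sum. `vac c`: beads at all places `< c`. `shift c M`: all beads move up by `c`.
`run j M`: the `j`-th runner of the `p`-abacus; `glue F`: the Maya diagram with runners `F j`. `core M`: the `p`-core.
`norm M`: shifted to charge `0`.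
-/

set_option autoImplicit false

namespace Pool.Agent.Helper24.AN

open Finset
open Pool.Agent.Helper81.AN

theorem maya_ext {M M' : Maya} (h : ∀ x, x ∈ M.s ↔ x ∈ M'.s) : M = M' := by
  have hs : M.s = M'.s := Set.ext h
  cases M
  cases M'
  simp only at hs
  subst hs
  rfl

/-- beads at the places `l i - K` and at all places `< -K` -/
def mayaL {N : ℕ} (K : ℤ) (l : Fin N → ℤ) : Maya where
  s := {x | x < -K ∨ ∃ i, x + K = l i}
  low := ⟨-K, fun _ hx => Or.inl hx⟩
  high := by
    obtain ⟨b, hb⟩ := (Set.finite_range l).bddAbove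
    refine ⟨max (-K) (b - K + 1), fun x hx h => ?_⟩
    rcases h with h | ⟨i, hi⟩
    · omega
    · have := hb ⟨i, rfl⟩
      omega

/-- move the bead `x` down to `x - m` -/
def move (M : Maya) (x : ℤ) (m : ℕ) : Maya where
  s := {y | (y ∈ M.s ∧ y ≠ x) ∨ y = x - (m : ℤ)}
  low := by
    obtain ⟨N, hN⟩ := M.low
    exact ⟨min N x, fun y hy => Or.inl ⟨hN y (by omega), by omega⟩⟩
  high := by
    obtain ⟨N, hN⟩ := M.high
    refine ⟨max N x + 1, fun y hy h => ?_⟩
    rcases h with h | h
    · exact hN y (by omega) h.1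
    · omega

/-- the Murnaghan-Nakayama sum -/
noncomputable def mn : List ℕ → Maya → ℤ
  | [], M => if M.size = 0 then 1 else 0
  | (m :: L), M => ∑ᶠ x ∈ {x : ℤ | x ∈ M.s ∧ x - (m : ℤ) ∉ M.s},
      (-1) ^ (Set.ncard {y : ℤ | y ∈ M.s ∧ x - (m : ℤ) < y ∧ y < x}) * mn L (move M x m)

/-- the vacuum with charge `c` -/
def vac (c : ℤ) : Maya where
  s := {x | x < c}
  low := ⟨c, fun _ hx => hx⟩
  high := ⟨c, fun _ hx h => not_lt.2 hx h⟩

/-- shift by `c` -/
def shift (c : ℤ) (M : Maya) : Maya where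
  s := {x | x - c ∈ M.s}
  low := by
    obtain ⟨N, hN⟩ := M.low
    exact ⟨N + c, fun x hx => hN _ (by omega)⟩
  high := by
    obtain ⟨N, hN⟩ := M.high
    exact ⟨N + c, fun x hx => hN _ (by omega)⟩

section Abacus

variable {p : ℕ} [NeZero p]

/-- the `j`-th runner -/
def run (j : Fin p) (M : Maya) : Maya where
  s := {q | (p : ℤ) * q + (j : ℕ) ∈ M.s}
  low := by
    obtain ⟨N, hN⟩ := M.low
    refine ⟨min N 0, fun q hq => hN _ ?_⟩
    have hj : ((j : ℕ) : ℤ) < p := by exact_mod_cast j.2
    have hp : (1 : ℤ) ≤ p := by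
      have := NeZero.pos p
      omega
    have h1 : (p : ℤ) * (q + 1) ≤ 1 * (q + 1) := mul_le_mul_of_nonpos_right hp (by omega)
    have h2 : (p : ℤ) * (q + 1) = p * q + p := by ring
    omega
  high := by
    obtain ⟨N, hN⟩ := M.high
    refine ⟨max N 0, fun q hq => hN _ ?_⟩
    have hj : (0 : ℤ) ≤ ((j : ℕ) : ℤ) := Int.natCast_nonneg _
    have hp : (1 : ℤ) ≤ p := by
      have := NeZero.pos p
      omega
    have h1 : 1 * q ≤ (p : ℤ) * q := mul_le_mul_of_nonneg_right hp (by omega)
    omega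

/-- the Maya diagram with given runners -/
def glue (F : Fin p → Maya) : Maya where
  s := {x | ∃ (j : Fin p) (q : ℤ), x = (p : ℤ) * q + (j : ℕ) ∧ q ∈ (F j).s}
  low := by
    choose N hN using fun j => (F j).low
    obtain ⟨b, hb⟩ := (Set.finite_range N).bddBelow
    refine ⟨(p : ℤ) * b, fun x hx => ?_⟩
    have hp : (0 : ℤ) < p := by
      have := NeZero.pos p
      omega
    have h0 := Int.emod_nonneg x hp.ne'
    have h1 := Int.emod_lt_of_pos x hp
    refine ⟨⟨(x % p).toNat, by omega⟩, x / p, ?_, hN _ _ ?_⟩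
    · simp only [Int.toNat_of_nonneg h0]
      exact (Int.mul_ediv_add_emod x p).symm
    · have h2 : x / p < b := Int.ediv_lt_of_lt_mul hp (by rw [mul_comm]; exact hx)
      have h3 := hb ⟨⟨(x % p).toNat, by omega⟩, rfl⟩
      exact lt_of_lt_of_le h2 h3
  high := by
    choose N hN using fun j => (F j).high
    obtain ⟨b, hb⟩ := (Set.finite_range N).bddAbove
    refine ⟨(p : ℤ) * (b + 1), fun x hx => ?_⟩
    rintro ⟨j, q, rfl, hq⟩
    refine hN j q ?_ hq
    have h3 := hb ⟨j, rfl⟩
    have hj : ((j : ℕ) : ℤ) < p := by exact_mod_cast j.2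
    have hp : (0 : ℤ) < p := by
      have := NeZero.pos p
      omega
    by_contra hlt
    have h4 : q + 1 ≤ b := by omega
    have h5 : (p : ℤ) * (q + 1) ≤ p * b := mul_le_mul_of_nonneg_left h4 hp.le
    have h6 : (p : ℤ) * (q + 1) = p * q + p := by ring
    have h7 : (p : ℤ) * (b + 1) = p * b + p := by ring
    omega

theorem mem_glue (F : Fin p → Maya) (j : Fin p) (q : ℤ) :
    (p : ℤ) * q + (j : ℕ) ∈ (glue F).s ↔ q ∈ (F j).s := by
  constructor
  · rintro ⟨j', q', h, hq⟩
    have hj : ((j : ℕ) : ℤ) < p := by exact_mod_cast j.2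
    have hj' : ((j' : ℕ) : ℤ) < p := by exact_mod_cast j'.2
    have hp : (0 : ℤ) < p := by
      have := NeZero.pos p
      omega
    have h1 : q = q' := by
      have e1 : ((p : ℤ) * q + (j : ℕ)) / p = q := by
        rw [add_comm, Int.add_mul_ediv_left _ _ hp.ne', Int.ediv_eq_zero_of_lt (by omega) hj, zero_add]
      have e2 : ((p : ℤ) * q' + (j' : ℕ)) / p = q' := by
        rw [add_comm, Int.add_mul_ediv_left _ _ hp.ne', Int.ediv_eq_zero_of_lt (by omega) hj', zero_add]
      rw [← e1, ← e2, h]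
    subst h1
    have h2 : j = j' := Fin.ext (by omega)
    subst h2
    exact hq
  · intro h
    exact ⟨j, q, rfl, h⟩

theorem run_glue (F : Fin p → Maya) (j : Fin p) : run j (glue F) = F j :=
  maya_ext fun q => mem_glue F j q

/-- every integer is `p q + j` -/
theorem exists_qj (x : ℤ) : ∃ (q : ℤ) (j : Fin p), x = (p : ℤ) * q + (j : ℕ) := by
  have hp : (0 : ℤ) < p := by
    have := NeZero.pos p
    omega
  have h0 := Int.emod_nonneg x hp.ne'
  have h1 := Int.emod_lt_of_pos x hp
  refine ⟨x / p, ⟨(x % p).toNat, by omega⟩, ?_⟩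
  simp only [Int.toNat_of_nonneg h0]
  exact (Int.mul_ediv_add_emod x p).symm

theorem glue_run (M : Maya) : glue (fun j : Fin p => run j M) = M := by
  refine maya_ext fun x => ?_
  obtain ⟨q, j, rfl⟩ := exists_qj (p := p) x
  rw [mem_glue]
  rfl

/-- a Maya diagram is determined by its runners -/
theorem run_ext {M M' : Maya} (h : ∀ j : Fin p, run j M = run j M') : M = M' := by
  rw [← glue_run (p := p) M, ← glue_run (p := p) M']
  congr 1
  exact funext h

variable (p) in
/-- the `p`-core -/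
noncomputable def core (M : Maya) : Maya := glue fun j : Fin p => vac (run j M).charge

end Abacus

/-- shift to charge `0` -/
noncomputable def norm (M : Maya) : Maya := shift (-M.charge) M

end Pool.Agent.Helper24.AN
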