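import Pool.Agent.Helper24.AN.MDefs
import Pool.Agent.Helper24.AN.LPhi

/-!
M04 Low: lowering one entry of a strictly increasing sequence, and sorting again.

PROOF. Let `w = low l i m`: it is injective (`l i - m` is not in the range of `l`) and nonnegative. Let `τ` be the permutation with
`w (τ⁻¹ a)` increasing (from `Tuple.sort w`: `ρ = Tuple.sort w`, `w ∘ ρ` strictly increasing, `τ = ρ⁻¹`), `l' = w ∘ τ⁻¹`. Then `l' (τ a) = w a`,
`l'` is nonnegative and `mayaL K l' = move (mayaL K l) (l i - K) m`: `x` is a bead of `mayaL K l'` iff `x < -K` or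
`x + K = w j` for some `j`, i.e. `x + K = l j` for some `j ≠ i` or `x + K = l i - m`; and `x < -K` implies `x ≠ l i - K` (as `l i ≥ 0`).
Sign: `Equiv.Perm.sign_eq_prod_prod_Iio` (or `Equiv.Perm.sign_eq_prod_prod_Ioi`): `sign τ` is the product over the pairs
`a < b` of `1` if `τ a < τ b` and `-1` otherwise; `τ a < τ b` iff `w a < w b`. For `a, b ≠ i`: `w a < w b`. For `(i, b)`, `i < b`:
`w i < l i < l b = w b`. For `(a, i)`, `a < i`: `w a > w i` iff `l a > l i - m`. So the sign is `(-1)` to the number of `a` with
`l i - m < l a < l i`. (Alternatively `τ = Fin.cycleIcc` if it is in Mathlib, with its sign.)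
-/

set_option autoImplicit false

namespace Pool.Agent.Helper24.AN

open Finset
open Pool.Agent.Helper81.AN

theorem exists_low {N : ℕ} (l : Fin N → ℤ) (hl : StrictMono l) (h0 : ∀ i, 0 ≤ l i) (i : Fin N) (m : ℕ) (hm : 1 ≤ m)
    (h1 : (m : ℤ) ≤ l i) (h2 : ∀ j, l j ≠ l i - m) :
    ∃ (l' : Fin N → ℤ) (τ : Equiv.Perm (Fin N)), StrictMono l' ∧ (∀ j, 0 ≤ l' j) ∧
      (∀ j, low l i m j = l' (τ j)) ∧
      ((Equiv.Perm.sign τ : ℤˣ) : ℤ) = (-1) ^ (univ.filter fun j => l i - m < l j ∧ l j < l i).card ∧
      ∀ K : ℤ, mayaL K l' = move (mayaL K l) (l i - K) m := by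
  classical
  have hwi : low l i m i = l i - m := by
    unfold low
    rw [if_pos rfl]
  have hwj : ∀ j, j ≠ i → low l i m j = l j := by
    intro j hj
    unfold low
    rw [if_neg hj, sub_zero]
  have hinj : Function.Injective (low l i m) := by
    intro a b hab
    by_cases ha : a = i
    · by_cases hb : b = i
      · rw [ha, hb]
      · exfalso
        rw [ha, hwi, hwj b hb] at hab
        exact h2 b hab.symm
    · by_cases hb : b = i
      · exfalso
        rw [hb, hwi, hwj a ha] at hab
        exact h2 a hab
      · rw [hwj a ha, hwj b hb] at hab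
        exact hl.injective hab
  have hnn : ∀ j, 0 ≤ low l i m j := by
    intro j
    by_cases hj : j = i
    · rw [hj, hwi]
      omega
    · rw [hwj j hj]
      exact h0 j
  set ρ := Tuple.sort (low l i m) with hρ
  have hmono : StrictMono (fun j => low l i m (ρ j)) :=
    (Tuple.monotone_sort (low l i m)).strictMono_of_injective (hinj.comp ρ.injective)
  have hτ : ∀ j, low l i m j = (fun j => low l i m (ρ j)) (ρ⁻¹ j) := by
    intro j
    simp
  have hlt : ∀ a b, ρ⁻¹ a < ρ⁻¹ b ↔ low l i m a < low l i m b := by
    intro a b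
    rw [hτ a, hτ b]
    exact (hmono.lt_iff_lt).symm
  refine ⟨fun j => low l i m (ρ j), ρ⁻¹, hmono, fun j => hnn _, hτ, ?_, ?_⟩
  · rw [Equiv.Perm.sign_eq_prod_prod_Iio, Finset.prod_eq_single i]
    · have hcount : (univ.filter fun j => l i - m < l j ∧ l j < l i) =
          (Finset.Iio i).filter fun a => ¬ ρ⁻¹ a < ρ⁻¹ i := by
        ext a
        simp only [Finset.mem_filter, Finset.mem_univ, true_and, Finset.mem_Iio]
        rw [hlt]
        constructor
        · rintro ⟨h3, h4⟩
          have h5 : a < i := hl.lt_iff_lt.1 h4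
          refine ⟨h5, ?_⟩
          rw [hwi, hwj a (ne_of_lt h5)]
          omega
        · rintro ⟨h3, h4⟩
          rw [hwi, hwj a (ne_of_lt h3)] at h4
          have h5 := hl h3
          have h6 := h2 a
          omega
      rw [hcount, Finset.prod_ite, Finset.prod_const_one, one_mul, Finset.prod_const]
      push_cast
      rfl
    · intro j _ hj
      apply Finset.prod_eq_one
      intro a ha
      rw [Finset.mem_Iio] at ha
      rw [if_pos]
      rw [hlt, hwj j hj]
      have h3 := hl ha
      by_cases hai : a = i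
      · rw [hai, hwi]
        rw [hai] at h3
        omega
      · rw [hwj a hai]
        exact h3
    · intro h; exact absurd (Finset.mem_univ _) h
  · intro K
    refine maya_ext fun x => ?_
    change (x < -K ∨ ∃ j, x + K = low l i m (ρ j)) ↔
      (((x < -K ∨ ∃ j, x + K = l j) ∧ x ≠ l i - K) ∨ x = l i - K - (m : ℤ))
    have hi0 := h0 i
    constructor
    · rintro (h | ⟨j, hj⟩)
      · left
        exact ⟨Or.inl h, by omega⟩
      · by_cases hji : ρ j = i
        · right
          rw [hji, hwi] at hj
          omega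
        · left
          rw [hwj _ hji] at hj
          refine ⟨Or.inr ⟨ρ j, hj⟩, ?_⟩
          intro h3
          apply hji
          apply hl.injective
          omega
    · rintro (⟨h | ⟨j, hj⟩, h3⟩ | h)
      · exact Or.inl h
      · right
        refine ⟨ρ⁻¹ j, ?_⟩
        have hji : j ≠ i := by
          rintro rfl
          exact h3 (by omega)
        have h4 : ρ (ρ⁻¹ j) = j := by simp
        rw [h4, hwj j hji]
        exact hj
      · right
        refine ⟨ρ⁻¹ i, ?_⟩
        have h4 : ρ (ρ⁻¹ i) = i := by simp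
        rw [h4, hwi]
        omega

end Pool.Agent.Helper24.AN
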