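import Pool.Agent.Helper24.AN.LPhi

/-!
Q03 Closed: sequences of small size are cores.

PROOFS. `sum_ge`: sort `m` (`Tuple.sort`): a strictly increasing sequence of nonnegative integers has `i`-th entry `≥ i`
(induction on `i`; also `beta_ge` in `LPos`, which may be imported), and the sum does not change (`Equiv.sum_comp`).
`closed_of_sum`: if `m j ≠ m i - p` for all `j` then `low m i p` is injective, nonnegative and has sum `∑ m - p < ∑ I`, against `sum_ge`.
`phi_of_closed`: `m` is injective and its range `S` is a finite set of nonnegative integers, closed under `x ↦ x - 1` for `x ≥ 1`; so it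
contains with `x` all of `0, .., x`, and as it has `N` elements, all are `< N` (if `x ≥ N` were in `S` then `S` would contain the `N + 1`
numbers `0, .., N`). So `i ↦ (m i).toNat` is an injective map `Fin N → Fin N`, hence a permutation `τ`
(`Finite.injective_iff_bijective`, `Equiv.ofBijective`).
-/

set_option autoImplicit false

namespace Pool.Agent.Helper24.AN

open Finset

private theorem ge_idx {N : ℕ} (l : Fin N → ℤ) (hl : StrictMono l) (h0 : ∀ i, 0 ≤ l i) (i : Fin N) :
    (i : ℤ) ≤ l i := by
  have key : ∀ (k : ℕ) (hk : k < N), (k : ℤ) ≤ l ⟨k, hk⟩ := by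
    intro k
    induction k with
    | zero => intro hk; exact_mod_cast h0 _
    | succ k ih =>
      intro hk
      have h1 := ih (by omega)
      have h2 : l ⟨k, by omega⟩ < l ⟨k + 1, hk⟩ := hl (by rw [Fin.mk_lt_mk]; omega)
      push_cast
      omega
  exact key i i.2

theorem sum_ge {N : ℕ} (m : Fin N → ℤ) (hinj : Function.Injective m) (h0 : ∀ i, 0 ≤ m i) :
    ∑ i : Fin N, (i : ℤ) ≤ ∑ i, m i := by
  have h1 : StrictMono (m ∘ Tuple.sort m) :=
    (Tuple.monotone_sort m).strictMono_of_injective (hinj.comp (Tuple.sort m).injective)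
  have h2 : ∑ i, m i = ∑ i, (m ∘ Tuple.sort m) i := (Equiv.sum_comp (Tuple.sort m) m).symm
  rw [h2]
  exact Finset.sum_le_sum fun i _ => ge_idx _ h1 (fun i => h0 _) i

theorem closed_of_sum {N r p : ℕ} (hr : r < p) (m : Fin N → ℤ) (hinj : Function.Injective m) (h0 : ∀ i, 0 ≤ m i)
    (hs : ∑ i, m i = r + ∑ i : Fin N, (i : ℤ)) (i : Fin N) (hi : (p : ℤ) ≤ m i) : ∃ j, m j = m i - p := by
  by_contra hcon
  push Not at hcon
  have hinj' : Function.Injective (low m i p) := by
    intro a b hab
    unfold low at hab
    by_cases ha : a = i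
    · by_cases hb : b = i
      · rw [ha, hb]
      · rw [if_pos ha, if_neg hb, ha] at hab
        exact absurd (by omega) (hcon b)
    · by_cases hb : b = i
      · rw [if_neg ha, if_pos hb, hb] at hab
        exact absurd (by omega) (hcon a)
      · rw [if_neg ha, if_neg hb] at hab
        exact hinj (by omega)
  have h0' : ∀ j, 0 ≤ low m i p j := by
    intro j
    unfold low
    by_cases hj : j = i
    · rw [if_pos hj, hj]
      omega
    · rw [if_neg hj]
      have := h0 j
      omega
  have h1 := sum_ge (low m i p) hinj' h0'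
  have h2 : ∑ j, low m i p j = ∑ j, m j - p := by
    unfold low
    rw [Finset.sum_sub_distrib, Finset.sum_ite_eq' Finset.univ i, if_pos (Finset.mem_univ i)]
  rw [h2, hs] at h1
  have : (r : ℤ) < p := by exact_mod_cast hr
  omega

theorem phi_of_closed {N : ℕ} (m : Fin N → ℤ) (hinj : Function.Injective m) (h0 : ∀ i, 0 ≤ m i)
    (hc : ∀ i, 1 ≤ m i → ∃ j, m j = m i - 1) :
    ∃ τ : Equiv.Perm (Fin N), ∀ i, m i = ((τ i : Fin N) : ℤ) := by
  have hdown : ∀ (k : ℕ) (i : Fin N), (k : ℤ) ≤ m i → ∃ j, m j = m i - k := by
    intro k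
    induction k with
    | zero => intro i _; exact ⟨i, by simp⟩
    | succ k ih =>
      intro i hi
      push_cast at hi
      obtain ⟨j, hj⟩ := ih i (by omega)
      obtain ⟨j', hj'⟩ := hc j (by omega)
      exact ⟨j', by push_cast; omega⟩
  have hlt : ∀ i, m i < N := by
    intro i
    by_contra hcon
    push Not at hcon
    have h1 : ∀ k : Fin (N + 1), ∃ j, m j = (k : ℤ) := by
      intro k
      have hk : ((k : ℕ) : ℤ) < N + 1 := by exact_mod_cast k.2
      obtain ⟨j, hj⟩ := hdown (m i - (k : ℕ)).toNat i (by
        have := h0 i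
        omega)
      exact ⟨j, by omega⟩
    choose J hJ using h1
    have hJi : Function.Injective J := by
      intro a b hab
      have h2 := hJ a
      rw [hab, hJ b] at h2
      exact Fin.ext (by omega)
    have := Fintype.card_le_of_injective J hJi
    simp at this
  let g : Fin N → Fin N := fun i => ⟨(m i).toNat, by
    have := hlt i
    have := h0 i
    omega⟩
  have hg : Function.Injective g := by
    intro a b hab
    have h1 := congrArg Fin.val hab
    simp only [g] at h1
    have := h0 a
    have := h0 b
    exact hinj (by omega)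
  refine ⟨Equiv.ofBijective g (Finite.injective_iff_bijective.1 hg), fun i => ?_⟩
  simp only [Equiv.ofBijective_apply, g]
  have := h0 i
  omega

end Pool.Agent.Helper24.AN
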