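import Mathlib

/-!
Q06 Col: the number of colourings with a given content is a multinomial coefficient (Mathlib only).

PROOF. Both sides are linear in `W`; group the maps by their content (`Finset.sum_fiberwise_of_maps_to`): it is enough that the
number of `s : Fin w → Fin p` with content `Z` is `Nat.multinomial univ Z` for `Z ∈ piAntidiag univ w`. Compare the coefficients of
`X ^ Z` in `(∑_j X_j) ^ w = ∑_s ∏_a X_(s a)` (`Finset.sum_pow'`, `Finset.prod_univ_sum`) and
`(∑_j X_j) ^ w = ∑_(Z ∈ piAntidiag univ w) multinomial univ Z * ∏ X_j ^ Z j` (`Finset.sum_pow_eq_sum_piAntidiag`). Or: induction on `w`, or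
`Nat.multinomial` and orbit counting.
-/

set_option autoImplicit false

namespace Pool.Agent.Helper24.AN

open Finset

theorem colour_sum {p : ℕ} (w : ℕ) (W : (Fin p → ℕ) → ℤ) :
    ∑ s : Fin w → Fin p, W (fun j => (univ.filter fun a => s a = j).card) =
      ∑ Z ∈ piAntidiag (univ : Finset (Fin p)) w, (Nat.multinomial univ Z : ℤ) * W Z := by
  classical
  let φ : MvPolynomial (Fin p) ℤ →ₗ[ℤ] ℤ :=
    (MvPolynomial.basisMonomials (Fin p) ℤ).constr ℤ (fun Z => W (fun j => Z j))
  have hφ : ∀ Z : Fin p →₀ ℕ, φ (MvPolynomial.monomial Z 1) = W (fun j => Z j) := by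
    intro Z
    have h := (MvPolynomial.basisMonomials (Fin p) ℤ).constr_basis ℤ
      (fun Z : Fin p →₀ ℕ => W (fun j => Z j)) Z
    rw [MvPolynomial.coe_basisMonomials] at h
    exact h
  have h1 : (∑ j : Fin p, (MvPolynomial.X j : MvPolynomial (Fin p) ℤ)) ^ w =
      ∑ s : Fin w → Fin p, ∏ a, MvPolynomial.X (s a) := Fintype.sum_pow _ _
  have h2 : (∑ j : Fin p, (MvPolynomial.X j : MvPolynomial (Fin p) ℤ)) ^ w =
      ∑ Z ∈ piAntidiag (univ : Finset (Fin p)) w,
        (Nat.multinomial univ Z : MvPolynomial (Fin p) ℤ) * ∏ j, MvPolynomial.X j ^ Z j :=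
    Finset.sum_pow_eq_sum_piAntidiag _ _ _
  have h3 := congrArg φ (h1.symm.trans h2)
  rw [map_sum, map_sum] at h3
  have e1 : ∀ s : Fin w → Fin p, φ (∏ a, MvPolynomial.X (s a)) =
      W (fun j => (univ.filter fun a => s a = j).card) := by
    intro s
    have : (∏ a, (MvPolynomial.X (s a) : MvPolynomial (Fin p) ℤ)) =
        MvPolynomial.monomial (∑ a, Finsupp.single (s a) 1) 1 := by
      rw [MvPolynomial.monomial_sum_one]
      rfl
    rw [this, hφ]
    congr 1
    funext j
    rw [Finsupp.finsetSum_apply, Finset.card_filter]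
    apply Finset.sum_congr rfl
    intro a _
    rw [Finsupp.single_apply]
  have e2 : ∀ Z : Fin p → ℕ, φ ((Nat.multinomial univ Z : MvPolynomial (Fin p) ℤ) *
      ∏ j, MvPolynomial.X j ^ Z j) = (Nat.multinomial univ Z : ℤ) * W Z := by
    intro Z
    have h4 : (∏ j, (MvPolynomial.X j : MvPolynomial (Fin p) ℤ) ^ Z j) =
        MvPolynomial.monomial (∑ j, Finsupp.single j (Z j)) 1 := by
      rw [MvPolynomial.monomial_sum_one]
      apply Finset.prod_congr rfl
      intro j _
      rw [MvPolynomial.X_pow_eq_monomial]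
    rw [← nsmul_eq_mul, map_nsmul, h4, hφ, nsmul_eq_mul]
    congr 2
    funext j
    rw [Finsupp.finsetSum_apply]
    rw [Finset.sum_eq_single j]
    · rw [Finsupp.single_eq_same]
    · intro b _ hb
      rw [Finsupp.single_apply, if_neg hb]
    · intro h
      exact absurd (Finset.mem_univ j) h
  simp only [e1, e2] at h3
  exact h3

end Pool.Agent.Helper24.AN
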