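import Pool.Agent.Helper24.AN.QRear

/-!
Q05 Fact: factorisation of the sum over the long moves.

PROOF. Induction on `w`, for all `L` and `m` (with `c`, `e` fixed). `w = 0`: `FF_rearr` (`cont` of a map from `Fin 0` is `0`,
`FF 0 = phi` by `FF_zero`). `w + 1`: the left side is `∑_(k : Fin N) ∑_(g : Fin w → Fin N) FF r (low m k p - p cont g)`
(a map from `Fin (w+1)` is its value `k` at `0` and its restriction `g`: `Fin.consEquiv`/`Fin.consFunEquiv`,
`Fin.sum_univ_succ`; as in `FF_succ`). With `k = e ⟨j, i⟩` (`Equiv.sum_comp`, `Fintype.sum_sigma`) the sequence `low m k p` has the runners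
`Function.update L j (low (L j) i 1)`, so by induction the left side is
`∑_j ∑_i FF r c * ∑_(s : Fin w → Fin p) ∏_j' FF (#s⁻¹ j') (update L j (low (L j) i 1) j')`. On the right side, splitting off `s 0 = j`:
`∑_j ∑_(s : Fin w → Fin p) ∏_j' FF (#s⁻¹ j' + [j' = j]) (L j')`, and the factor `j' = j` is `∑_i FF (#s⁻¹ j) (low (L j) i 1)` by `FF_succ`
(`Finset.mul_prod_erase` or `Fintype.prod_eq_mul_prod_compl`; `Finset.sum_comm`, `Finset.mul_sum`).
-/

set_option autoImplicit false

namespace Pool.Agent.Helper24.AN

open Finset

private theorem cont_consF {N n : ℕ} (i : Fin N) (f : Fin n → Fin N) (j : Fin N) :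
    cont (Fin.cons i f : Fin (n + 1) → Fin N) j = (if j = i then 1 else 0) + cont f j := by
  unfold cont
  rw [Finset.card_filter, Finset.card_filter]
  push_cast
  rw [Fin.sum_univ_succ]
  simp only [Fin.cons_zero, Fin.cons_succ]
  congr 1
  simp only [eq_comm]

private theorem card_consF {n p : ℕ} (j : Fin p) (s : Fin n → Fin p) (j' : Fin p) :
    (univ.filter fun a => (Fin.cons j s : Fin (n + 1) → Fin p) a = j').card =
      (univ.filter fun a => s a = j').card + if j' = j then 1 else 0 := by
  rw [Finset.card_filter, Finset.card_filter, Fin.sum_univ_succ]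
  simp only [Fin.cons_zero, Fin.cons_succ]
  rw [add_comm]
  congr 1
  simp only [eq_comm]

private theorem sum_consF {n q : ℕ} (F : (Fin (n + 1) → Fin q) → ℤ) :
    ∑ f : Fin (n + 1) → Fin q, F f = ∑ i, ∑ f : Fin n → Fin q, F (Fin.cons i f) := by
  rw [← (Fin.consEquiv (fun _ : Fin (n + 1) => Fin q)).sum_comp, Fintype.sum_prod_type]
  rfl

theorem fact_sum {N p r : ℕ} (hr : r < p) (Nj : Fin p → ℕ) (e : (Σ j : Fin p, Fin (Nj j)) ≃ Fin N) (c : Fin N → ℤ)
    (hc : ∀ s : Σ j : Fin p, Fin (Nj j), c (e s) = (p : ℤ) * ((s.2 : ℕ) : ℤ) + ((s.1 : ℕ) : ℤ)) (w : ℕ)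
    (L : ∀ j, Fin (Nj j) → ℤ) (m : Fin N → ℤ)
    (hm : ∀ s : Σ j : Fin p, Fin (Nj j), m (e s) = (p : ℤ) * L s.1 s.2 + ((s.1 : ℕ) : ℤ)) :
    ∑ g : Fin w → Fin N, FF r (fun k => m k - (p : ℤ) * cont g k) =
      FF r c * ∑ s : Fin w → Fin p, ∏ j, FF ((univ.filter fun a => s a = j).card) (L j) := by
  classical
  induction w generalizing L m with
  | zero =>
    rw [Fintype.sum_unique, Fintype.sum_unique]
    have h1 : (fun k => m k - (p : ℤ) * cont (default : Fin 0 → Fin N) k) = m := by
      funext k
      unfold cont
      simp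
    rw [h1, FF_rearr hr Nj e L m c hm hc]
    congr 1
    refine Finset.prod_congr rfl fun j _ => ?_
    have h2 : (univ.filter fun a => (default : Fin 0 → Fin p) a = j).card = 0 := by simp
    rw [h2, FF_zero]
  | succ w ih =>
    rw [sum_consF, sum_consF]
    have h1 : ∀ k : Fin N, ∑ g : Fin w → Fin N,
        FF r (fun k' => m k' - (p : ℤ) * cont (Fin.cons k g : Fin (w + 1) → Fin N) k') =
        ∑ g : Fin w → Fin N, FF r (fun k' => low m k p k' - (p : ℤ) * cont g k') := by
      intro k
      refine Finset.sum_congr rfl fun g _ => ?_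
      congr 1
      funext k'
      rw [cont_consF]
      unfold low
      split_ifs <;> ring
    rw [Finset.sum_congr rfl fun k _ => h1 k, ← Equiv.sum_comp e, Fintype.sum_sigma, Finset.mul_sum]
    refine Finset.sum_congr rfl fun j _ => ?_
    have h2 : ∀ i : Fin (Nj j), ∑ g : Fin w → Fin N,
        FF r (fun k' => low m (e ⟨j, i⟩) p k' - (p : ℤ) * cont g k') =
        FF r c * ∑ s : Fin w → Fin p, ∏ j', FF ((univ.filter fun a => s a = j').card)
          (Function.update L j (low (L j) i 1) j') := by
      intro i
      refine ih (Function.update L j (low (L j) i 1)) (low m (e ⟨j, i⟩) p) ?_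
      rintro ⟨j', i'⟩
      unfold low
      by_cases hj : j' = j
      · subst hj
        simp only [Function.update_self]
        rw [hm]
        by_cases hi : i' = i
        · subst hi
          rw [if_pos rfl, if_pos rfl]
          push_cast
          ring
        · rw [if_neg hi, if_neg]
          · ring
          · intro h
            have h3 := e.injective h
            simp only [Sigma.mk.injEq, heq_eq_eq, true_and] at h3
            exact hi h3
      · rw [hm, if_neg]
        · simp only [Function.update_of_ne hj]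
          ring
        · intro h
          have h3 := e.injective h
          simp only [Sigma.mk.injEq] at h3
          exact hj h3.1
    rw [Finset.sum_congr rfl fun i _ => h2 i, ← Finset.mul_sum, Finset.sum_comm]
    congr 1
    refine Finset.sum_congr rfl fun s _ => ?_
    have h3 : ∀ i : Fin (Nj j), ∏ j', FF ((univ.filter fun a => s a = j').card)
          (Function.update L j (low (L j) i 1) j') =
        FF ((univ.filter fun a => s a = j).card) (low (L j) i 1) *
          ∏ j' ∈ univ.erase j, FF ((univ.filter fun a => s a = j').card) (L j') := by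
      intro i
      rw [← Finset.mul_prod_erase univ _ (Finset.mem_univ j), Function.update_self]
      congr 1
      refine Finset.prod_congr rfl fun j' hj' => ?_
      rw [Function.update_of_ne (Finset.ne_of_mem_erase hj')]
    rw [Finset.sum_congr rfl fun i _ => h3 i, ← Finset.sum_mul, ← FF_succ,
      ← Finset.mul_prod_erase univ _ (Finset.mem_univ j), card_consF, if_pos rfl]
    congr 1
    refine Finset.prod_congr rfl fun j' hj' => ?_
    rw [card_consF, if_neg (Finset.ne_of_mem_erase hj'), add_zero]

end Pool.Agent.Helper24.AN
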