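import Pool.Agent.Helper24.AN.LDefs

/-!
Q02 Frob: the degree modulo `p` (Frobenius: `(∑ X_i) ^ p = ∑ X_i ^ p` in characteristic `p`).

PROOF. Let `R = MvPolynomial (Fin N) (ZMod p)` and let `Λ : R → ZMod p` be the linear map with
`Λ (monomial m c) = c * phi (l - m)` (e.g. `Finsupp.lsum`, `Finsupp.linearCombination`, or `MvPolynomial.basisMonomials`).
`(∑ X_i) ^ n = ∑_(f : Fin n → Fin N) ∏_a X_(f a)` (`Finset.sum_pow'`, `Finset.prod_univ_sum`, `Fintype.piFinset_univ`;
`Fin.prod_const`) and `∏_a X_(f a)` is the monomial with exponent `i ↦ #{a | f a = i}`, so `Λ ((∑ X_i) ^ n) = FF n l` in `ZMod p`. Now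
`(∑ X_i) ^ (p w + r) = (∑ X_i ^ p) ^ w * (∑ X_i) ^ r` (`sum_pow_char` / `Finset.sum_pow_char`-type lemma in characteristic `p`: `CharP R p`,
`ExpChar`, `frobenius`, `map_sum`), and the right side is `∑_(g : Fin w → Fin N) ∑_(h : Fin r → Fin N) ∏_a X_(g a) ^ p ∏_b X_(h b)`, whose image
under `Λ` is `∑_g ∑_h phi (l - p cont g - cont h) = ∑_g FF r (l - p cont g)`.
-/

set_option autoImplicit false

namespace Pool.Agent.Helper24.AN

open Finset

/-- the linear map of the header -/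
private noncomputable def lam (p : ℕ) {N : ℕ} (l : Fin N → ℤ) :
    MvPolynomial (Fin N) (ZMod p) →ₗ[ZMod p] ZMod p :=
  (MvPolynomial.basisMonomials (Fin N) (ZMod p)).constr (ZMod p)
    (fun m => ((phi (fun i => l i - (m i : ℤ)) : ℤ) : ZMod p))

private theorem lam_monomial (p : ℕ) {N : ℕ} (l : Fin N → ℤ) (m : Fin N →₀ ℕ) :
    lam p l (MvPolynomial.monomial m 1) = ((phi (fun i => l i - (m i : ℤ)) : ℤ) : ZMod p) := by
  have h := (MvPolynomial.basisMonomials (Fin N) (ZMod p)).constr_basis (ZMod p)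
    (fun m : Fin N →₀ ℕ => ((phi (fun i => l i - (m i : ℤ)) : ℤ) : ZMod p)) m
  rw [MvPolynomial.coe_basisMonomials] at h
  exact h

private theorem pow_sum (p : ℕ) {N : ℕ} (q n : ℕ) :
    (∑ i, (MvPolynomial.X i : MvPolynomial (Fin N) (ZMod p)) ^ q) ^ n =
      ∑ f : Fin n → Fin N, MvPolynomial.monomial (∑ a, Finsupp.single (f a) q) 1 := by
  have h1 : (∑ i, (MvPolynomial.X i : MvPolynomial (Fin N) (ZMod p)) ^ q) ^ n =
      ∏ _a : Fin n, ∑ i, (MvPolynomial.X i : MvPolynomial (Fin N) (ZMod p)) ^ q := by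
    rw [Fin.prod_const]
  rw [h1, Finset.prod_univ_sum, Fintype.piFinset_univ]
  refine Finset.sum_congr rfl fun f _ => ?_
  rw [MvPolynomial.monomial_sum_one]
  refine Finset.prod_congr rfl fun a _ => ?_
  rw [MvPolynomial.X_pow_eq_monomial]

private theorem expo {N n : ℕ} (f : Fin n → Fin N) (q : ℕ) (i : Fin N) :
    (((∑ a, Finsupp.single (f a) q : Fin N →₀ ℕ) i : ℕ) : ℤ) = (q : ℤ) * cont f i := by
  rw [Finsupp.finsetSum_apply]
  unfold cont
  rw [Finset.card_filter]
  push_cast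
  rw [Finset.mul_sum]
  refine Finset.sum_congr rfl fun a _ => ?_
  rw [Finsupp.single_apply]
  split_ifs <;> simp

theorem frob (p : ℕ) [Fact p.Prime] {N : ℕ} (w r : ℕ) (l : Fin N → ℤ) :
    ((FF (p * w + r) l : ℤ) : ZMod p) =
      ((∑ g : Fin w → Fin N, FF r (fun i => l i - (p : ℤ) * cont g i) : ℤ) : ZMod p) := by
  have h1 : lam p l ((∑ i, (MvPolynomial.X i : MvPolynomial (Fin N) (ZMod p)) ^ 1) ^ (p * w + r)) =
      ((FF (p * w + r) l : ℤ) : ZMod p) := by
    rw [pow_sum, map_sum]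
    unfold FF
    push_cast
    refine Finset.sum_congr rfl fun f _ => ?_
    rw [lam_monomial]
    congr 2
    funext i
    rw [expo]
    push_cast
    ring
  have h2 : (∑ i, (MvPolynomial.X i : MvPolynomial (Fin N) (ZMod p)) ^ 1) ^ (p * w + r) =
      (∑ i, (MvPolynomial.X i : MvPolynomial (Fin N) (ZMod p)) ^ p) ^ w *
      (∑ i, (MvPolynomial.X i : MvPolynomial (Fin N) (ZMod p)) ^ 1) ^ r := by
    rw [pow_add, pow_mul]
    congr 2
    simp only [pow_one]
    exact sum_pow_char (R := MvPolynomial (Fin N) (ZMod p)) p Finset.univ _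
  rw [← h1, h2, pow_sum, pow_sum, Finset.sum_mul_sum, map_sum]
  push_cast
  refine Finset.sum_congr rfl fun g _ => ?_
  unfold FF
  rw [map_sum]
  push_cast
  refine Finset.sum_congr rfl fun f _ => ?_
  rw [MvPolynomial.monomial_mul, one_mul, lam_monomial]
  congr 2
  funext i
  rw [Finsupp.add_apply, Nat.cast_add, expo, expo]
  push_cast
  ring

end Pool.Agent.Helper24.AN
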