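import Pool.Agent.Helper24.AN.QRun
import Pool.Agent.Helper24.AN.QFrob
import Pool.Agent.Helper24.AN.QFact
import Pool.Agent.Helper24.AN.QCol
import Pool.Agent.Helper24.AN.MF

/-!
Q07 Mod: the degree modulo `p` in terms of the core and the quotient.

PROOF. `exists_runs` gives `K, Nj, L`; `N = ∑ Nj`, an equivalence `e` (`finSigmaFinEquiv`), `m (e s) = p L s.1 s.2 + s.1`,
`c (e s) = p s.2 + s.1`. Then `M = mayaL (p K) m` (`mayaL_glue`, `glue_run`), `core p M = mayaL (p K) c` (`core_eq_mayaL`), and `m`, `c` are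
injective and nonnegative (`inj_of_runs`, `nonneg_of_runs`). `∑ m = M.size + ∑ I`, `∑ c = (core p M).size + ∑ I` (`size_mayaL`).
`f_mayaL_inj`: `FF (p w + r) m = ± f M`. Modulo `p`: `FF (p w + r) m = FF r c * ∑_(s : Fin w → Fin p) ∏_j FF (#s⁻¹ j) (L j)` (`frob`,
`fact_sum`). If `(core p M).size ≠ r` then `FF r c = 0` (`CL_replicate`, `CL_sum`), so `p ∣ f M`. If `(core p M).size = r` then
`FF r c = ± f (core p M)` (`f_mayaL_inj`) and by `colour_sum` the sum is `∑_Z multinomial Z * ∏_j FF (Z j) (L j)`; `FF (Z j) (L j) = 0`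
unless `Z j = size (run j M)` (`CL_sum`, `size_mayaL`), so only `Z = (size (run j M))_j` remains (it is in `piAntidiag univ w` as
`∑_j size (run j M) = w` by `size_core`), and `FF (size) (L j) = f (run j M)` (`f_mayaL`, `IsB`).
-/

set_option autoImplicit false

namespace Pool.Agent.Helper24.AN

open Finset
open Pool.Agent.Helper81.AN

private theorem FF_sum {N k : ℕ} (l : Fin N → ℤ) (h : FF k l ≠ 0) :
    ∑ i, l i = (k : ℤ) + ∑ i : Fin N, (i : ℤ) := by
  rw [← CL_replicate] at h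
  have h1 := CL_sum _ l h
  rw [List.sum_replicate, smul_eq_mul, mul_one] at h1
  exact h1

/-- the setup -/
private theorem setup (p : ℕ) [NeZero p] (M : Maya) :
    ∃ (N : ℕ) (K : ℤ) (Nj : Fin p → ℕ) (L : ∀ j, Fin (Nj j) → ℤ) (e : (Σ j : Fin p, Fin (Nj j)) ≃ Fin N)
      (m c : Fin N → ℤ), (∀ j, StrictMono (L j)) ∧ (∀ j i, 0 ≤ L j i) ∧ (∀ j, mayaL K (L j) = run j M) ∧
      (∀ s : Σ j : Fin p, Fin (Nj j), m (e s) = (p : ℤ) * L s.1 s.2 + ((s.1 : ℕ) : ℤ)) ∧
      (∀ s : Σ j : Fin p, Fin (Nj j), c (e s) = (p : ℤ) * ((s.2 : ℕ) : ℤ) + ((s.1 : ℕ) : ℤ)) ∧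
      mayaL ((p : ℤ) * K) m = M ∧ mayaL ((p : ℤ) * K) c = core p M ∧
      Function.Injective m ∧ (∀ k, 0 ≤ m k) ∧ Function.Injective c ∧ (∀ k, 0 ≤ c k) := by
  obtain ⟨K, Nj, L, hN, hmono, hnn, hrun⟩ := exists_runs (p := p) M
  let e : (Σ j : Fin p, Fin (Nj j)) ≃ Fin (∑ j, Nj j) := finSigmaFinEquiv
  let m : Fin (∑ j, Nj j) → ℤ := fun k => (p : ℤ) * L (e.symm k).1 (e.symm k).2 + (((e.symm k).1 : ℕ) : ℤ)
  let c : Fin (∑ j, Nj j) → ℤ := fun k => (p : ℤ) * (((e.symm k).2 : ℕ) : ℤ) + (((e.symm k).1 : ℕ) : ℤ)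
  have hm : ∀ s : Σ j : Fin p, Fin (Nj j), m (e s) = (p : ℤ) * L s.1 s.2 + ((s.1 : ℕ) : ℤ) := by
    intro s
    change (p : ℤ) * L (e.symm (e s)).1 (e.symm (e s)).2 + (((e.symm (e s)).1 : ℕ) : ℤ) = _
    rw [Equiv.symm_apply_apply]
  have hc : ∀ s : Σ j : Fin p, Fin (Nj j), c (e s) = (p : ℤ) * ((s.2 : ℕ) : ℤ) + ((s.1 : ℕ) : ℤ) := by
    intro s
    change (p : ℤ) * (((e.symm (e s)).2 : ℕ) : ℤ) + (((e.symm (e s)).1 : ℕ) : ℤ) = _
    rw [Equiv.symm_apply_apply]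
  refine ⟨_, K, Nj, L, e, m, c, hmono, hnn, hrun, hm, hc, ?_, ?_, ?_, ?_, ?_, ?_⟩
  · rw [mayaL_glue K Nj L e m hm]
    have h1 : (fun j => mayaL K (L j)) = fun j : Fin p => run j M := funext hrun
    rw [h1, glue_run]
  · exact core_eq_mayaL M K Nj hN e c hc
  · exact inj_of_runs Nj L (fun j => (hmono j).injective) e m hm
  · exact nonneg_of_runs Nj L hnn e m hm
  · exact inj_of_runs Nj (fun j i => ((i : ℕ) : ℤ)) (fun j a b hab => Fin.ext (by simp only at hab; exact_mod_cast hab)) e c hc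
  · exact nonneg_of_runs Nj (fun j i => ((i : ℕ) : ℤ)) (fun j i => Int.natCast_nonneg _) e c hc

theorem f_mod (p : ℕ) [Fact p.Prime] (M : Maya) (w r : ℕ) (hr : r < p) (hs : M.size = p * w + r)
    (hc : (core p M).size = r) :
    ∃ u : ℤˣ, ((M.f : ℕ) : ZMod p) = ((u : ℤ) : ZMod p) *
      ((Nat.multinomial univ (fun j : Fin p => (run j M).size) * (∏ j : Fin p, (run j M).f) * (core p M).f : ℕ) :
        ZMod p) := by
  obtain ⟨N, K, Nj, L, e, m, c, hmono, hnn, hrun, hm, hcc, hM, hC, hmi, hmn, hci, hcn⟩ := setup p M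
  have s1 := size_mayaL ((p : ℤ) * K) m hmi hmn
  rw [hM, hs] at s1
  have s2 := size_mayaL ((p : ℤ) * K) c hci hcn
  rw [hC, hc] at s2
  obtain ⟨u1, hu1⟩ := f_mayaL_inj ((p : ℤ) * K) m hmi hmn s1.symm
  obtain ⟨u2, hu2⟩ := f_mayaL_inj ((p : ℤ) * K) c hci hcn s2.symm
  rw [hM] at hu1
  rw [hC] at hu2
  have hw : ∑ j : Fin p, (run j M).size = w := by
    have h1 := size_core (p := p) M
    rw [hs, hc, add_comm] at h1
    have h2 : p * w = p * ∑ j : Fin p, (run j M).size := by omega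
    exact (Nat.eq_of_mul_eq_mul_left (Nat.Prime.pos Fact.out) h2).symm
  have hsum : ∑ s : Fin w → Fin p, ∏ j, FF ((univ.filter fun a => s a = j).card) (L j) =
      ((Nat.multinomial univ (fun j : Fin p => (run j M).size) * (∏ j : Fin p, (run j M).f) : ℕ) : ℤ) := by
    have h1 := colour_sum (p := p) w (fun Z => ∏ j, FF (Z j) (L j))
    simp only at h1
    rw [h1, Finset.sum_eq_single (fun j : Fin p => (run j M).size)]
    · push_cast
      congr 1
      refine Finset.prod_congr rfl fun j _ => ?_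
      have h2 := size_mayaL K (L j) (hmono j).injective (hnn j)
      rw [hrun j] at h2
      have h3 := f_mayaL (n := (run j M).size) K (L j) ⟨hmono j, hnn j, h2.symm⟩
      rw [hrun j] at h3
      exact h3.symm
    · intro Z _ hZ
      have h2 : ∃ j, Z j ≠ (run j M).size := by
        by_contra h3
        push Not at h3
        exact hZ (funext h3)
      obtain ⟨j, hj⟩ := h2
      rw [Finset.prod_eq_zero (Finset.mem_univ j), mul_zero]
      by_contra hne
      have h3 := FF_sum (L j) hne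
      have h4 := size_mayaL K (L j) (hmono j).injective (hnn j)
      rw [hrun j] at h4
      apply hj
      have h5 : ((run j M).size : ℤ) = Z j := by linarith
      exact_mod_cast h5.symm
    · intro h
      exfalso
      apply h
      rw [Finset.mem_piAntidiag]
      exact ⟨hw, fun _ _ => Finset.mem_univ _⟩
  have h2 := frob p w r m
  rw [fact_sum hr Nj e c hcc w L m hm, hsum, hu1, hu2] at h2
  refine ⟨u1 * u2, ?_⟩
  have h3 : ((M.f : ℕ) : ZMod p) = ((u1 : ℤ) : ZMod p) * ((((u1 : ℤ) * ((M.f : ℕ) : ℤ) : ℤ)) : ZMod p) := by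
    have h4 : (u1 : ℤ) * (u1 : ℤ) = 1 := by
      rw [← Units.val_mul, Int.units_mul_self, Units.val_one]
    have h5 : ((u1 : ℤ) : ZMod p) * ((u1 : ℤ) : ZMod p) = 1 := by
      rw [← Int.cast_mul, h4, Int.cast_one]
    push_cast
    rw [← mul_assoc, h5, one_mul]
  rw [h3, h2]
  push_cast
  ring

theorem f_mod_zero (p : ℕ) [Fact p.Prime] (M : Maya) (w r : ℕ) (hr : r < p) (hs : M.size = p * w + r)
    (hc : (core p M).size ≠ r) : p ∣ M.f := by
  obtain ⟨N, K, Nj, L, e, m, c, hmono, hnn, hrun, hm, hcc, hM, hC, hmi, hmn, hci, hcn⟩ := setup p M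
  have s1 := size_mayaL ((p : ℤ) * K) m hmi hmn
  rw [hM, hs] at s1
  have s2 := size_mayaL ((p : ℤ) * K) c hci hcn
  rw [hC] at s2
  obtain ⟨u1, hu1⟩ := f_mayaL_inj ((p : ℤ) * K) m hmi hmn s1.symm
  rw [hM] at hu1
  have h0 : FF r c = 0 := by
    by_contra hne
    have h3 := FF_sum c hne
    apply hc
    have h5 : ((core p M).size : ℤ) = r := by linarith
    exact_mod_cast h5
  have h2 := frob p w r m
  rw [fact_sum hr Nj e c hcc w L m hm, h0, zero_mul, hu1] at h2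
  rw [← ZMod.natCast_eq_zero_iff]
  have h3 : ((M.f : ℕ) : ZMod p) = ((u1 : ℤ) : ZMod p) * ((((u1 : ℤ) * ((M.f : ℕ) : ℤ) : ℤ)) : ZMod p) := by
    have h4 : (u1 : ℤ) * (u1 : ℤ) = 1 := by
      rw [← Units.val_mul, Int.units_mul_self, Units.val_one]
    have h5 : ((u1 : ℤ) : ZMod p) * ((u1 : ℤ) : ZMod p) = 1 := by
      rw [← Int.cast_mul, h4, Int.cast_one]
    push_cast
    rw [← mul_assoc, h5, one_mul]
  rw [h3, h2, Int.cast_zero, mul_zero]

end Pool.Agent.Helper24.AN
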