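import Pool.Agent.Helper24.AN.QClosed
import Pool.Agent.Helper24.AN.LClass

/-!
Q04 Rear: rearrangements of a core on every runner.

PROOF. `c` and `m` are given on the runners. Case A: for every `j` there is a permutation `τ j` with `L j i = τ j i` for all `i`. Let
`T = e.symm.trans ((Equiv.sigmaCongrRight τ).trans e)`, a permutation of `Fin N`; then `m k = c (T k)`, so `FF r m = sign T * FF r c`
(`FF_perm`), `sign T = sign (Equiv.sigmaCongrRight τ) = ∏_j sign (τ j)` (`Equiv.Perm.sign_symm_trans_trans` or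
`Equiv.Perm.sign_permCongr`; for sigma types: `Equiv.Perm.sign_...sigmaCongrRight` if it exists, otherwise by writing the permutation as the
product over `j` of the permutations acting only on the summand `j`, or via `phi`/determinants: `Matrix.det_blockDiagonal'`
with `sign τ = det (permMatrix τ)`), and `phi (L j) = sign (τ j)` (`phi_perm`, `phi_id`). Case B: for some `j` there is no such `τ j`.
Then `phi (L j) = 0` (`exists_perm`), so the right side is `0`; suppose `FF r m ≠ 0`. By `CL_replicate` and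
`CL_eq_zero_of_eq`, `CL_eq_zero_of_neg`, `CL_sum` (with `(List.replicate r 1).sum = r`) `m` is injective, nonnegative, of sum `r + ∑ I`. So
`L j` is injective, nonnegative (`p * x + j ≥ 0`, `j < p` gives `x ≥ 0`), and closed: if `L j i ≥ 1` then `m (e ⟨j, i⟩) ≥ p`, so
`m (e s) = m (e ⟨j, i⟩) - p = p (L j i - 1) + j` for some `s` (`closed_of_sum`), so `s.1 = j` and `L j s.2 = L j i - 1`. By `phi_of_closed` `τ j`
exists after all.
-/

set_option autoImplicit false

namespace Pool.Agent.Helper24.AN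

open Finset

private theorem qr_single {ι : Type} [Fintype ι] [DecidableEq ι] {β : ι → Type} [∀ i, Fintype (β i)]
    [∀ i, DecidableEq (β i)] (i : ι) (x : Equiv.Perm (β i)) :
    Equiv.Perm.sign (Equiv.Perm.sigmaCongrRight (Pi.mulSingle i x : ∀ i, Equiv.Perm (β i))) =
      Equiv.Perm.sign x := by
  symm
  refine Equiv.Perm.sign_bij (fun a _ => (⟨i, a⟩ : Σ i, β i)) ?_ ?_ ?_
  · intro a _ _
    change (⟨i, x a⟩ : Σ i, β i) = ⟨i, (Pi.mulSingle i x : ∀ i, Equiv.Perm (β i)) i a⟩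
    rw [Pi.mulSingle_eq_same]
  · intro a b _ _ h
    exact eq_of_heq (Sigma.mk.inj_iff.1 h).2
  · rintro ⟨j, b⟩ hy
    by_cases hj : j = i
    · subst hj
      refine ⟨b, fun hb => hy ?_, rfl⟩
      change (⟨j, (Pi.mulSingle j x : ∀ i, Equiv.Perm (β i)) j b⟩ : Σ i, β i) = ⟨j, b⟩
      rw [Pi.mulSingle_eq_same, hb]
    · refine absurd ?_ hy
      change (⟨j, (Pi.mulSingle i x : ∀ i, Equiv.Perm (β i)) j b⟩ : Σ i, β i) = ⟨j, b⟩
      rw [Pi.mulSingle_eq_of_ne hj]
      rfl

private theorem qr_sign {ι : Type} [Fintype ι] [DecidableEq ι] {β : ι → Type} [∀ i, Fintype (β i)]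
    [∀ i, DecidableEq (β i)] (τ : ∀ i, Equiv.Perm (β i)) :
    Equiv.Perm.sign (Equiv.Perm.sigmaCongrRight τ) = ∏ i, Equiv.Perm.sign (τ i) := by
  let g : (∀ i, Equiv.Perm (β i)) →* ℤˣ :=
    { toFun := fun τ => ∏ i, Equiv.Perm.sign (τ i)
      map_one' := by simp
      map_mul' := fun a b => by simp [Finset.prod_mul_distrib] }
  have h : (Equiv.Perm.sign.comp (Equiv.Perm.sigmaCongrRightHom β)) = g := by
    refine MonoidHom.pi_ext fun i x => ?_
    change Equiv.Perm.sign (Equiv.Perm.sigmaCongrRight (Pi.mulSingle i x : ∀ i, Equiv.Perm (β i))) =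
      ∏ j, Equiv.Perm.sign ((Pi.mulSingle i x : ∀ i, Equiv.Perm (β i)) j)
    rw [qr_single, Finset.prod_eq_single i]
    · rw [Pi.mulSingle_eq_same]
    · intro j _ hj
      rw [Pi.mulSingle_eq_of_ne hj, map_one]
    · intro hi
      exact absurd (mem_univ i) hi
  exact congrArg (fun f : (∀ i, Equiv.Perm (β i)) →* ℤˣ => f τ) h

private theorem qr_phi {N : ℕ} {l : Fin N → ℤ} {τ : Equiv.Perm (Fin N)} (h : ∀ i, l i = ((τ i : Fin N) : ℤ)) :
    phi l = ((Equiv.Perm.sign τ : ℤˣ) : ℤ) := by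
  have h1 : l = fun i => (fun i : Fin N => ((i : ℕ) : ℤ)) (τ i) := funext h
  rw [h1, phi_perm (fun i : Fin N => ((i : ℕ) : ℤ)) τ, phi_id, mul_one]

private theorem qr_arith {p : ℕ} {a b : ℤ} {j k : ℕ} (hj : j < p) (hk : k < p)
    (h : (p : ℤ) * a + j = (p : ℤ) * b + k) : j = k ∧ a = b := by
  have hp : (0 : ℤ) < p := by exact_mod_cast (Nat.zero_lt_of_lt hj)
  have hj' : (j : ℤ) < p := by exact_mod_cast hj
  have hk' : (k : ℤ) < p := by exact_mod_cast hk
  have hj0 : (0 : ℤ) ≤ j := Int.natCast_nonneg j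
  have hk0 : (0 : ℤ) ≤ k := Int.natCast_nonneg k
  have hab : a = b := by
    rcases lt_trichotomy a b with h1 | h1 | h1
    · exfalso
      nlinarith
    · exact h1
    · exfalso
      nlinarith
  subst hab
  refine ⟨?_, rfl⟩
  have h2 : (j : ℤ) = k := by linarith
  exact_mod_cast h2

theorem FF_rearr {N p r : ℕ} (hr : r < p) (Nj : Fin p → ℕ) (e : (Σ j : Fin p, Fin (Nj j)) ≃ Fin N)
    (L : ∀ j, Fin (Nj j) → ℤ) (m c : Fin N → ℤ)
    (hm : ∀ s : Σ j : Fin p, Fin (Nj j), m (e s) = (p : ℤ) * L s.1 s.2 + ((s.1 : ℕ) : ℤ))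
    (hc : ∀ s : Σ j : Fin p, Fin (Nj j), c (e s) = (p : ℤ) * ((s.2 : ℕ) : ℤ) + ((s.1 : ℕ) : ℤ)) :
    FF r m = FF r c * ∏ j, phi (L j) := by
  classical
  by_cases hA : ∀ j, ∃ τ : Equiv.Perm (Fin (Nj j)), ∀ i, L j i = ((τ i : Fin (Nj j)) : ℤ)
  · choose τ hτ using hA
    set T : Equiv.Perm (Fin N) := (e.symm.trans (Equiv.Perm.sigmaCongrRight τ)).trans e with hT
    have h1 : m = fun k => c (T k) := by
      funext k
      obtain ⟨s, rfl⟩ := e.surjective k
      rw [hm]
      have h2 : T (e s) = e ⟨s.1, τ s.1 s.2⟩ := by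
        rw [hT]
        change e (Equiv.Perm.sigmaCongrRight τ (e.symm (e s))) = _
        rw [e.symm_apply_apply]
        rfl
      rw [h2, hc, hτ]
    have h3 : Equiv.Perm.sign T = ∏ j, Equiv.Perm.sign (τ j) := by
      rw [hT, Equiv.Perm.sign_symm_trans_trans, qr_sign]
    have h4 : ∏ j, phi (L j) = ((Equiv.Perm.sign T : ℤˣ) : ℤ) := by
      rw [h3]
      push_cast
      exact Finset.prod_congr rfl fun j _ => qr_phi (hτ j)
    rw [h4, h1, FF_perm, mul_comm]
  · push Not at hA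
    obtain ⟨j, hj⟩ := hA
    have h0 : phi (L j) = 0 := by
      by_contra h
      obtain ⟨σ, hσ, -⟩ := exists_perm (L j) h
      obtain ⟨i, hi⟩ := hj σ
      exact hi (hσ i)
    rw [Finset.prod_eq_zero (mem_univ j) h0, mul_zero]
    by_contra hne
    rw [← CL_replicate] at hne
    have hinj : Function.Injective m := by
      intro a b hab
      by_contra hab'
      exact hne (CL_eq_zero_of_eq _ m hab' hab)
    have hnn : ∀ i, 0 ≤ m i := by
      intro i
      by_contra hi
      exact hne (CL_eq_zero_of_neg _ m (lt_of_not_ge hi))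
    have hsum : ∑ i, m i = r + ∑ i : Fin N, (i : ℤ) := by
      have h := CL_sum _ m hne
      rwa [List.sum_replicate, smul_eq_mul, mul_one] at h
    have hp : (0 : ℤ) < p := by exact_mod_cast (Nat.zero_lt_of_lt hr)
    have hjp : ((j : ℕ) : ℤ) < p := by exact_mod_cast j.2
    suffices key : ∃ τ : Equiv.Perm (Fin (Nj j)), ∀ i, L j i = ((τ i : Fin (Nj j)) : ℤ) by
      obtain ⟨τ, hτ⟩ := key
      obtain ⟨i, hi⟩ := hj τ
      exact hi (hτ i)
    refine phi_of_closed (L j) ?_ ?_ ?_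
    · intro a b hab
      have h1 : m (e ⟨j, a⟩) = m (e ⟨j, b⟩) := by
        rw [hm, hm]
        change (p : ℤ) * L j a + _ = (p : ℤ) * L j b + _
        rw [hab]
      have h2 := e.injective (hinj h1)
      exact eq_of_heq (Sigma.mk.inj_iff.1 h2).2
    · intro i
      by_contra hi
      have h1 : 0 ≤ (p : ℤ) * L j i + ((j : ℕ) : ℤ) := by
        have := hnn (e ⟨j, i⟩)
        rw [hm] at this
        exact this
      have h2 : L j i ≤ -1 := by linarith [lt_of_not_ge hi]
      nlinarith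
    · intro i hi
      have h1 : m (e ⟨j, i⟩) = (p : ℤ) * L j i + ((j : ℕ) : ℤ) := hm _
      obtain ⟨k, hk⟩ := closed_of_sum hr m hinj hnn hsum (e ⟨j, i⟩) (by rw [h1]; nlinarith)
      obtain ⟨⟨j', i'⟩, rfl⟩ := e.surjective k
      have h2 : m (e ⟨j', i'⟩) = (p : ℤ) * L j' i' + ((j' : ℕ) : ℤ) := hm _
      rw [h1, h2] at hk
      obtain ⟨h3, h4⟩ := qr_arith (a := L j' i') (b := L j i - 1) j'.2 j.2 (by rw [hk]; ring)
      have h5 : j' = j := Fin.ext h3
      subst h5
      exact ⟨i', h4⟩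

end Pool.Agent.Helper24.AN
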